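import Pool.Agent.Hhelper82.Mc.Curve

namespace Pool.Agent.Hhelper82.Mc

theorem exists_root : ∃ t : ℝ, 0 < t ∧ t < 1 ∧ t ^ 3 = 3 * t - 1 := by
  have h := intermediate_value_Icc' (show (0:ℝ) ≤ 1 by norm_num)
    (f := fun t : ℝ => t ^ 3 - 3 * t + 1) (by fun_prop)
  have h0 : (0:ℝ) ∈ Set.Icc ((1:ℝ) ^ 3 - 3 * 1 + 1) ((0:ℝ) ^ 3 - 3 * 0 + 1) := by
    constructor <;> norm_num
  obtain ⟨t, ⟨ht0, ht1⟩, ht⟩ := h h0
  simp only at ht
  refine ⟨t, ?_, ?_, by linarith⟩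
  · rcases ht0.lt_or_eq with h | h
    · exact h
    · subst h; norm_num at ht
  · rcases ht1.lt_or_eq with h | h
    · exact h
    · subst h; norm_num at ht

theorem root_abs_le {t : ℝ} (ht : t ^ 3 = 3 * t - 1) : |t| ≤ 2 := by
  by_contra hcon
  push Not at hcon
  have h1 : |t| ^ 3 ≤ 3 * |t| + 1 := by
    rw [← abs_pow, ht]
    calc |3 * t - 1| ≤ |3 * t| + |(1:ℝ)| := abs_sub _ _
      _ = 3 * |t| + 1 := by rw [abs_mul]; norm_num
  nlinarith [mul_pos (sub_pos.mpr hcon) (sub_pos.mpr hcon)]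

theorem lf_abs_le {t : ℝ} (ht : t ^ 3 = 3 * t - 1) {u v w m : ℝ} (hu : |u| ≤ m) (hv : |v| ≤ m)
    (hw : |w| ≤ m) : |lf t u v w| ≤ 7 * m := by
  have h := root_abs_le ht
  have hm : 0 ≤ m := (abs_nonneg u).trans hu
  unfold lf
  calc |u + v * t + w * t ^ 2| ≤ |u + v * t| + |w * t ^ 2| := abs_add_le _ _
    _ ≤ |u| + |v * t| + |w * t ^ 2| := by gcongr; exact abs_add_le _ _
    _ = |u| + |v| * |t| + |w| * |t| ^ 2 := by rw [abs_mul, abs_mul, abs_pow]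
    _ ≤ m + m * 2 + m * 2 ^ 2 := by gcongr
    _ = 7 * m := by ring

theorem vec_abs_le {t : ℝ} (ht : t ^ 3 = 3 * t - 1) {a : Fin 3 → ℤ} {m : ℝ}
    (h : ∀ i, |(a i : ℝ)| ≤ m) (k : Fin 3) : |vec t a k| ≤ 7 * m := by
  fin_cases k
  · exact lf_abs_le ht (h 0) (h 1) (h 2)
  · exact lf_abs_le (sh_root ht) (h 0) (h 1) (h 2)
  · exact lf_abs_le (sh_root (sh_root ht)) (h 0) (h 1) (h 2)

theorem Nf_abs_le {u v w m : ℝ} (hu : |u| ≤ m) (hv : |v| ≤ m)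
    (hw : |w| ≤ m) : |Nf u v w| ≤ 27 * m ^ 3 := by
  have hm : 0 ≤ m := (abs_nonneg u).trans hu
  have key : ∀ (c : ℝ) (i j k : ℕ), i + j + k = 3 → -(|c| * m ^ 3) ≤ c * u ^ i * v ^ j * w ^ k ∧
      c * u ^ i * v ^ j * w ^ k ≤ |c| * m ^ 3 := by
    intro c i j k h
    rw [← abs_le]
    rw [abs_mul, abs_mul, abs_mul, abs_pow, abs_pow, abs_pow]
    calc |c| * |u| ^ i * |v| ^ j * |w| ^ k ≤ |c| * m ^ i * m ^ j * m ^ k := by gcongr
      _ = |c| * m ^ (i + j + k) := by rw [pow_add, pow_add]; ring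
      _ = _ := by rw [h]
  have h1 := key 1 3 0 0 rfl
  have h2 := key 6 2 0 1 rfl
  have h3 := key (-3) 1 2 0 rfl
  have h4 := key 3 1 1 1 rfl
  have h5 := key 9 1 0 2 rfl
  have h6 := key (-1) 0 3 0 rfl
  have h7 := key 3 0 1 2 rfl
  have h8 := key 1 0 0 3 rfl
  simp only [pow_zero, mul_one, pow_one, one_mul, abs_neg, abs_one, Nat.abs_ofNat] at h1 h2 h3 h4 h5 h6 h7 h8
  rw [abs_le]
  unfold Nf
  constructor <;> linarith [h1.1, h1.2, h2.1, h2.2, h3.1, h3.2, h4.1, h4.2, h5.1, h5.2, h6.1, h6.2,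
    h7.1, h7.2, h8.1, h8.2]

theorem Kf_abs_le {u v w m : ℝ} (hu : |u| ≤ m) (hv : |v| ≤ m)
    (hw : |w| ≤ m) : |Kf u v w| ≤ 648 * m ^ 4 := by
  have hm : 0 ≤ m := (abs_nonneg u).trans hu
  have key : ∀ (c : ℝ) (i j k : ℕ), i + j + k = 4 → -(|c| * m ^ 4) ≤ c * u ^ i * v ^ j * w ^ k ∧
      c * u ^ i * v ^ j * w ^ k ≤ |c| * m ^ 4 := by
    intro c i j k h
    rw [← abs_le]
    rw [abs_mul, abs_mul, abs_mul, abs_pow, abs_pow, abs_pow]
    calc |c| * |u| ^ i * |v| ^ j * |w| ^ k ≤ |c| * m ^ i * m ^ j * m ^ k := by gcongr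
      _ = |c| * m ^ (i + j + k) := by rw [pow_add, pow_add]; ring
      _ = _ := by rw [h]
  have h1 := key 3 4 0 0 rfl
  have h2 := key 24 3 0 1 rfl
  have h3 := key 9 2 2 0 rfl
  have h4 := key (-9) 2 1 1 rfl
  have h5 := key 81 2 0 2 rfl
  have h6 := key 15 1 3 0 rfl
  have h7 := key 27 1 2 1 rfl
  have h8 := key (-72) 1 1 2 rfl
  have h9 := key 147 1 0 3 rfl
  have h10 := key (-9) 0 4 0 rfl
  have h11 := key 48 0 3 1 rfl
  have h12 := key (-9) 0 2 2 rfl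
  have h13 := key (-90) 0 1 3 rfl
  have h14 := key 105 0 0 4 rfl
  simp only [pow_zero, mul_one, pow_one, abs_neg, Nat.abs_ofNat] at h1 h2 h3 h4 h5 h6 h7 h8 h9 h10 h11 h12 h13 h14
  rw [abs_le]
  unfold Kf
  constructor <;> linarith [h1.1, h1.2, h2.1, h2.2, h3.1, h3.2, h4.1, h4.2, h5.1, h5.2, h6.1, h6.2,
    h7.1, h7.2, h8.1, h8.2, h9.1, h9.2, h10.1, h10.2, h11.1, h11.2, h12.1, h12.2, h13.1, h13.2,
    h14.1, h14.2]

/-- If the last coordinate does not vanish, the height is at least `c / d^3`. -/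
theorem t_ne_zero_bound {t y u v w D : ℝ}
    (hf : y * Nf u v w - Kf u v w + t * y ^ 3 + t ^ 4 = 0) (hD0 : 0 ≤ D) (hD : D ≤ 1 / 2)
    (ht : |t| ≤ D * |y|) (hu : |u| ≤ D * |y|) (hv : |v| ≤ D * |y|) (hw : |w| ≤ D * |y|)
    (ht1 : 1 ≤ |t|) : 1 ≤ 402 * D ^ 3 * |y| := by
  have hy : 0 < |y| := by
    by_contra h
    have : |y| = 0 := le_antisymm (not_lt.mp h) (abs_nonneg _)
    rw [this, mul_zero] at ht
    linarith
  have h1 := Nf_abs_le hu hv hw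
  have h2 := Kf_abs_le hu hv hw
  have h3 : |t| * |y ^ 3 + t ^ 3| ≤ |y| * (27 * (D * |y|) ^ 3) + 648 * (D * |y|) ^ 4 := by
    rw [← abs_mul]
    have h4 : t * (y ^ 3 + t ^ 3) = -(y * Nf u v w) + Kf u v w := by linear_combination hf
    rw [h4]
    calc _ ≤ |-(y * Nf u v w)| + |Kf u v w| := abs_add_le _ _
      _ = |y| * |Nf u v w| + |Kf u v w| := by rw [abs_neg, abs_mul]
      _ ≤ _ := by gcongr
  have h5 : 7 / 8 * |y| ^ 3 ≤ |y ^ 3 + t ^ 3| := by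
    have h6 : |y| ^ 3 - |t| ^ 3 ≤ |y ^ 3 + t ^ 3| := by
      rw [← abs_pow, ← abs_pow]
      have := abs_sub_abs_le_abs_sub (y ^ 3) (-(t ^ 3))
      rw [abs_neg, sub_neg_eq_add] at this
      exact this
    have h7 : |t| ^ 3 ≤ 1 / 8 * |y| ^ 3 := by
      calc |t| ^ 3 ≤ (D * |y|) ^ 3 := by gcongr
        _ ≤ (1 / 2 * |y|) ^ 3 := by gcongr
        _ = _ := by ring
    linarith
  have h8 : |y| * (27 * (D * |y|) ^ 3) + 648 * (D * |y|) ^ 4 ≤ 351 * D ^ 3 * |y| ^ 4 := by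
    have h9 : D ^ 4 ≤ 1 / 2 * D ^ 3 := by
      have : 0 ≤ D ^ 3 := by positivity
      nlinarith
    have h10 : 0 ≤ |y| ^ 4 := by positivity
    have h11 := mul_le_mul_of_nonneg_right h9 h10
    calc |y| * (27 * (D * |y|) ^ 3) + 648 * (D * |y|) ^ 4
        = 27 * D ^ 3 * |y| ^ 4 + 648 * (D ^ 4 * |y| ^ 4) := by ring
      _ ≤ 27 * D ^ 3 * |y| ^ 4 + 648 * (1 / 2 * D ^ 3 * |y| ^ 4) := by gcongr
      _ = _ := by ring
  have h12 : 1 * (7 / 8 * |y| ^ 3) ≤ 351 * D ^ 3 * |y| ^ 4 := by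
    calc 1 * (7 / 8 * |y| ^ 3) ≤ |t| * |y ^ 3 + t ^ 3| := by gcongr
      _ ≤ _ := h3.trans h8
  have hy3 : 0 < |y| ^ 3 := by positivity
  have h13 : 7 / 8 * |y| ^ 3 ≤ (351 * D ^ 3 * |y|) * |y| ^ 3 := by
    calc 7 / 8 * |y| ^ 3 = 1 * (7 / 8 * |y| ^ 3) := by ring
      _ ≤ _ := h12
      _ = _ := by ring
  have h14 := le_of_mul_le_mul_right h13 hy3
  have : 0 ≤ D ^ 3 * |y| := by positivity
  nlinarith

/-- The key step: large `|y|` relative to `|a|` forces one conjugate to be very small. -/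
theorem step {s : ℝ} (hs : s ^ 3 = 3 * s - 1) {a : Fin 3 → ℤ} {y T ε : ℝ}
    (hT : ∀ k, |vec s a k| ≤ Real.exp T) (hy : y * Nf (a 0 : ℝ) (a 1) (a 2) = Kf (a 0 : ℝ) (a 1) (a 2))
    (hN : Nf (a 0 : ℝ) (a 1) (a 2) ≠ 0)
    (hbig : 3 * Real.exp ((4 - ε) * T) ≤ |y|)
    (hk : |Kf (a 0 : ℝ) (a 1) (a 2)| ≤ 3 * (|vec s a 1| ^ 3 * |vec s a 2|)) :
    |vec s a 0| ≤ Real.exp (-((2 - ε) * T)) := by
  have h1 : vec s a 0 * vec s a 1 * vec s a 2 = Nf (a 0 : ℝ) (a 1) (a 2) := Nf_eq hs _ _ _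
  set x0 := vec s a 0
  set x1 := vec s a 1
  set x2 := vec s a 2
  have hpos : 0 < |Nf (a 0 : ℝ) (a 1) (a 2)| := abs_pos.mpr hN
  have h2 : |x0| * |x1| * |x2| = |Nf (a 0 : ℝ) (a 1) (a 2)| := by rw [← h1, abs_mul, abs_mul]
  have h3 : |y| * |Nf (a 0 : ℝ) (a 1) (a 2)| ≤ 3 * (|x1| ^ 3 * |x2|) := by
    rw [← abs_mul, hy]; exact hk
  rw [← h2] at h3 hpos
  have h12 : 0 < |x1| * |x2| := by
    by_contra h
    have h0 : |x1| * |x2| = 0 := le_antisymm (not_lt.mp h) (by positivity)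
    rw [mul_assoc, h0, mul_zero] at hpos
    exact lt_irrefl _ hpos
  have h4 : |y| * |x0| ≤ 3 * |x1| ^ 2 := by
    have h5 : (|y| * |x0|) * (|x1| * |x2|) ≤ (3 * |x1| ^ 2) * (|x1| * |x2|) := by
      calc (|y| * |x0|) * (|x1| * |x2|) = |y| * (|x0| * |x1| * |x2|) := by ring
        _ ≤ 3 * (|x1| ^ 3 * |x2|) := h3
        _ = _ := by ring
    exact le_of_mul_le_mul_right h5 h12
  have h6 : |x1| ^ 2 ≤ Real.exp (2 * T) := by
    have := hT 1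
    calc |x1| ^ 2 ≤ Real.exp T ^ 2 := by gcongr
      _ = Real.exp (2 * T) := by rw [← Real.exp_nat_mul]; norm_num
  have h7 : (3 * Real.exp ((4 - ε) * T)) * |x0| ≤ 3 * Real.exp (2 * T) := by
    calc (3 * Real.exp ((4 - ε) * T)) * |x0| ≤ |y| * |x0| := by gcongr
      _ ≤ 3 * |x1| ^ 2 := h4
      _ ≤ _ := by gcongr
  have h8 : Real.exp (2 * T) = Real.exp ((4 - ε) * T) * Real.exp (-((2 - ε) * T)) := by
    rw [← Real.exp_add]; congr 1; ring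
  rw [h8] at h7
  have h9 : (3 * Real.exp ((4 - ε) * T)) * |x0| ≤
      (3 * Real.exp ((4 - ε) * T)) * Real.exp (-((2 - ε) * T)) := by linarith
  exact le_of_mul_le_mul_left h9 (by positivity)

/-- the numerical inequality behind the exponent `4/3`. -/
theorem log_ineq {ε η b T lh l7 l3 : ℝ} (hε : 0 < ε) (hε1 : ε ≤ 1) (hη : η = ε / 18)
    (hT : 6 * (b + 2 * l7 + l3) ≤ ε * T) (hl7 : 0 ≤ l7) (hl3 : 0 ≤ l3) (hT0 : 0 ≤ T)
    (h : lh + (4 / 3 + η) * ((T - l7) - lh) ≤ b) : l3 + (4 - ε) * T ≤ lh := by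
  subst hη
  have h1 : (1 / 3 + ε / 18) * (l3 + (4 - ε) * T) ≤ (1 / 3 + ε / 18) * lh := by
    have e1 : (4 / 3 + ε / 18) * l7 ≤ 2 * l7 := by nlinarith
    have e2 : (1 / 3 + ε / 18) * l3 ≤ l3 := by nlinarith
    have e3 : 0 ≤ ε ^ 2 * T := by positivity
    nlinarith
  exact le_of_mul_le_mul_left h1 (by positivity)

theorem Kf_pigeon {s : ℝ} (hs : s ^ 3 = 3 * s - 1) (a : Fin 3 → ℤ) :
    |Kf (a 0 : ℝ) (a 1) (a 2)| ≤ 3 * (|vec s a 1| ^ 3 * |vec s a 2|) ∨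
    |Kf (a 0 : ℝ) (a 1) (a 2)| ≤ 3 * (|vec (sh s) a 1| ^ 3 * |vec (sh s) a 2|) ∨
    |Kf (a 0 : ℝ) (a 1) (a 2)| ≤ 3 * (|vec (sh (sh s)) a 1| ^ 3 * |vec (sh (sh s)) a 2|) := by
  have h := Kf_eq hs (a 0 : ℝ) (a 1) (a 2)
  have e1 : vec s a 1 = lf (sh s) (a 0) (a 1) (a 2) := rfl
  have e2 : vec s a 2 = lf (sh (sh s)) (a 0) (a 1) (a 2) := rfl
  have e3 : vec (sh s) a 1 = lf (sh (sh s)) (a 0) (a 1) (a 2) := rfl
  have e4 : vec (sh s) a 2 = lf s (a 0) (a 1) (a 2) := by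
    have : vec (sh s) a 2 = lf (sh (sh (sh s))) (a 0) (a 1) (a 2) := rfl
    rw [this, sh_sh_sh hs]
  have e5 : vec (sh (sh s)) a 1 = lf s (a 0) (a 1) (a 2) := by
    have : vec (sh (sh s)) a 1 = lf (sh (sh (sh s))) (a 0) (a 1) (a 2) := rfl
    rw [this, sh_sh_sh hs]
  have e6 : vec (sh (sh s)) a 2 = lf (sh s) (a 0) (a 1) (a 2) := by
    have : vec (sh (sh s)) a 2 = lf (sh (sh (sh (sh s)))) (a 0) (a 1) (a 2) := rfl
    rw [this, sh_sh_sh hs]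
  rw [e1, e2, e3, e4, e5, e6, ← h]
  set x0 := lf s (a 0 : ℝ) (a 1) (a 2)
  set x1 := lf (sh s) (a 0 : ℝ) (a 1) (a 2)
  set x2 := lf (sh (sh s)) (a 0 : ℝ) (a 1) (a 2)
  have hsum : |x0 ^ 3 * x1 + x1 ^ 3 * x2 + x2 ^ 3 * x0| ≤
      |x0| ^ 3 * |x1| + |x1| ^ 3 * |x2| + |x2| ^ 3 * |x0| := by
    calc _ ≤ |x0 ^ 3 * x1 + x1 ^ 3 * x2| + |x2 ^ 3 * x0| := abs_add_le _ _
      _ ≤ |x0 ^ 3 * x1| + |x1 ^ 3 * x2| + |x2 ^ 3 * x0| := by gcongr; exact abs_add_le _ _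
      _ = _ := by rw [abs_mul, abs_mul, abs_mul, abs_pow, abs_pow, abs_pow]
  by_contra hcon
  push Not at hcon
  obtain ⟨h1, h2, h3⟩ := hcon
  linarith

theorem intCast_Nf (u v w : ℤ) : ((Nf u v w : ℤ) : ℝ) = Nf (u : ℝ) (v : ℝ) (w : ℝ) := by
  unfold Nf; push_cast; ring

theorem intCast_Kf (u v w : ℤ) : ((Kf u v w : ℤ) : ℝ) = Kf (u : ℝ) (v : ℝ) (w : ℝ) := by
  unfold Kf; push_cast; ring

/-- data extracted from a point with vanishing last coordinate -/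
theorem t_zero_data {y : ℤ} {a : Fin 3 → ℤ} {D : ℝ}
    (hf : y * Nf (a 0) (a 1) (a 2) - Kf (a 0) (a 1) (a 2) = 0) (hy : y ≠ 0) (hD : 0 < D)
    (ha : ∀ i, |(a i : ℝ)| ≤ D * |(y : ℝ)|) (hmax : ∃ i, D * |(y : ℝ)| ≤ |(a i : ℝ)|) :
    a ≠ 0 ∧ 1 ≤ D * |(y : ℝ)| ∧ |(y : ℝ)| ≤ 648 * (D * |(y : ℝ)|) ^ 4 ∧
      Nf (a 0 : ℝ) (a 1) (a 2) ≠ 0 ∧
      (y : ℝ) * Nf (a 0 : ℝ) (a 1) (a 2) = Kf (a 0 : ℝ) (a 1) (a 2) := by
  have hy1 : (1:ℝ) ≤ |(y : ℝ)| := by exact_mod_cast Int.one_le_abs hy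
  obtain ⟨i, hi⟩ := hmax
  have hpos : 0 < D * |(y : ℝ)| := by positivity
  have hai : a i ≠ 0 := by
    intro h0
    rw [h0] at hi
    simp only [Int.cast_zero, abs_zero] at hi
    linarith
  have ha0 : a ≠ 0 := by
    intro h0
    apply hai
    rw [h0]; rfl
  have h1 : (1:ℝ) ≤ |(a i : ℝ)| := by exact_mod_cast Int.one_le_abs hai
  have hN : Nf (a 0) (a 1) (a 2) ≠ 0 := by
    intro h
    obtain ⟨h1, h2, h3⟩ := Nf_int_eq_zero _ _ _ h
    apply ha0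
    ext k
    fin_cases k <;> simp [h1, h2, h3]
  have hN1 : (1:ℝ) ≤ |Nf (a 0 : ℝ) (a 1) (a 2)| := by
    rw [← intCast_Nf]
    exact_mod_cast Int.one_le_abs hN
  have hNR : Nf (a 0 : ℝ) (a 1) (a 2) ≠ 0 := by
    intro h
    rw [h, abs_zero] at hN1
    linarith
  have hfR : (y : ℝ) * Nf (a 0 : ℝ) (a 1) (a 2) = Kf (a 0 : ℝ) (a 1) (a 2) := by
    rw [← intCast_Nf, ← intCast_Kf]
    have : y * Nf (a 0) (a 1) (a 2) = Kf (a 0) (a 1) (a 2) := by linarith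
    exact_mod_cast this
  refine ⟨ha0, h1.trans (ha i), ?_, hNR, hfR⟩
  calc |(y : ℝ)| = |(y : ℝ)| * 1 := by ring
    _ ≤ |(y : ℝ)| * |Nf (a 0 : ℝ) (a 1) (a 2)| := by gcongr
    _ = |Kf (a 0 : ℝ) (a 1) (a 2)| := by rw [← abs_mul, hfR]
    _ ≤ _ := Kf_abs_le (ha 0) (ha 1) (ha 2)

theorem main_lemma (G : MvPolynomial (Fin 3) ℚ) (hG : G ≠ 0) {d : ℕ} (hd : G.IsHomogeneous d) :
    ∃ η : ℝ, 0 < η ∧ ∀ B₀ : ℝ, ∃ d₀ : ℝ, 0 < d₀ ∧ ∀ (t y : ℤ) (a : Fin 3 → ℤ) (D : ℝ),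
      y * Nf (a 0) (a 1) (a 2) - Kf (a 0) (a 1) (a 2) + t * y ^ 3 + t ^ 4 = 0 → y ≠ 0 →
      0 < D → D < d₀ → |(t : ℝ)| ≤ D * |(y : ℝ)| → (∀ i, |(a i : ℝ)| ≤ D * |(y : ℝ)|) →
      (D * |(y : ℝ)| ≤ |(t : ℝ)| ∨ ∃ i, D * |(y : ℝ)| ≤ |(a i : ℝ)|) →
      |(y : ℝ)| * D ^ (4 / 3 + η) ≤ B₀ → MvPolynomial.aeval (fun i => (a i : ℚ)) G ≠ 0 := by
  obtain ⟨θ, _, _, hθ⟩ := exists_root
  obtain ⟨ε₁, hε₁, T₁, h₁⟩ := curve_lemma hθ G hG hd
  obtain ⟨ε₂, hε₂, T₂, h₂⟩ := curve_lemma (sh_root hθ) G hG hd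
  obtain ⟨ε₃, hε₃, T₃, h₃⟩ := curve_lemma (sh_root (sh_root hθ)) G hG hd
  set ε := min (min ε₁ ε₂) (min ε₃ 1) with hε
  have hε0 : 0 < ε := lt_min (lt_min hε₁ hε₂) (lt_min hε₃ one_pos)
  have hεa : ε ≤ ε₁ := (min_le_left _ _).trans (min_le_left _ _)
  have hεb : ε ≤ ε₂ := (min_le_left _ _).trans (min_le_right _ _)
  have hεc : ε ≤ ε₃ := (min_le_right _ _).trans (min_le_left _ _)
  have hεd : ε ≤ 1 := (min_le_right _ _).trans (min_le_right _ _)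
  refine ⟨ε / 18, by positivity, fun B₀ => ?_⟩
  set b := Real.log (max B₀ 1) with hb
  have hb0 : 0 ≤ b := Real.log_nonneg (le_max_right _ _)
  set l7 := Real.log 7 with hl7
  set l3 := Real.log 3 with hl3
  have hl70 : 0 ≤ l7 := Real.log_nonneg (by norm_num)
  have hl30 : 0 ≤ l3 := Real.log_nonneg (by norm_num)
  set T' := max (max (max T₁ T₂) (max T₃ 0)) (6 * (b + 2 * l7 + l3) / ε) with hT'
  have hTa : T₁ ≤ T' := (le_max_left _ _).trans ((le_max_left _ _).trans (le_max_left _ _))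
  have hTb : T₂ ≤ T' := (le_max_right _ _).trans ((le_max_left _ _).trans (le_max_left _ _))
  have hTc : T₃ ≤ T' := (le_max_left _ _).trans ((le_max_right _ _).trans (le_max_left _ _))
  have hTd : 0 ≤ T' := (le_max_right _ _).trans ((le_max_right _ _).trans (le_max_left _ _))
  have hTe : 6 * (b + 2 * l7 + l3) / ε ≤ T' := le_max_right _ _
  refine ⟨min (1 / 2) (min (1 / (402 * (|B₀| + 1))) (Real.exp (-(3 * T')) / 648)),
    by positivity, ?_⟩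
  intro t y a D hf hy hD hDd ht ha hmax hB
  have hD1 : D < 1 / 2 := lt_of_lt_of_le hDd (min_le_left _ _)
  have hD2 : D < 1 / (402 * (|B₀| + 1)) :=
    lt_of_lt_of_le hDd ((min_le_right _ _).trans (min_le_left _ _))
  have hD3 : D < Real.exp (-(3 * T')) / 648 :=
    lt_of_lt_of_le hDd ((min_le_right _ _).trans (min_le_right _ _))
  have hy1 : (1:ℝ) ≤ |(y : ℝ)| := by exact_mod_cast Int.one_le_abs hy
  by_cases ht0 : t = 0
  · subst ht0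
    have hmax' : ∃ i, D * |(y : ℝ)| ≤ |(a i : ℝ)| := by
      rcases hmax with h | h
      · simp only [Int.cast_zero, abs_zero] at h
        have : 0 < D * |(y : ℝ)| := by positivity
        linarith
      · exact h
    have hf' : y * Nf (a 0) (a 1) (a 2) - Kf (a 0) (a 1) (a 2) = 0 := by linarith
    obtain ⟨ha0, hm1, hy4, hN, hyN⟩ := t_zero_data hf' hy hD ha hmax'
    set m := D * |(y : ℝ)| with hm
    have hm0 : 0 < m := by linarith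
    set T := Real.log (7 * m) with hT
    have hexpT : Real.exp T = 7 * m := Real.exp_log (by positivity)
    have hTl : T = l7 + Real.log m := by
      rw [hT, Real.log_mul (by norm_num) hm0.ne']
    have hTT : T' ≤ T := by
      have h5 : Real.exp (3 * T') ≤ m ^ 3 := by
        have h6 : 1 ≤ D * (648 * m ^ 3) := by
          have h7 : m * 1 ≤ m * (D * (648 * m ^ 3)) := by
            calc m * 1 = D * |(y : ℝ)| := by rw [hm]; ring
              _ ≤ D * (648 * m ^ 4) := by gcongr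
              _ = _ := by ring
          exact le_of_mul_le_mul_left h7 hm0
        have h8 : D * (648 * m ^ 3) ≤ (Real.exp (-(3 * T')) / 648) * (648 * m ^ 3) := by gcongr
        have h9 : 1 ≤ Real.exp (-(3 * T')) * m ^ 3 := by
          calc 1 ≤ _ := h6
            _ ≤ _ := h8
            _ = _ := by ring
        calc Real.exp (3 * T') = Real.exp (3 * T') * 1 := by ring
          _ ≤ Real.exp (3 * T') * (Real.exp (-(3 * T')) * m ^ 3) := by gcongr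
          _ = m ^ 3 := by rw [← mul_assoc, ← Real.exp_add]; simp
      have h6 : 3 * T' ≤ 3 * Real.log m := by
        have := Real.log_le_log (Real.exp_pos _) h5
        rw [Real.log_exp, Real.log_pow] at this
        exact_mod_cast this
      linarith
    have hT0 : 0 ≤ T := hTd.trans hTT
    have hTbig : 6 * (b + 2 * l7 + l3) ≤ ε * T := by
      have := hTe.trans hTT
      rw [div_le_iff₀ hε0] at this
      linarith
    have hvec : ∀ s : ℝ, s ^ 3 = 3 * s - 1 → ∀ k, |vec s a k| ≤ Real.exp T := by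
      intro s hs k
      rw [hexpT]
      exact vec_abs_le hs ha k
    have hlogh : l3 + (4 - ε) * T ≤ Real.log |(y : ℝ)| := by
      apply log_ineq hε0 hεd rfl hTbig hl70 hl30 hT0
      have h5 : 0 < |(y : ℝ)| * D ^ (4 / 3 + ε / 18) := by positivity
      have h6 := Real.log_le_log h5 (hB.trans (le_max_left B₀ 1))
      rw [Real.log_mul (by positivity) (by positivity), Real.log_rpow hD] at h6
      have h7 : Real.log D = (T - l7) - Real.log |(y : ℝ)| := by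
        have : Real.log m = Real.log D + Real.log |(y : ℝ)| :=
          Real.log_mul hD.ne' (by positivity)
        linarith
      rw [h7] at h6
      exact h6
    have hbig : 3 * Real.exp ((4 - ε) * T) ≤ |(y : ℝ)| := by
      have h5 : 3 * Real.exp ((4 - ε) * T) = Real.exp (l3 + (4 - ε) * T) := by
        rw [Real.exp_add, hl3, Real.exp_log (by norm_num)]
      rw [h5]
      calc _ ≤ Real.exp (Real.log |(y : ℝ)|) := Real.exp_le_exp.mpr hlogh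
        _ = _ := Real.exp_log (by positivity)
    rcases Kf_pigeon hθ a with hk | hk | hk
    · exact h₁ ε hε0 hεa T (hTa.trans hTT) a ha0 (step hθ (hvec _ hθ) hyN hN hbig hk)
        (hvec _ hθ 1) (hvec _ hθ 2)
    · exact h₂ ε hε0 hεb T (hTb.trans hTT) a ha0
        (step (sh_root hθ) (hvec _ (sh_root hθ)) hyN hN hbig hk)
        (hvec _ (sh_root hθ) 1) (hvec _ (sh_root hθ) 2)
    · exact h₃ ε hε0 hεc T (hTc.trans hTT) a ha0
        (step (sh_root (sh_root hθ)) (hvec _ (sh_root (sh_root hθ))) hyN hN hbig hk)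
        (hvec _ (sh_root (sh_root hθ)) 1) (hvec _ (sh_root (sh_root hθ)) 2)
  · exfalso
    have ht1 : (1:ℝ) ≤ |(t : ℝ)| := by exact_mod_cast Int.one_le_abs ht0
    have hfR : (y : ℝ) * Nf (a 0 : ℝ) (a 1) (a 2) - Kf (a 0 : ℝ) (a 1) (a 2) + t * (y:ℝ) ^ 3 +
        (t:ℝ) ^ 4 = 0 := by
      rw [← intCast_Nf, ← intCast_Kf]
      exact_mod_cast hf
    have h1 := t_ne_zero_bound hfR hD.le hD1.le ht (ha 0) (ha 1) (ha 2) ht1
    have h2 : D ^ (2:ℝ) ≤ D ^ (4 / 3 + ε / 18) :=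
      Real.rpow_le_rpow_of_exponent_ge hD (by linarith) (by linarith)
    rw [Real.rpow_two] at h2
    have h3 : |(y : ℝ)| * D ^ 2 ≤ B₀ := (mul_le_mul_of_nonneg_left h2 (abs_nonneg _)).trans hB
    have h4 : D * (402 * (|B₀| + 1)) < 1 := by
      rw [lt_div_iff₀ (by positivity)] at hD2
      exact hD2
    have h5 : B₀ ≤ |B₀| := le_abs_self _
    have h6 : 402 * D * (|(y : ℝ)| * D ^ 2) ≤ 402 * D * (|B₀| + 1) := by
      apply mul_le_mul_of_nonneg_left _ (by positivity)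
      linarith
    nlinarith

end Pool.Agent.Hhelper82.Mc
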