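import Mathlib

open Polynomial

namespace Pool.Agent.Hhelper82.Mc

section Mahler
open MeasureTheory Real Set Filter intervalIntegral

/-- The Mahler measure is bounded by any bound of the polynomial on the unit circle. -/
theorem mahler_le_of_circle (p : ℂ[X]) {B : ℝ} (hB : 0 < B)
    (h : ∀ z : ℂ, ‖z‖ = 1 → ‖p.eval z‖ ≤ B) : p.mahlerMeasure ≤ B := by
  by_cases hp : p = 0
  · simp [hp, hB.le]
  rw [show B = rexp (circleAverage (fun _ ↦ log B) 0 1)
    by simp [circleAverage_def, mul_assoc, exp_log hB], mahlerMeasure_def_of_ne_zero hp,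
    circleAverage_def, smul_eq_mul]
  gcongr
  apply intervalIntegral.integral_mono_ae_restrict (by positivity)
    p.intervalIntegrable_mahlerMeasure (by simp)
  rw [EventuallyLE, eventually_iff_exists_mem]
  use {x : ℝ | eval (circleMap 0 1 x) p ≠ 0}
  constructor
  · rw [mem_ae_iff, compl_def, Measure.restrict_apply' (by simp)]
    apply (Finite.of_sdiff _ <| finite_singleton (2 * π)).measure_zero
    simp only [ne_eq, mem_ofPred_eq, Decidable.not_not, inter_sdiff_assoc, Icc_sdiff_right]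
    rw [ofPred_inter_eq_sep]
    apply Finite.of_finite_image (f := circleMap 0 1) ((Multiset.finite_toSet p.roots).subset _)
      <| fun _ h _ k l ↦ injOn_circleMap_of_abs_sub_le' one_ne_zero (by linarith) h.1 k.1 l
    simp [hp]
  · intro x hx
    have h1 : ‖circleMap 0 1 x‖ = 1 := by simp
    have h2 := h _ h1
    have h3 : (0:ℝ) < ‖eval (circleMap 0 1 x) p‖ := by
      rw [norm_pos_iff]; exact hx
    simpa using Real.log_le_log h3 h2

end Mahler

/-- If an integer polynomial is divisible by a high power of `X - ρ` then it is large somewhere on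
the unit circle. -/
theorem pow_le_of_dvd (W : ℤ[X]) (hW : W ≠ 0) (ρ : ℂ) (e : ℕ)
    (hdvd : (X - C ρ) ^ e ∣ W.map (Int.castRingHom ℂ)) {B : ℝ} (hB : 0 < B)
    (h : ∀ z : ℂ, ‖z‖ = 1 → ‖(W.map (Int.castRingHom ℂ)).eval z‖ ≤ B) : ‖ρ‖ ^ e ≤ B := by
  obtain ⟨V, hV⟩ := hdvd
  have hinj : Function.Injective (Int.castRingHom ℂ) := by
    intro a b hab
    simpa using hab
  have hW' : W.map (Int.castRingHom ℂ) ≠ 0 := by
    rwa [Ne, Polynomial.map_eq_zero_iff hinj]
  have hV0 : V ≠ 0 := by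
    rintro rfl
    simp at hV
    exact hW' (by simpa using hV)
  have h1 := mahler_le_of_circle _ hB h
  have hlc : (1:ℝ) ≤ ‖V.leadingCoeff‖ := by
    have h2 : (W.map (Int.castRingHom ℂ)).leadingCoeff = V.leadingCoeff := by
      rw [hV, leadingCoeff_mul, leadingCoeff_pow, leadingCoeff_X_sub_C, one_pow, one_mul]
    have h3 : (W.map (Int.castRingHom ℂ)).leadingCoeff = (W.leadingCoeff : ℂ) := by
      rw [leadingCoeff_map_of_injective hinj]; simp
    rw [← h2, h3]
    have h4 : W.leadingCoeff ≠ 0 := leadingCoeff_ne_zero.mpr hW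
    have h5 : (1:ℤ) ≤ |W.leadingCoeff| := Int.one_le_abs h4
    rw [Complex.norm_intCast]
    exact_mod_cast h5
  have hV1 : 1 ≤ V.mahlerMeasure := hlc.trans (leadingCoeff_le_mahlerMeasure V)
  have hpow : ((X - C ρ : ℂ[X]) ^ e).mahlerMeasure = (max 1 ‖ρ‖) ^ e := by
    induction e with
    | zero => simp
    | succ e ih =>
      have ih' : ((X - C ρ : ℂ[X]) ^ e).mahlerMeasure = (max 1 ‖ρ‖) ^ e := by
        clear ih hV h1 hlc
        induction e with
        | zero => simp
        | succ e ih => rw [pow_succ, mahlerMeasure_mul, ih, mahlerMeasure_X_sub_C, pow_succ]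
      rw [pow_succ, mahlerMeasure_mul, ih', mahlerMeasure_X_sub_C, pow_succ]
  rw [hV, mahlerMeasure_mul, hpow] at h1
  calc ‖ρ‖ ^ e ≤ (max 1 ‖ρ‖) ^ e := by gcongr; exact le_max_right _ _
    _ = (max 1 ‖ρ‖) ^ e * 1 := by ring
    _ ≤ (max 1 ‖ρ‖) ^ e * V.mahlerMeasure := by gcongr
    _ ≤ B := h1

section Euler
variable {R : Type*} [CommRing R]

/-- Euler derivative `X d/dX`. -/
noncomputable def eul (p : R[X]) : R[X] := X * derivative p

theorem coeff_eul (p : R[X]) (n : ℕ) : (eul p).coeff n = n * p.coeff n := by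
  unfold eul
  cases n with
  | zero => simp
  | succ n => rw [coeff_X_mul, coeff_derivative]; push_cast; ring

theorem coeff_eul_iter (i : ℕ) (p : R[X]) (n : ℕ) :
    (eul^[i] p).coeff n = (n : R) ^ i * p.coeff n := by
  induction i with
  | zero => simp
  | succ i ih => rw [Function.iterate_succ_apply', coeff_eul, ih]; ring

theorem natDegree_eul_iter_le (i : ℕ) (p : R[X]) : (eul^[i] p).natDegree ≤ p.natDegree := by
  rw [natDegree_le_iff_coeff_eq_zero]
  intro N hN
  rw [coeff_eul_iter, coeff_eq_zero_of_natDegree_lt hN, mul_zero]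

theorem eul_dvd {a : R} {m : ℕ} {p : R[X]} (h : (X - C a) ^ (m + 1) ∣ p) :
    (X - C a) ^ m ∣ eul p := by
  obtain ⟨q, rfl⟩ := h
  unfold eul
  rw [derivative_mul, derivative_pow]
  refine Dvd.dvd.mul_left ?_ _
  refine dvd_add ?_ ?_
  · refine Dvd.dvd.mul_right ?_ _
    refine Dvd.dvd.mul_right ?_ _
    refine Dvd.dvd.mul_left ?_ _
    simp
  · refine Dvd.dvd.mul_right ?_ _
    exact pow_dvd_pow _ (Nat.le_succ m)

theorem eul_iter_dvd {a : R} {m : ℕ} {p : R[X]} (h : (X - C a) ^ m ∣ p) (i : ℕ) :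
    (X - C a) ^ (m - i) ∣ eul^[i] p := by
  induction i with
  | zero => simpa using h
  | succ i ih =>
    rw [Function.iterate_succ_apply']
    by_cases hmi : m ≤ i
    · have : m - (i + 1) = 0 := by omega
      rw [this, pow_zero]; exact one_dvd _
    · have h1 : m - i = (m - (i+1)) + 1 := by omega
      rw [h1] at ih
      exact eul_dvd ih

theorem map_eul {S : Type*} [CommRing S] (f : R →+* S) (p : R[X]) :
    (eul p).map f = eul (p.map f) := by
  unfold eul
  rw [Polynomial.map_mul, map_X, derivative_map]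

theorem map_eul_iter {S : Type*} [CommRing S] (f : R →+* S) (i : ℕ) (p : R[X]) :
    (eul^[i] p).map f = eul^[i] (p.map f) := by
  induction i with
  | zero => simp
  | succ i ih => rw [Function.iterate_succ_apply', Function.iterate_succ_apply', map_eul, ih]

theorem eul_iter_sum_smul {n : ℕ} (P : Fin n → R[X]) (v : Fin n → R) (i : ℕ) :
    eul^[i] (∑ l, P l * C (v l)) = ∑ l, eul^[i] (P l) * C (v l) := by
  ext k
  rw [coeff_eul_iter, finsetSum_coeff, finsetSum_coeff, Finset.mul_sum]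
  refine Finset.sum_congr rfl fun l _ => ?_
  rw [coeff_mul_C, coeff_mul_C, coeff_eul_iter]
  ring

theorem coeff_prod_of_le {ι : Type*} (s : Finset ι) (f : ι → R[X]) (d : ι → ℕ)
    (h : ∀ i ∈ s, (f i).natDegree ≤ d i) :
    (∏ i ∈ s, f i).coeff (∑ i ∈ s, d i) = ∏ i ∈ s, (f i).coeff (d i) := by
  classical
  have key : (∏ i ∈ s, f i).natDegree ≤ ∑ i ∈ s, d i ∧
      (∏ i ∈ s, f i).coeff (∑ i ∈ s, d i) = ∏ i ∈ s, (f i).coeff (d i) := by
    induction s using Finset.induction_on with
    | empty => simp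
    | insert a s ha ih =>
      have ih' := ih (fun i hi => h i (Finset.mem_insert_of_mem hi))
      have h1 := h a (Finset.mem_insert_self _ _)
      rw [Finset.prod_insert ha, Finset.sum_insert ha, Finset.prod_insert ha]
      refine ⟨(natDegree_mul_le).trans (add_le_add h1 ih'.1), ?_⟩
      rw [coeff_mul_add_eq_of_natDegree_le h1 ih'.1, ih'.2]
  exact key.2

theorem coeff_det_of_le {n : ℕ} (M : Matrix (Fin n) (Fin n) R[X]) (d : Fin n → ℕ)
    (h : ∀ i l, (M i l).natDegree ≤ d l) :
    (M.det).coeff (∑ l, d l) = Matrix.det (Matrix.of fun i l => (M i l).coeff (d l)) := by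
  rw [Matrix.det_apply, Matrix.det_apply, finsetSum_coeff]
  refine Finset.sum_congr rfl fun σ _ => ?_
  have h1 := coeff_prod_of_le Finset.univ (fun i => M (σ i) i) d (fun i _ => h (σ i) i)
  have h2 : (Equiv.Perm.sign σ • ∏ i, M (σ i) i).coeff (∑ l, d l)
      = Equiv.Perm.sign σ • (∏ i, M (σ i) i).coeff (∑ l, d l) := by
    rcases Int.units_eq_one_or (Equiv.Perm.sign σ) with h | h <;> simp [h]
  rw [h2, h1]
  rfl

/-- The Wronskian with respect to the Euler derivative of polynomials with distinct degrees is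
nonzero. -/
theorem wronskian_ne_zero {n : ℕ} (P : Fin n → ℤ[X]) (hP : ∀ l, P l ≠ 0)
    (hinj : Function.Injective fun l => (P l).natDegree) :
    Matrix.det (Matrix.of fun i l : Fin n => eul^[(i:ℕ)] (P l)) ≠ 0 := by
  intro h0
  have h1 := coeff_det_of_le (Matrix.of fun i l : Fin n => eul^[(i:ℕ)] (P l))
    (fun l => (P l).natDegree) (fun i l => natDegree_eul_iter_le i (P l))
  rw [h0, coeff_zero] at h1
  have h2 : (Matrix.of fun i l : Fin n =>
      ((Matrix.of fun i l : Fin n => eul^[(i:ℕ)] (P l)) i l).coeff (P l).natDegree)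
      = (Matrix.vandermonde fun l => ((P l).natDegree : ℤ)).transpose *
        Matrix.diagonal fun l => (P l).leadingCoeff := by
    ext i l
    rw [Matrix.mul_diagonal]
    simp only [Matrix.of_apply, Matrix.transpose_apply, Matrix.vandermonde_apply, coeff_eul_iter]
    rfl
  rw [h2, Matrix.det_mul, Matrix.det_transpose, Matrix.det_diagonal] at h1
  have h3 : (Matrix.vandermonde fun l => ((P l).natDegree : ℤ)).det ≠ 0 := by
    rw [Matrix.det_vandermonde_ne_zero_iff]
    intro a b hab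
    apply hinj
    have hab' : ((P a).natDegree : ℤ) = (P b).natDegree := hab
    exact_mod_cast hab'
  have h4 : ∏ l, (P l).leadingCoeff ≠ 0 := by
    rw [Finset.prod_ne_zero_iff]
    intro l _
    exact leadingCoeff_ne_zero.mpr (hP l)
  exact mul_ne_zero h3 h4 h1.symm

end Euler

/-- Zero estimate. -/
theorem zero_estimate {n R : ℕ} (hn : 0 < n) (hnR : n ≤ R + 1) (P : Fin n → ℤ[X])
    (hP : ∀ l, P l ≠ 0) (hinj : Function.Injective fun l => (P l).natDegree)
    (v : Fin n → ℝ) (hv : ∀ l, v l ≠ 0) (u : ℝ) (m : ℕ)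
    (hdiv : (X - C u) ^ m ∣ ∑ l, (P l).map (Int.castRingHom ℝ) * C (v l))
    {B : ℝ} (hB1 : 1 ≤ B)
    (hB : ∀ l, ∀ i ≤ R, ∀ z : ℂ, ‖z‖ = 1 →
      ‖((eul^[i] (P l)).map (Int.castRingHom ℂ)).eval z‖ ≤ B) :
    ∃ W : ℤ[X], W ≠ 0 ∧ (X - C u) ^ (m - R) ∣ W.map (Int.castRingHom ℝ) ∧
      ∀ z : ℂ, ‖z‖ = 1 → ‖(W.map (Int.castRingHom ℂ)).eval z‖ ≤
        (Nat.factorial (R + 1) : ℝ) * B ^ (R + 1) := by
  set M : Matrix (Fin n) (Fin n) ℤ[X] := Matrix.of fun i l : Fin n => eul^[(i:ℕ)] (P l) with hM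
  refine ⟨M.det, wronskian_ne_zero P hP hinj, ?_, ?_⟩
  · -- divisibility
    set f := Int.castRingHom ℝ
    set M' : Matrix (Fin n) (Fin n) ℝ[X] := (mapRingHom f).mapMatrix M with hM'
    have hdet : M.det.map f = M'.det := by
      rw [hM', ← RingHom.map_det]; rfl
    rw [hdet]
    set G : ℝ[X] := ∑ l, (P l).map f * C (v l) with hG
    have hMv : M'.mulVec (fun l => C (v l)) = fun i : Fin n => eul^[(i:ℕ)] G := by
      ext1 i
      rw [hG, eul_iter_sum_smul, Matrix.mulVec, dotProduct]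
      refine Finset.sum_congr rfl fun l _ => ?_
      rw [← map_eul_iter]
      rfl
    have hadj : (M'.adjugate.mulVec (fun i : Fin n => eul^[(i:ℕ)] G)) =
        M'.det • (fun l => C (v l)) := by
      rw [← hMv, Matrix.mulVec_mulVec, Matrix.adjugate_mul, Matrix.smul_mulVec, Matrix.one_mulVec]
    let l0 : Fin n := ⟨0, hn⟩
    have h1 := congrFun hadj l0
    have h2 : (X - C u) ^ (m - R) ∣ (M'.adjugate.mulVec (fun i : Fin n => eul^[(i:ℕ)] G)) l0 := by
      rw [Matrix.mulVec, dotProduct]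
      refine Finset.dvd_sum fun i _ => ?_
      refine Dvd.dvd.mul_left ?_ _
      refine (pow_dvd_pow _ ?_).trans (eul_iter_dvd hdiv i)
      have := i.2
      omega
    rw [h1, Pi.smul_apply, smul_eq_mul] at h2
    have h3 : M'.det = (M'.det * C (v l0)) * C ((v l0)⁻¹) := by
      rw [mul_assoc, ← C_mul, mul_inv_cancel₀ (hv l0), C_1, mul_one]
    rw [h3]
    exact Dvd.dvd.mul_right h2 _
  · intro z hz
    set g : ℤ[X] →+* ℂ := (evalRingHom z).comp (mapRingHom (Int.castRingHom ℂ)) with hg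
    have h1 : (M.det.map (Int.castRingHom ℂ)).eval z = g M.det := rfl
    rw [h1, RingHom.map_det]
    have h2 := Matrix.det_le (A := g.mapMatrix M) (abv := (IsAbsoluteValue.toAbsoluteValue (norm : ℂ → ℝ)))
      (x := B) (by
        intro i l
        have := hB l i (by have := i.2; omega) z hz
        exact this)
    have h3 : ‖(g.mapMatrix M).det‖ ≤ (Nat.factorial (Fintype.card (Fin n))) • B ^ (Fintype.card (Fin n)) := h2
    refine h3.trans ?_
    rw [Fintype.card_fin, nsmul_eq_mul]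
    have h4 : (Nat.factorial n : ℝ) ≤ Nat.factorial (R+1) := by
      exact_mod_cast Nat.factorial_le hnR
    have h5 : B ^ n ≤ B ^ (R+1) := pow_le_pow_right₀ hB1 hnR
    gcongr

end Pool.Agent.Hhelper82.Mc
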