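import Pool.Agent.Hhelper82.Mc.Siegel
import Pool.Agent.Hhelper82.Mc.ZeroEst

open Polynomial

namespace Pool.Agent.Hhelper82.Mc

theorem X_sub_C_pow_dvd_iff_hasse {K : Type*} [CommRing K] (u : K) (e : ℕ) (f : K[X]) :
    (X - C u) ^ e ∣ f ↔ ∀ i < e, (hasseDeriv i f).eval u = 0 := by
  rw [X_sub_C_pow_dvd_iff, ← taylor_apply, X_pow_dvd_iff]
  refine forall_congr' fun i => ?_
  rw [taylor_coeff]

theorem hasseDeriv_map' {K L : Type*} [CommRing K] [CommRing L] (f : K →+* L) (p : K[X]) (i : ℕ) :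
    hasseDeriv i (p.map f) = (hasseDeriv i p).map f := by
  ext n
  simp [hasseDeriv_coeff]

/-- The polynomial in the first variable. -/
noncomputable def G {K : Type*} [CommRing K] (R q κ : ℕ) (p : ℕ → ℕ → ℤ) (w : K) : K[X] :=
  ∑ j ∈ Finset.range (R + 1), ∑ i ∈ Finset.range (κ + 1),
    monomial (q * (R - j) + i) ((p j i : K) * w ^ j)

theorem E_eq {K : Type*} [CommRing K] (R q κ : ℕ) (p : ℕ → ℕ → ℤ) (m : ℕ) (z w : K) :
    E R q κ p m z w = (hasseDeriv m (G R q κ p w)).eval z := by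
  unfold E G
  rw [map_sum, eval_finsetSum]
  refine Finset.sum_congr rfl fun j _ => ?_
  rw [map_sum, eval_finsetSum]
  refine Finset.sum_congr rfl fun i _ => ?_
  rw [hasseDeriv_monomial, eval_monomial]
  ring

theorem natDegree_G {K : Type*} [CommRing K] {R q κ : ℕ} (hκ : κ < q) (p : ℕ → ℕ → ℤ) (w : K) :
    (G R q κ p w).natDegree ≤ q * (R + 1) := by
  unfold G
  refine natDegree_sum_le_of_forall_le _ _ fun j _ => ?_
  refine natDegree_sum_le_of_forall_le _ _ fun i hi => ?_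
  refine (natDegree_monomial_le _).trans ?_
  rw [Finset.mem_range] at hi
  have h3 : q * (R - j) ≤ q * R := Nat.mul_le_mul_left _ (Nat.sub_le _ _)
  have h5 : q * (R + 1) = q * R + q := by ring
  omega

theorem taylor_E {K : Type*} [CommRing K] {R q κ : ℕ} (hκ : κ < q) (p : ℕ → ℕ → ℤ) (m : ℕ)
    (c z w : K) :
    E R q κ p m z w = ∑ i ∈ Finset.range (q * (R + 1) + 1),
      ((i + m).choose i : K) * E R q κ p (i + m) c w * (z - c) ^ i := by
  set h := hasseDeriv m (G R q κ p w) with hh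
  have h1 : E R q κ p m z w = h.eval z := E_eq ..
  have hdeg : (taylor c h).natDegree < q * (R + 1) + 1 := by
    rw [natDegree_taylor]
    have h1 : h.natDegree ≤ (G R q κ p w).natDegree - m :=
      natDegree_hasseDeriv_le (G R q κ p w) m
    have h2 : (G R q κ p w).natDegree ≤ q * (R + 1) := natDegree_G (R := R) hκ p w
    omega
  rw [h1]
  conv_lhs => rw [← sum_taylor_eq h c]
  rw [sum_over_range' _ (by simp) _ hdeg, eval_finsetSum]
  refine Finset.sum_congr rfl fun i _ => ?_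
  rw [taylor_coeff, hh]
  have h2 : hasseDeriv i (hasseDeriv m (G R q κ p w)) =
      (i + m).choose i • hasseDeriv (i + m) (G R q κ p w) := by
    rw [← LinearMap.comp_apply, hasseDeriv_comp]; rfl
  rw [h2, E_eq]
  simp

theorem choose_bound {R q κ : ℕ} (hκ : κ < q) {i : ℕ} (hi : i < κ + 1) (j m : ℕ) :
    (((q * (R - j) + i).choose m : ℕ) : ℝ) ≤ 2 ^ (q * (R + 1)) := by
  have h : (q * (R - j) + i).choose m ≤ 2 ^ (q * (R+1)) := by
    refine (Nat.choose_le_two_pow _ _).trans (Nat.pow_le_pow_right (by norm_num) ?_)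
    have h3 : q * (R - j) ≤ q * R := Nat.mul_le_mul_left _ (Nat.sub_le _ _)
    have h5 : q * (R + 1) = q * R + q := by ring
    omega
  exact_mod_cast h

theorem two_pow_ge (n : ℕ) : (n : ℝ) + 1 ≤ 2 ^ n := by
  have h21 : n < 2 ^ n := Nat.lt_two_pow_self
  exact_mod_cast h21

/-- crude double sum bound -/
theorem double_sum_bound {K : Type*} [SeminormedAddCommGroup K] {R q κ : ℕ} (hκ : κ < q) (f : ℕ → ℕ → K)
    {B : ℝ} (hB0 : 0 ≤ B) (hf : ∀ j < R + 1, ∀ i < κ + 1, ‖f j i‖ ≤ B) :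
    ‖∑ j ∈ Finset.range (R + 1), ∑ i ∈ Finset.range (κ + 1), f j i‖ ≤ 2 ^ (R * q) * 2 ^ q * B := by
  have h1 : ‖∑ j ∈ Finset.range (R + 1), ∑ i ∈ Finset.range (κ + 1), f j i‖
      ≤ ∑ j ∈ Finset.range (R + 1), ∑ i ∈ Finset.range (κ + 1), B := by
    refine (norm_sum_le _ _).trans (Finset.sum_le_sum fun j hj => ?_)
    refine (norm_sum_le _ _).trans (Finset.sum_le_sum fun i hi => ?_)
    exact hf j (Finset.mem_range.mp hj) i (Finset.mem_range.mp hi)
  refine h1.trans ?_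
  rw [Finset.sum_const, Finset.sum_const, Finset.card_range, Finset.card_range, nsmul_eq_mul,
    nsmul_eq_mul, ← mul_assoc]
  have hq : 1 ≤ q := by omega
  have h2 : ((R + 1 : ℕ) : ℝ) ≤ 2 ^ (R * q) := by
    have := two_pow_ge R
    push_cast
    refine this.trans ?_
    exact pow_le_pow_right₀ (by norm_num) (Nat.le_mul_of_pos_right R hq)
  have h3 : ((κ + 1 : ℕ) : ℝ) ≤ 2 ^ q := by
    have := two_pow_ge q
    have h4 : ((κ + 1 : ℕ) : ℝ) ≤ (q : ℝ) + 1 := by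
      exact_mod_cast (by omega : κ + 1 ≤ q + 1)
    linarith
  gcongr

theorem E_bound {R q κ : ℕ} (hκ : κ < q) (p : ℕ → ℕ → ℤ) {C₁ M : ℝ}
    (hp : ∀ j i, |(p j i : ℝ)| ≤ C₁ ^ q) (hC : 1 ≤ C₁) (hM : 1 ≤ M) (m : ℕ) {z w : ℂ}
    (hz : ‖z‖ ≤ M) (hw : ‖w‖ ≤ M) :
    ‖E R q κ p m z w‖ ≤ (C₁ * 2 ^ (2 * R + 2) * M ^ (2 * R + 1)) ^ q := by
  unfold E
  have hq : 1 ≤ q := by omega
  refine (double_sum_bound hκ _ (B := C₁ ^ q * 2 ^ (q * (R + 1)) * M ^ (q * (2 * R + 1)))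
    (by positivity) ?_).trans ?_
  · intro j hj i hi
    rw [norm_mul, norm_mul, norm_mul, norm_pow, norm_pow, mul_assoc]
    have h1 : ‖((p j i : ℤ) : ℂ)‖ ≤ C₁ ^ q := by
      rw [Complex.norm_intCast]; exact hp j i
    have h2 : ‖(((q * (R - j) + i).choose m : ℕ) : ℂ)‖ ≤ 2 ^ (q * (R + 1)) := by
      rw [Complex.norm_natCast]; exact choose_bound hκ hi j m
    have h3 : ‖z‖ ^ (q * (R - j) + i - m) * ‖w‖ ^ j ≤ M ^ (q * (2 * R + 1)) := by
      calc ‖z‖ ^ (q * (R - j) + i - m) * ‖w‖ ^ j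
          ≤ M ^ (q * (R - j) + i - m) * M ^ j := by gcongr
        _ = M ^ (q * (R - j) + i - m + j) := by rw [pow_add]
        _ ≤ M ^ (q * (2 * R + 1)) := by
          apply pow_le_pow_right₀ hM
          have h3 : q * (R - j) ≤ q * R := Nat.mul_le_mul_left _ (Nat.sub_le _ _)
          have h4 : R ≤ q * R := Nat.le_mul_of_pos_left R hq
          have h5 : q * (2 * R + 1) = q * R + q * R + q := by ring
          omega
    gcongr
  · apply le_of_eq
    rw [mul_pow, mul_pow, ← pow_mul, ← pow_mul]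
    ring

theorem pow_sub_pow_bound {M : ℝ} (hM : 1 ≤ M) {w c : ℂ} (hw : ‖w‖ ≤ M) (hc : ‖c‖ ≤ M) (j : ℕ) :
    ‖w ^ j - c ^ j‖ ≤ j * M ^ j * ‖w - c‖ := by
  induction j with
  | zero => simp
  | succ j ih =>
    have h1 : w ^ (j + 1) - c ^ (j + 1) = w * (w ^ j - c ^ j) + (w - c) * c ^ j := by ring
    rw [h1]
    refine (norm_add_le _ _).trans ?_
    rw [norm_mul, norm_mul, norm_pow]
    have h2 : ‖c‖ ^ j ≤ M ^ j := by gcongr
    have h3 : M ^ j ≤ M ^ (j + 1) := pow_le_pow_right₀ hM (Nat.le_succ j)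
    calc ‖w‖ * ‖w ^ j - c ^ j‖ + ‖w - c‖ * ‖c‖ ^ j
        ≤ M * (j * M ^ j * ‖w - c‖) + ‖w - c‖ * M ^ (j + 1) := by
          gcongr
          exact h2.trans h3
      _ = ((j + 1 : ℕ) : ℝ) * M ^ (j + 1) * ‖w - c‖ := by push_cast; ring

theorem E_small {R q κ : ℕ} (hκ : κ < q) (p : ℕ → ℕ → ℤ) {C₁ M : ℝ}
    (hp : ∀ j i, |(p j i : ℝ)| ≤ C₁ ^ q) (hC : 1 ≤ C₁) (hM : 1 ≤ M) {m : ℕ} (hm : m ≤ q)
    {c z w : ℂ} (hE : ∀ i < q, E R q κ p i c c = 0)
    (hz : ‖z‖ ≤ M) (hw : ‖w‖ ≤ M) (hc : ‖c‖ ≤ M) (hzc : ‖z - c‖ ≤ 1) :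
    ‖E R q κ p m z w‖ ≤ (C₁ * 2 ^ (4 * R + 5) * M ^ (2 * R + 1)) ^ q *
      (‖z - c‖ ^ (q - m) + ‖w - c‖) := by
  have hq : 1 ≤ q := by omega
  have h1 : ‖E R q κ p m z w - E R q κ p m z c‖ ≤
      (C₁ * 2 ^ (4 * R + 5) * M ^ (2 * R + 1)) ^ q * ‖w - c‖ := by
    have h2 : E R q κ p m z w - E R q κ p m z c = ∑ j ∈ Finset.range (R + 1),
        ∑ i ∈ Finset.range (κ + 1), ((p j i : ℂ) * ((q * (R - j) + i).choose m : ℂ) *
          z ^ (q * (R - j) + i - m) * (w ^ j - c ^ j)) := by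
      unfold E
      rw [← Finset.sum_sub_distrib]
      refine Finset.sum_congr rfl fun j _ => ?_
      rw [← Finset.sum_sub_distrib]
      refine Finset.sum_congr rfl fun i _ => ?_
      ring
    rw [h2]
    refine (double_sum_bound hκ _ (B := C₁ ^ q * 2 ^ (q * (R + 1)) *
      (2 ^ (q * R) * M ^ (q * (2 * R + 1))) * ‖w - c‖) (by positivity) ?_).trans ?_
    · intro j hj i hi
      rw [norm_mul, norm_mul, norm_mul, norm_pow]
      have h1 : ‖((p j i : ℤ) : ℂ)‖ ≤ C₁ ^ q := by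
        rw [Complex.norm_intCast]; exact hp j i
      have h2 : ‖(((q * (R - j) + i).choose m : ℕ) : ℂ)‖ ≤ 2 ^ (q * (R + 1)) := by
        rw [Complex.norm_natCast]; exact choose_bound hκ hi j m
      have h3 := pow_sub_pow_bound hM hw hc j
      have h4 : (j : ℝ) ≤ 2 ^ (q * R) := by
        have h41 := two_pow_ge R
        have h42 : (j : ℝ) ≤ (R : ℝ) + 1 := by exact_mod_cast (by omega : j ≤ R + 1)
        refine (h42.trans h41).trans (pow_le_pow_right₀ (by norm_num) ?_)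
        exact Nat.le_mul_of_pos_left R hq
      have h5 : ‖z‖ ^ (q * (R - j) + i - m) * M ^ j ≤ M ^ (q * (2 * R + 1)) := by
        calc ‖z‖ ^ (q * (R - j) + i - m) * M ^ j
            ≤ M ^ (q * (R - j) + i - m) * M ^ j := by gcongr
          _ = M ^ (q * (R - j) + i - m + j) := by rw [pow_add]
          _ ≤ M ^ (q * (2 * R + 1)) := by
            apply pow_le_pow_right₀ hM
            have h3 : q * (R - j) ≤ q * R := Nat.mul_le_mul_left _ (Nat.sub_le _ _)
            have h4 : R ≤ q * R := Nat.le_mul_of_pos_left R hq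
            have h5 : q * (2 * R + 1) = q * R + q * R + q := by ring
            omega
      calc ‖((p j i : ℤ) : ℂ)‖ * ‖(((q * (R - j) + i).choose m : ℕ) : ℂ)‖ *
            ‖z‖ ^ (q * (R - j) + i - m) * ‖w ^ j - c ^ j‖
          ≤ C₁ ^ q * 2 ^ (q * (R + 1)) *
            ‖z‖ ^ (q * (R - j) + i - m) * (j * M ^ j * ‖w - c‖) := by gcongr
        _ = C₁ ^ q * 2 ^ (q * (R + 1)) *
            (j * (‖z‖ ^ (q * (R - j) + i - m) * M ^ j)) * ‖w - c‖ := by ring
        _ ≤ _ := by gcongr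
    · rw [← mul_assoc]
      apply mul_le_mul_of_nonneg_right _ (norm_nonneg _)
      calc _ = (C₁ * 2 ^ (3 * R + 2) * M ^ (2 * R + 1)) ^ q := by
            rw [mul_pow, mul_pow, ← pow_mul, ← pow_mul]
            ring
        _ ≤ _ := by
          gcongr
          · norm_num
          · omega
          · omega
  have h2 : ‖E R q κ p m z c‖ ≤
      (C₁ * 2 ^ (4 * R + 5) * M ^ (2 * R + 1)) ^ q * ‖z - c‖ ^ (q - m) := by
    rw [taylor_E hκ p m c z c]
    have h3 : ∀ i ∈ Finset.range (q * (R + 1) + 1),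
        ‖((i + m).choose i : ℂ) * E R q κ p (i + m) c c * (z - c) ^ i‖ ≤
        2 ^ (q * (R + 1) + q) * (C₁ * 2 ^ (2 * R + 2) * M ^ (2 * R + 1)) ^ q *
          ‖z - c‖ ^ (q - m) := by
      intro i hi
      rw [Finset.mem_range] at hi
      by_cases him : i + m < q
      · rw [hE _ him]
        simp only [mul_zero, zero_mul, norm_zero]
        positivity
      · rw [norm_mul, norm_mul, norm_pow]
        have h4 : ‖(((i + m).choose i : ℕ) : ℂ)‖ ≤ 2 ^ (q * (R + 1) + q) := by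
          rw [Complex.norm_natCast]
          have : (i + m).choose i ≤ 2 ^ (q * (R + 1) + q) :=
            (Nat.choose_le_two_pow _ _).trans (Nat.pow_le_pow_right (by norm_num) (by omega))
          exact_mod_cast this
        have h5 := E_bound (R := R) hκ p hp hC hM (i + m) hc hc
        have h6 : ‖z - c‖ ^ i ≤ ‖z - c‖ ^ (q - m) :=
          pow_le_pow_of_le_one (norm_nonneg _) hzc (by omega)
        gcongr
    refine (norm_sum_le_of_le _ h3).trans ?_
    rw [Finset.sum_const, Finset.card_range, nsmul_eq_mul, ← mul_assoc]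
    apply mul_le_mul_of_nonneg_right _ (by positivity)
    have h7 := two_pow_ge (q * (R + 1))
    calc ((q * (R + 1) + 1 : ℕ) : ℝ) * (2 ^ (q * (R + 1) + q) * (C₁ * 2 ^ (2 * R + 2) * M ^ (2 * R + 1)) ^ q)
        ≤ 2 ^ (q * (R + 1)) * (2 ^ (q * (R + 1) + q) * (C₁ * 2 ^ (2 * R + 2) * M ^ (2 * R + 1)) ^ q) := by
          gcongr
          push_cast at h7 ⊢
          exact h7
      _ = (C₁ * 2 ^ (4 * R + 5) * M ^ (2 * R + 1)) ^ q := by
          rw [mul_pow, mul_pow, mul_pow, mul_pow, ← pow_mul, ← pow_mul, ← pow_mul]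
          ring
  calc ‖E R q κ p m z w‖ = ‖(E R q κ p m z w - E R q κ p m z c) + E R q κ p m z c‖ := by
        rw [sub_add_cancel]
    _ ≤ _ := norm_add_le _ _
    _ ≤ _ := add_le_add h1 h2
    _ = _ := by ring

/-- homogenised version of `E`. -/
noncomputable def Hm {K : Type*} [CommRing K] (R q κ : ℕ) (p : ℕ → ℕ → ℤ) (m : ℕ)
    (X₁ X₂ Y₁ Y₂ : K) : K :=
  ∑ j ∈ Finset.range (R + 1), ∑ i ∈ Finset.range (κ + 1),
    (p j i : K) * ((q * (R - j) + i).choose m : K) *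
      (X₁ ^ (q * (R - j) + i - m) * X₂ ^ (q * j + (κ - i)) * Y₁ ^ j * Y₂ ^ (R - j))

theorem Hm_eq {K : Type*} [Field K] (R q κ : ℕ) (p : ℕ → ℕ → ℤ) (m : ℕ)
    (X₁ X₂ Y₁ Y₂ : K) (hX : X₂ ≠ 0) (hY : Y₂ ≠ 0) :
    Hm R q κ p m X₁ X₂ Y₁ Y₂ =
      X₂ ^ (q * R + κ - m) * Y₂ ^ R * E R q κ p m (X₁ / X₂) (Y₁ / Y₂) := by
  unfold Hm E
  rw [Finset.mul_sum]
  refine Finset.sum_congr rfl fun j hj => ?_
  rw [Finset.mul_sum]
  refine Finset.sum_congr rfl fun i hi => ?_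
  rw [Finset.mem_range] at hj hi
  by_cases hm : q * (R - j) + i < m
  · rw [Nat.choose_eq_zero_of_lt hm]; simp
  · have h1 : q * R = q * (R - j) + q * j := by
      rw [← mul_add]; congr 1; omega
    have h2 : q * R + κ - m = (q * (R - j) + i - m) + (q * j + (κ - i)) := by omega
    have h3 : R = (R - j) + j := by omega
    have h4 : X₂ ^ (q * R + κ - m) * (X₁ / X₂) ^ (q * (R - j) + i - m) =
        X₁ ^ (q * (R - j) + i - m) * X₂ ^ (q * j + (κ - i)) := by
      rw [h2, pow_add, div_pow]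
      field_simp
    have h5 : Y₂ ^ R * (Y₁ / Y₂) ^ j = Y₁ ^ j * Y₂ ^ (R - j) := by
      conv_lhs => rw [h3, pow_add, div_pow]
      have : R - j + j - j = R - j := by omega
      field_simp
    calc _ = (p j i : K) * ((q * (R - j) + i).choose m : K) *
          ((X₁ ^ (q * (R - j) + i - m) * X₂ ^ (q * j + (κ - i))) * (Y₁ ^ j * Y₂ ^ (R - j))) := by ring
      _ = _ := by rw [← h4, ← h5]; ring

end Pool.Agent.Hhelper82.Mc
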