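import Mathlib

namespace Pool.Agent.Hhelper82.Mc

section

variable {K : Type*} [CommRing K]

/-- The linear form `u + v t + w t²`. -/
def lf (t u v w : K) : K := u + v * t + w * t ^ 2

/-- The generator of the Galois group on the roots of `t³ - 3t + 1`. -/
def sh (t : K) : K := t ^ 2 - 2

/-- The norm form. -/
def Nf (u v w : K) : K :=
  u^3 + 6*u^2*w - 3*u*v^2 + 3*u*v*w + 9*u*w^2 - v^3 + 3*v*w^2 + w^3

/-- The form `x₀³x₁ + x₁³x₂ + x₂³x₀` in the conjugates. -/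
def Kf (u v w : K) : K :=
  3*u^4 + 24*u^3*w + 9*u^2*v^2 - 9*u^2*v*w + 81*u^2*w^2 + 15*u*v^3 + 27*u*v^2*w - 72*u*v*w^2
    + 147*u*w^3 - 9*v^4 + 48*v^3*w - 9*v^2*w^2 - 90*v*w^3 + 105*w^4

theorem sh_root {t : K} (ht : t ^ 3 = 3 * t - 1) : sh t ^ 3 = 3 * sh t - 1 := by
  unfold sh
  linear_combination (t ^ 3 - 3 * t - 1) * ht

theorem sh_sh {t : K} (ht : t ^ 3 = 3 * t - 1) : sh (sh t) = 2 - t - t ^ 2 := by
  unfold sh
  linear_combination t * ht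

theorem sh_sh_sh {t : K} (ht : t ^ 3 = 3 * t - 1) : sh (sh (sh t)) = t := by
  rw [sh_sh ht]
  unfold sh
  linear_combination (t + 2) * ht

theorem lf_sh {t : K} (ht : t ^ 3 = 3 * t - 1) (u v w : K) :
    lf (sh t) u v w = lf t (u - 2 * v + 4 * w) (-w) (v - w) := by
  unfold lf sh
  linear_combination t * w * ht

theorem lf_sh2 {t : K} (ht : t ^ 3 = 3 * t - 1) (u v w : K) :
    lf (sh (sh t)) u v w = lf t (u + 2 * v + 2 * w) (w - v) (-v) := by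
  rw [sh_sh ht]
  unfold lf
  linear_combination (t * w + 2 * w) * ht

theorem Nf_eq {t : K} (ht : t ^ 3 = 3 * t - 1) (u v w : K) :
    lf t u v w * lf (sh t) u v w * lf (sh (sh t)) u v w = Nf u v w := by
  rw [lf_sh2 ht, lf_sh ht]
  unfold lf Nf
  linear_combination (-t^3*v^2*w + t^3*v*w^2 - t^2*v^3 + 3*t^2*v*w^2 - t^2*w^3 - t*u*v^2 + t*u*v*w
    - t*u*w^2 - t*v^3 + 4*t*v^2*w - t*v*w^2 - 3*t*w^3 - u*v^2 + u*v*w - u*w^2 + v^3 - 3*v*w^2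
    - w^3) * ht

theorem Kf_eq {t : K} (ht : t ^ 3 = 3 * t - 1) (u v w : K) :
    lf t u v w ^ 3 * lf (sh t) u v w + lf (sh t) u v w ^ 3 * lf (sh (sh t)) u v w +
      lf (sh (sh t)) u v w ^ 3 * lf t u v w = Kf u v w := by
  rw [lf_sh2 ht, lf_sh ht]
  unfold lf Kf
  linear_combination (-t^5*v^4 + 2*t^5*v^3*w - 3*t^5*v^2*w^2 + 2*t^5*v*w^3 - t^5*w^4 - 2*t^4*v^4
    + 4*t^4*v^3*w - 6*t^4*v^2*w^2 + 4*t^4*v*w^3 - 2*t^4*w^4 - 3*t^3*u*v^3 + 6*t^3*u*v^2*w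
    + 3*t^3*u*v*w^2 - 3*t^3*u*w^3 + 2*t^3*v^4 - 10*t^3*v^3*w + 18*t^3*v^2*w^2 + 2*t^3*v*w^3
    - 4*t^3*w^4 - 3*t^2*u*v^3 + 27*t^2*u*v^2*w - 18*t^2*u*v*w^2 - 3*t^2*u*w^3 + 5*t^2*v^4
    - 16*t^2*v^3*w + 69*t^2*v^2*w^2 - 46*t^2*v*w^3 - t^2*w^4 + 3*t*u^2*v^2 - 3*t*u^2*v*w
    + 3*t*u^2*w^2 + 15*t*u*v^3 + 3*t*u*v^2*w - 48*t*u*v*w^2 + 27*t*u*w^3 - 5*t*v^4 + 40*t*v^3*w
    - 21*t*v^2*w^2 - 74*t*v*w^3 + 37*t*w^4 + 3*u^2*v^2 - 3*u^2*v*w + 3*u^2*w^2 + 9*u*v^3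
    - 27*u*v^2*w + 21*u*w^3 - 7*v^4 + 32*v^3*w - 87*v^2*w^2 + 26*v*w^3 + 23*w^4) * ht

end

theorem Nf_int_eq_zero : ∀ u v w : ℤ, Nf u v w = 0 → u = 0 ∧ v = 0 ∧ w = 0 := by
  have key : ∀ n : ℕ, ∀ u v w : ℤ, u.natAbs + v.natAbs + w.natAbs ≤ n → Nf u v w = 0 →
      u = 0 ∧ v = 0 ∧ w = 0 := by
    intro n
    induction n using Nat.strong_induction_on with
    | _ n ih =>
      intro u v w hn hN
      have hmod : ∀ a b c : ZMod 2, Nf a b c = 0 → a = 0 ∧ b = 0 ∧ c = 0 := by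
        unfold Nf; decide
      have hcast : Nf (u : ZMod 2) (v : ZMod 2) (w : ZMod 2) = 0 := by
        have h := congrArg (Int.cast : ℤ → ZMod 2) hN
        unfold Nf at h ⊢
        push_cast at h
        exact h
      obtain ⟨h1, h2, h3⟩ := hmod _ _ _ hcast
      rw [ZMod.intCast_zmod_eq_zero_iff_dvd] at h1 h2 h3
      obtain ⟨u', rfl⟩ := h1
      obtain ⟨v', rfl⟩ := h2
      obtain ⟨w', rfl⟩ := h3
      by_cases hz : u' = 0 ∧ v' = 0 ∧ w' = 0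
      · obtain ⟨rfl, rfl, rfl⟩ := hz
        simp
      · have hN' : Nf u' v' w' = 0 := by
          unfold Nf at hN ⊢
          push_cast at hN
          have : (8:ℤ) * (u'^3 + 6*u'^2*w' - 3*u'*v'^2 + 3*u'*v'*w' + 9*u'*w'^2 - v'^3 + 3*v'*w'^2
            + w'^3) = 0 := by linear_combination hN
          simpa using this
        have hlt : u'.natAbs + v'.natAbs + w'.natAbs < n := by
          push_cast at hn
          omega
        have := ih _ hlt u' v' w' le_rfl hN'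
        exact absurd this hz
  intro u v w h
  exact key _ u v w le_rfl h

/-- the conjugate vector of an integral element -/
def vec (t : ℝ) (a : Fin 3 → ℤ) : Fin 3 → ℝ :=
  ![lf t (a 0) (a 1) (a 2), lf (sh t) (a 0) (a 1) (a 2), lf (sh (sh t)) (a 0) (a 1) (a 2)]

theorem vec_ext {t : ℝ} (ht : t ^ 3 = 3 * t - 1) {x : Fin 3 → ℝ} {a : Fin 3 → ℤ}
    (h : ∀ s : ℝ, s ^ 3 = 3 * s - 1 → ∀ k : Fin 3, (k = 0 → s = t) → (k = 1 → s = sh t) →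
      (k = 2 → s = sh (sh t)) → x k = lf s (a 0) (a 1) (a 2)) : x = vec t a := by
  ext k
  fin_cases k
  · exact h t ht 0 (fun _ => rfl) (by simp) (by simp)
  · exact h (sh t) (sh_root ht) 1 (by simp) (fun _ => rfl) (by simp)
  · exact h (sh (sh t)) (sh_root (sh_root ht)) 2 (by simp) (by simp) (fun _ => rfl)

theorem lf_mul {t : ℝ} (ht : t ^ 3 = 3 * t - 1) (a0 a1 a2 b0 b1 b2 : ℝ) :
    lf t a0 a1 a2 * lf t b0 b1 b2 =
      lf t (a0 * b0 - (a1 * b2 + a2 * b1))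
        (a0 * b1 + a1 * b0 + 3 * (a1 * b2 + a2 * b1) - a2 * b2)
        (a0 * b2 + a1 * b1 + a2 * b0 + 3 * a2 * b2) := by
  unfold lf
  linear_combination ((a1 * b2 + a2 * b1) + a2 * b2 * t) * ht

/-- The ring of integers, as a subring of `ℝ³`. -/
def SS (t : ℝ) (ht : t ^ 3 = 3 * t - 1) : Subring (Fin 3 → ℝ) where
  carrier := {x | ∃ a : Fin 3 → ℤ, x = vec t a}
  mul_mem' := by
    rintro _ _ ⟨a, rfl⟩ ⟨b, rfl⟩
    refine ⟨![a 0 * b 0 - (a 1 * b 2 + a 2 * b 1),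
      a 0 * b 1 + a 1 * b 0 + 3 * (a 1 * b 2 + a 2 * b 1) - a 2 * b 2,
      a 0 * b 2 + a 1 * b 1 + a 2 * b 0 + 3 * a 2 * b 2], ?_⟩
    ext k
    fin_cases k
    · simp [vec, lf_mul ht]
    · simp [vec, lf_mul (sh_root ht)]
    · simp [vec, lf_mul (sh_root (sh_root ht))]
  one_mem' := by
    refine ⟨![1, 0, 0], ?_⟩
    ext k
    fin_cases k <;> simp [vec, lf]
  add_mem' := by
    rintro _ _ ⟨a, rfl⟩ ⟨b, rfl⟩
    refine ⟨a + b, ?_⟩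
    ext k
    fin_cases k <;> simp [vec, lf] <;> ring
  zero_mem' := by
    refine ⟨0, ?_⟩
    ext k
    fin_cases k <;> simp [vec, lf]
  neg_mem' := by
    rintro _ ⟨a, rfl⟩
    refine ⟨-a, ?_⟩
    ext k
    fin_cases k <;> simp [vec, lf] <;> ring

theorem mem_SS {t : ℝ} (ht : t ^ 3 = 3 * t - 1) (a : Fin 3 → ℤ) : vec t a ∈ SS t ht := ⟨a, rfl⟩

theorem vec_shift {t : ℝ} (ht : t ^ 3 = 3 * t - 1) (a : Fin 3 → ℤ) :
    (fun k => vec t a (k + 1)) = vec t ![a 0 - 2 * a 1 + 4 * a 2, - a 2, a 1 - a 2] := by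
  ext k
  fin_cases k
  · simp [vec, lf_sh ht]
  · simp [vec, lf_sh (sh_root ht)]
  · have h1 : lf (sh (sh (sh t))) (a 0 : ℝ) (a 1) (a 2) = lf t (a 0) (a 1) (a 2) := by
      rw [sh_sh_sh ht]
    have h2 := lf_sh (sh_root (sh_root ht)) (a 0 : ℝ) (a 1) (a 2)
    rw [h1] at h2
    simp [vec, h2]

theorem SS_shift {t : ℝ} (ht : t ^ 3 = 3 * t - 1) :
    ∀ x ∈ SS t ht, (fun k => x (k + 1)) ∈ SS t ht := by
  rintro _ ⟨a, rfl⟩
  exact ⟨_, vec_shift ht a⟩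

theorem vec_prod {t : ℝ} (ht : t ^ 3 = 3 * t - 1) (a : Fin 3 → ℤ) :
    vec t a 0 * vec t a 1 * vec t a 2 = ((Nf (a 0) (a 1) (a 2) : ℤ) : ℝ) := by
  have h := Nf_eq ht (a 0 : ℝ) (a 1) (a 2)
  simp only [vec, Matrix.cons_val_zero, Matrix.cons_val_one, Matrix.cons_val]
  rw [h]
  unfold Nf
  push_cast
  ring

theorem SS_norm {t : ℝ} (ht : t ^ 3 = 3 * t - 1) :
    ∀ x ∈ SS t ht, x ≠ 0 → 1 ≤ |x 0 * x 1 * x 2| := by
  rintro _ ⟨a, rfl⟩ hne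
  rw [vec_prod ht]
  have h0 : Nf (a 0) (a 1) (a 2) ≠ 0 := by
    intro h
    obtain ⟨h1, h2, h3⟩ := Nf_int_eq_zero _ _ _ h
    apply hne
    ext k
    fin_cases k <;> simp [vec, lf, h1, h2, h3]
  have h1 : (1 : ℤ) ≤ |Nf (a 0) (a 1) (a 2)| := Int.one_le_abs h0
  exact_mod_cast h1

theorem vec_ne_zero {t : ℝ} (ht : t ^ 3 = 3 * t - 1) {a : Fin 3 → ℤ} (ha : a ≠ 0) :
    vec t a ≠ 0 := by
  intro h
  have h1 := vec_prod ht a
  rw [h] at h1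
  simp only [Pi.zero_apply, mul_zero] at h1
  have h2 : Nf (a 0) (a 1) (a 2) = 0 := by exact_mod_cast h1.symm
  obtain ⟨h1, h2, h3⟩ := Nf_int_eq_zero _ _ _ h2
  apply ha
  ext k
  fin_cases k <;> simp [h1, h2, h3]

end Pool.Agent.Hhelper82.Mc
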