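import Pool.Agent.Hhelper82.Mc.ThueMain
import Pool.Agent.Hhelper82.Mc.Cubic

open Polynomial

namespace Pool.Agent.Hhelper82.Mc

theorem thue_finset (S : Subring (Fin 3 → ℝ)) (hshift : ∀ x ∈ S, (fun k => x (k + 1)) ∈ S)
    (hnorm : ∀ x ∈ S, x ≠ 0 → 1 ≤ |x 0 * x 1 * x 2|) (δ : ℝ) (hδ : 0 < δ) (s : Finset ℂ)
    (hs : ∀ c ∈ s, IsAlgebraic ℤ c) :
    ∃ ε : ℝ, 0 < ε ∧ ∃ T₀ : ℝ, ∀ ε', 0 < ε' → ε' ≤ ε → ∀ T, T₀ ≤ T → ∀ x ∈ S, x ≠ 0 →
      |x 0| ≤ Real.exp (-((2 - ε') * T)) → |x 1| ≤ Real.exp T → |x 2| ≤ Real.exp T →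
      ∀ c ∈ s, Real.exp (-(δ * T)) < ‖((x 1 / x 2 : ℝ) : ℂ) - c‖ := by
  classical
  induction s using Finset.induction_on with
  | empty => exact ⟨1, one_pos, 0, fun _ _ _ _ _ _ _ _ _ _ _ c hc => by simp at hc⟩
  | insert c s hc ih =>
    obtain ⟨ε₁, hε₁, T₁, h₁⟩ := ih (fun c' hc' => hs c' (Finset.mem_insert_of_mem hc'))
    obtain ⟨ε₂, hε₂, T₂, h₂⟩ := thue S hshift hnorm c (hs c (Finset.mem_insert_self _ _)) δ hδ
    refine ⟨min ε₁ ε₂, lt_min hε₁ hε₂, max (max T₁ T₂) 0, ?_⟩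
    intro ε' hε' hε'' T hT x hx hx0 h0 h1 h2 c' hc'
    have hT1 : T₁ ≤ T := (le_max_left _ _).trans ((le_max_left _ _).trans hT)
    have hT2 : T₂ ≤ T := (le_max_right _ _).trans ((le_max_left _ _).trans hT)
    have hT0 : 0 ≤ T := (le_max_right _ _).trans hT
    rcases Finset.mem_insert.mp hc' with rfl | hc''
    · refine h₂ T hT2 x hx hx0 (h0.trans (Real.exp_le_exp.mpr ?_)) h1 h2
      have h3 : ε' ≤ ε₂ := hε''.trans (min_le_right _ _)
      nlinarith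
    · exact h₁ ε' hε' (hε''.trans (min_le_left _ _)) T hT1 x hx hx0 h0 h1 h2 c' hc''

theorem pow_card_le_prod_multiset (m : Multiset ℝ) {b : ℝ} (hb : 0 ≤ b) (h : ∀ x ∈ m, b ≤ x) :
    b ^ (Multiset.card m) ≤ m.prod := by
  induction m using Multiset.induction_on with
  | empty => simp
  | cons a m ih =>
    rw [Multiset.card_cons, Multiset.prod_cons, pow_succ, mul_comm]
    have h1 := ih (fun x hx => h x (Multiset.mem_cons_of_mem hx))
    have h2 := h a (Multiset.mem_cons_self a m)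
    have h3 : 0 ≤ b ^ (Multiset.card m) := by positivity
    nlinarith

theorem eval_ge_of_roots (φ : ℂ[X]) (U : ℂ) {b : ℝ} (hb : 0 ≤ b)
    (h : ∀ c ∈ φ.roots, b ≤ ‖U - c‖) : ‖φ.leadingCoeff‖ * b ^ φ.natDegree ≤ ‖φ.eval U‖ := by
  have hsp : φ.Splits := IsAlgClosed.splits φ
  have h1 := hsp.eq_prod_roots
  have hcard : Multiset.card φ.roots = φ.natDegree := hsp.natDegree_eq_card_roots.symm
  have h2 : ‖φ.eval U‖ = ‖φ.leadingCoeff‖ * (φ.roots.map (fun c => ‖U - c‖)).prod := by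
    conv_lhs => rw [h1]
    rw [eval_mul, eval_C, norm_mul, eval_multiset_prod, Multiset.map_map]
    congr 1
    have h3 : ‖(Multiset.map ((fun p => eval U p) ∘ fun x => X - C x) φ.roots).prod‖ =
      (Multiset.map (fun p => ‖p‖) (Multiset.map ((fun p => eval U p) ∘ fun x => X - C x) φ.roots)).prod := by
      exact (map_multiset_prod (normHom : ℂ →*₀ ℝ) _)
    rw [h3, Multiset.map_map]
    congr 1
    apply Multiset.map_congr rfl
    intro c _
    simp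
  rw [h2, ← hcard]
  apply mul_le_mul_of_nonneg_left _ (norm_nonneg _)
  have h4 := pow_card_le_prod_multiset (φ.roots.map (fun c => ‖U - c‖)) hb (by
    intro x hx
    rw [Multiset.mem_map] at hx
    obtain ⟨c, hc, rfl⟩ := hx
    exact h c hc)
  rwa [Multiset.card_map] at h4

theorem eval_bound_one (f : ℂ[X]) : ∃ C : ℝ, 0 ≤ C ∧ ∃ N : ℕ, ∀ U : ℂ,
    ‖f.eval U‖ ≤ C * (max 1 ‖U‖) ^ N := by
  induction f using Polynomial.induction_on' with
  | add p q hp hq =>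
    obtain ⟨C, hC, N, h⟩ := hp
    obtain ⟨C', hC', N', h'⟩ := hq
    refine ⟨C + C', by positivity, max N N', fun U => ?_⟩
    rw [eval_add]
    refine (norm_add_le _ _).trans ?_
    have h1 : (1:ℝ) ≤ max 1 ‖U‖ := le_max_left _ _
    calc ‖p.eval U‖ + ‖q.eval U‖ ≤ C * (max 1 ‖U‖) ^ N + C' * (max 1 ‖U‖) ^ N' :=
          add_le_add (h U) (h' U)
      _ ≤ C * (max 1 ‖U‖) ^ (max N N') + C' * (max 1 ‖U‖) ^ (max N N') := by
          gcongr
          · exact le_max_left _ _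
          · exact le_max_right _ _
      _ = _ := by ring
  | monomial n a =>
    refine ⟨‖a‖, norm_nonneg _, n, fun U => ?_⟩
    rw [eval_monomial, norm_mul, norm_pow]
    gcongr
    exact le_max_right _ _

/-- evaluation of a two-variable polynomial, outer variable at `z`, inner at `U`. -/
noncomputable def ev (z U : ℂ) : ℂ[X][X] →+* ℂ := (evalRingHom z).comp (mapRingHom (evalRingHom U))

theorem ev_X (z U : ℂ) : ev z U X = z := by simp [ev]

theorem ev_C (z U : ℂ) (f : ℂ[X]) : ev z U (C f) = f.eval U := by simp [ev]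

theorem ev_monomial (z U : ℂ) (n : ℕ) (f : ℂ[X]) : ev z U (monomial n f) = f.eval U * z ^ n := by
  simp [ev]

theorem eval_bound_two (H : ℂ[X][X]) : ∃ C : ℝ, 0 ≤ C ∧ ∃ N : ℕ, ∀ z U : ℂ, ‖z‖ ≤ 1 →
    ‖ev z U H‖ ≤ C * (max 1 ‖U‖) ^ N := by
  induction H using Polynomial.induction_on' with
  | add p q hp hq =>
    obtain ⟨C, hC, N, h⟩ := hp
    obtain ⟨C', hC', N', h'⟩ := hq
    refine ⟨C + C', by positivity, max N N', fun z U hz => ?_⟩
    rw [map_add]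
    refine (norm_add_le _ _).trans ?_
    have h1 : (1:ℝ) ≤ max 1 ‖U‖ := le_max_left _ _
    calc _ ≤ C * (max 1 ‖U‖) ^ N + C' * (max 1 ‖U‖) ^ N' :=
          add_le_add (h z U hz) (h' z U hz)
      _ ≤ C * (max 1 ‖U‖) ^ (max N N') + C' * (max 1 ‖U‖) ^ (max N N') := by
          gcongr
          · exact le_max_left _ _
          · exact le_max_right _ _
      _ = _ := by ring
  | monomial n a =>
    obtain ⟨C, hC, N, h⟩ := eval_bound_one a
    refine ⟨C, hC, N, fun z U hz => ?_⟩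
    rw [ev_monomial, norm_mul, norm_pow]
    have h1 : ‖z‖ ^ n ≤ 1 := pow_le_one₀ (norm_nonneg _) hz
    calc ‖a.eval U‖ * ‖z‖ ^ n ≤ (C * (max 1 ‖U‖) ^ N) * 1 := by
          gcongr
          exact h U
      _ = _ := by ring

theorem aeval_smul_homog {K : Type*} [CommRing K] [Algebra ℚ K] {σ : Type*} [Fintype σ]
    (G : MvPolynomial σ ℚ) {d : ℕ}
    (hd : G.IsHomogeneous d) (c : K) (v : σ → K) :
    MvPolynomial.aeval (fun i => c * v i) G = c ^ d * MvPolynomial.aeval v G := by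
  rw [MvPolynomial.aeval_def, MvPolynomial.aeval_def, MvPolynomial.eval₂_eq',
    MvPolynomial.eval₂_eq', Finset.mul_sum]
  refine Finset.sum_congr rfl fun e he => ?_
  have h1 : e.degree = d := (hd.degree_eq_sum_deg_support he).symm
  have h2 : ∏ i, (c * v i) ^ e i = c ^ d * ∏ i, v i ^ e i := by
    simp_rw [mul_pow]
    rw [Finset.prod_mul_distrib, Finset.prod_pow_eq_pow_sum]
    congr 2
    rw [← h1, Finsupp.degree_eq_sum]
  rw [h2]
  ring

/-- coefficients of the inverse of the conjugation matrix -/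
def dl {K : Type*} [Field K] (s : K) : Fin 3 → K :=
  ![(11 - 2 * s - 4 * s ^ 2) / 9, (-2 + 2 * s + s ^ 2) / 9, (-4 + s + 2 * s ^ 2) / 9]

theorem inv_formula {K : Type*} [Field K] [CharZero K] {t : K} (ht : t ^ 3 = 3 * t - 1)
    (a : Fin 3 → K) (i : Fin 3) :
    dl t i * lf t (a 0) (a 1) (a 2) + dl (sh t) i * lf (sh t) (a 0) (a 1) (a 2) +
      dl (sh (sh t)) i * lf (sh (sh t)) (a 0) (a 1) (a 2) = a i := by
  have h1 : sh t ^ 2 = 4 - t - t ^ 2 := by
    unfold sh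
    linear_combination t * ht
  have h2 : sh (sh t) ^ 2 = 2 + t := by
    rw [sh_sh ht]
    linear_combination (t + 2) * ht
  have h9 : (9 : K) ≠ 0 := by norm_num
  fin_cases i
  · simp only [dl, Fin.zero_eta, Matrix.cons_val_zero]
    rw [lf_sh2 ht, lf_sh ht, h1, h2, sh_sh ht]
    unfold lf sh
    field_simp
    linear_combination (-6 * t * a 2 - 6 * a 2) * ht
  · simp only [dl, Fin.mk_one, Matrix.cons_val_one, Matrix.cons_val_zero]
    rw [lf_sh2 ht, lf_sh ht, h1, h2, sh_sh ht]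
    unfold lf sh
    field_simp
    linear_combination (3 * t * a 1 + 3 * a 1) * ht
  · simp only [dl, Fin.reduceFinMk, Matrix.cons_val]
    rw [lf_sh2 ht, lf_sh ht, h1, h2, sh_sh ht]
    unfold lf sh
    field_simp
    linear_combination (3 * t * a 2 + 3 * a 2) * ht

theorem dl_map {K L : Type*} [Field K] [Field L] (f : K →+* L) (s : K) (i : Fin 3) :
    f (dl s i) = dl (f s) i := by
  fin_cases i <;> simp [dl, map_ofNat]

theorem sh_map {K L : Type*} [CommRing K] [CommRing L] (f : K →+* L) (s : K) :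
    f (sh s) = sh (f s) := by
  simp [sh, map_ofNat]

theorem exists_int_eval_ne_zero (G : MvPolynomial (Fin 3) ℚ) (hG : G ≠ 0) :
    ∃ a : Fin 3 → ℤ, a ≠ 0 ∧ MvPolynomial.aeval (fun i => (a i : ℚ)) G ≠ 0 := by
  by_contra hcon
  push Not at hcon
  apply hG
  have hinf : (Set.range (fun n : ℕ => ((n : ℚ) + 1))).Infinite := by
    apply Set.infinite_range_of_injective
    intro a b hab
    have : (a : ℚ) + 1 = b + 1 := hab
    exact_mod_cast add_right_cancel this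
  apply MvPolynomial.funext_set (fun _ : Fin 3 => Set.range (fun n : ℕ => ((n : ℚ) + 1)))
    (fun _ => hinf)
  intro x hx
  have h1 : ∀ i, ∃ n : ℕ, (n : ℚ) + 1 = x i := fun i => hx i (Set.mem_univ i)
  choose n hn using h1
  have h2 := hcon (fun i => (n i : ℤ) + 1) (by
    intro h0
    have := congrFun h0 0
    simp only [Pi.zero_apply] at this
    omega)
  have h3 : (fun i => (((n i : ℤ) + 1 : ℤ) : ℚ)) = x := by
    ext i
    rw [← hn i]
    push_cast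
    ring
  rw [h3] at h2
  have h4 : MvPolynomial.eval x G = MvPolynomial.aeval x G := by
    rw [← MvPolynomial.coe_aeval_eq_eval]; rfl
  rw [h4, h2]
  simp

theorem curve_lemma {t : ℝ} (ht : t ^ 3 = 3 * t - 1) (G : MvPolynomial (Fin 3) ℚ) (hG : G ≠ 0)
    {d : ℕ} (hd : G.IsHomogeneous d) :
    ∃ ε : ℝ, 0 < ε ∧ ∃ T₀ : ℝ, ∀ ε', 0 < ε' → ε' ≤ ε → ∀ T, T₀ ≤ T → ∀ a : Fin 3 → ℤ, a ≠ 0 →
      |vec t a 0| ≤ Real.exp (-((2 - ε') * T)) → |vec t a 1| ≤ Real.exp T →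
      |vec t a 2| ≤ Real.exp T → MvPolynomial.aeval (fun i => (a i : ℚ)) G ≠ 0 := by
  classical
  set A := algebraicClosure ℚ ℂ with hA
  have hAc : IsAlgClosure ℚ A := algebraicClosure.isAlgClosure ℚ ℂ
  have : IsAlgClosed A := hAc.isAlgClosed
  have htC : ((t : ℝ) : ℂ) ^ 3 = 3 * ((t : ℝ) : ℂ) - 1 := by exact_mod_cast congrArg (Complex.ofReal) ht
  have hθ : ((t : ℝ) : ℂ) ∈ A := by
    rw [hA, mem_algebraicClosure_iff]
    refine ⟨X ^ 3 - C 3 * X + C 1, ?_, ?_⟩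
    · intro h0
      have h1 := congrArg (fun p : ℚ[X] => p.coeff 3) h0
      simp [coeff_one] at h1
    · simp only [map_add, map_sub, map_mul, map_pow, aeval_X, aeval_C]
      rw [htC]
      simp
  let θ : A := ⟨(t : ℂ), hθ⟩
  let ι : A →+* ℂ := algebraMap A ℂ
  have hιθ : ι θ = (t : ℂ) := rfl
  let α : Fin 3 → Fin 3 → A := ![dl θ, dl (sh θ), dl (sh (sh θ))]
  have hα0 : ∀ i, ι (α 0 i) = dl (t : ℂ) i := by
    intro i
    show ι (dl θ i) = _
    rw [dl_map, hιθ]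
  have hα1 : ∀ i, ι (α 1 i) = dl (sh (t : ℂ)) i := by
    intro i
    show ι (dl (sh θ) i) = _
    rw [dl_map, sh_map, hιθ]
  have hα2 : ∀ i, ι (α 2 i) = dl (sh (sh (t : ℂ))) i := by
    intro i
    show ι (dl (sh (sh θ)) i) = _
    rw [dl_map, sh_map, sh_map, hιθ]
  let gq : Fin 3 → A[X][X] := fun i => C (C (α 0 i)) * X + C (C (α 1 i) * X + C (α 2 i))
  set Q : A[X][X] := MvPolynomial.aeval gq G with hQ
  let mm : A[X][X] →+* ℂ[X][X] := mapRingHom (mapRingHom ι)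
  have key : ∀ a : Fin 3 → ℤ, vec t a 2 ≠ 0 →
      ev ((vec t a 0 / vec t a 2 : ℝ) : ℂ) ((vec t a 1 / vec t a 2 : ℝ) : ℂ) (mm Q) =
        (1 / ((vec t a 2 : ℝ) : ℂ)) ^ d *
          ((MvPolynomial.aeval (fun i => (a i : ℚ)) G : ℚ) : ℂ) := by
    intro a ha
    set z : ℂ := ((vec t a 0 / vec t a 2 : ℝ) : ℂ) with hz
    set U : ℂ := ((vec t a 1 / vec t a 2 : ℝ) : ℂ) with hU
    have ha' : ((vec t a 2 : ℝ) : ℂ) ≠ 0 := by exact_mod_cast ha
    have h1 : ev z U (mm Q) = MvPolynomial.aeval (fun i => ev z U (mm (gq i))) G := by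
      have h2 := MvPolynomial.map_aeval gq ((ev z U).comp mm) G
      rw [RingHom.comp_apply] at h2
      rw [h2]
      have h3 : ((ev z U).comp mm).comp (algebraMap ℚ A[X][X]) = algebraMap ℚ ℂ :=
        RingHom.ext_rat _ _
      rw [h3]
      rfl
    have h4 : ∀ i, ev z U (mm (gq i)) = (1 / ((vec t a 2 : ℝ) : ℂ)) * ((a i : ℤ) : ℂ) := by
      intro i
      have h5 : ev z U (mm (gq i)) = ι (α 0 i) * z + (ι (α 1 i) * U + ι (α 2 i)) := by
        simp [mm, gq, ev]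
      have h6 := inv_formula htC (fun i => ((a i : ℤ) : ℂ)) i
      have h7 : ((vec t a 0 : ℝ) : ℂ) = lf (t : ℂ) ((a 0 : ℤ) : ℂ) ((a 1 : ℤ) : ℂ) ((a 2 : ℤ) : ℂ) := by
        simp [vec, lf]
      have h8 : ((vec t a 1 : ℝ) : ℂ) = lf (sh (t : ℂ)) ((a 0 : ℤ) : ℂ) ((a 1 : ℤ) : ℂ) ((a 2 : ℤ) : ℂ) := by
        simp [vec, lf, sh]
      have h9 : ((vec t a 2 : ℝ) : ℂ) = lf (sh (sh (t : ℂ))) ((a 0 : ℤ) : ℂ) ((a 1 : ℤ) : ℂ) ((a 2 : ℤ) : ℂ) := by
        simp [vec, lf, sh]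
      rw [h5, hα0, hα1, hα2, ← h6, hz, hU]
      push_cast
      rw [← h7, ← h8, ← h9]
      field_simp
      ring
    rw [h1]
    have h10 : (fun i => ev z U (mm (gq i))) =
        fun i => (1 / ((vec t a 2 : ℝ) : ℂ)) * ((a i : ℤ) : ℂ) := funext h4
    rw [h10, aeval_smul_homog G hd]
    congr 1
    have h11 := MvPolynomial.map_aeval (fun i => ((a i : ℤ) : ℚ)) (algebraMap ℚ ℂ) G
    have h12 : (algebraMap ℚ ℂ) (MvPolynomial.aeval (fun i => ((a i : ℤ) : ℚ)) G) =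
      ((MvPolynomial.aeval (fun i => (a i : ℚ)) G : ℚ) : ℂ) := rfl
    rw [← h12, h11]
    have h13 : (algebraMap ℚ ℂ).comp (algebraMap ℚ ℚ) = algebraMap ℚ ℂ := RingHom.ext_rat _ _
    rw [h13]
    have h14 : (fun i => (algebraMap ℚ ℂ) ((a i : ℤ) : ℚ)) = fun i => ((a i : ℤ) : ℂ) := by
      ext i; simp
    rw [h14]
    rfl
  have hnz : ∀ a : Fin 3 → ℤ, a ≠ 0 → vec t a 0 ≠ 0 ∧ vec t a 1 ≠ 0 ∧ vec t a 2 ≠ 0 :=
    fun a ha => ne_zero_of_mem _ (SS_norm ht) (mem_SS ht a) (vec_ne_zero ht ha)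
  have hQ0 : Q ≠ 0 := by
    obtain ⟨a, ha, hGa⟩ := exists_int_eval_ne_zero G hG
    have h2 := (hnz a ha).2.2
    intro h0
    have h1 := key a h2
    rw [h0, map_zero, map_zero] at h1
    have h3 : ((vec t a 2 : ℝ) : ℂ) ≠ 0 := by exact_mod_cast h2
    have h4 : ((MvPolynomial.aeval (fun i => (a i : ℚ)) G : ℚ) : ℂ) ≠ 0 := by exact_mod_cast hGa
    exact mul_ne_zero (pow_ne_zero _ (one_div_ne_zero h3)) h4 h1.symm
  obtain ⟨Q₁, hQ₁, hQ₁'⟩ := exists_eq_pow_rootMultiplicity_mul_and_not_dvd Q hQ0 0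
  rw [C_0, sub_zero] at hQ₁ hQ₁'
  rw [X_dvd_iff] at hQ₁'
  set φ₀ : A[X] := Q₁.coeff 0 with hφ₀
  set φ : ℂ[X] := φ₀.map ι with hφ
  have hι : Function.Injective ι := ι.injective
  have hφ0 : φ ≠ 0 := (Polynomial.map_ne_zero_iff hι).mpr hQ₁'
  have hroots : ∀ c ∈ φ.roots, IsAlgebraic ℤ c := by
    intro c hc
    have h1 : φ₀.Splits := IsAlgClosed.splits φ₀
    rw [hφ, h1.roots_map ι, Multiset.mem_map] at hc
    obtain ⟨c', _, rfl⟩ := hc
    have h2 : IsAlgebraic ℚ (c' : ℂ) := mem_algebraicClosure_iff.mp c'.2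
    exact (IsFractionRing.isAlgebraic_iff ℤ ℚ ℂ).mpr h2
  set n₀ := φ.natDegree with hn₀
  obtain ⟨ε₁, hε₁, T₁, hthue⟩ := thue_finset (SS t ht) (SS_shift ht) (SS_norm ht)
    (1 / ((n₀ : ℝ) + 1)) (by positivity) φ.roots.toFinset
    (fun c hc => hroots c (Multiset.mem_toFinset.mp hc))
  obtain ⟨Cc, hCc, N, hbound⟩ := eval_bound_two (mm Q₁.divX)
  have hlc : 0 < ‖φ.leadingCoeff‖ := norm_pos_iff.mpr (leadingCoeff_ne_zero.mpr hφ0)
  refine ⟨min ε₁ (1 / ((N : ℝ) + 2)), lt_min hε₁ (by positivity),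
    max (max T₁ 0) (Cc / ‖φ.leadingCoeff‖), ?_⟩
  intro ε hε hε' T hT a ha h0 h1 h2 hzero
  have hT₁ : T₁ ≤ T := (le_max_left _ _).trans ((le_max_left _ _).trans hT)
  have hT0 : 0 ≤ T := (le_max_right _ _).trans ((le_max_left _ _).trans hT)
  have hTC : Cc / ‖φ.leadingCoeff‖ ≤ T := (le_max_right _ _).trans hT
  have hεN : ((N : ℝ) + 2) * ε ≤ 1 := by
    have : ε ≤ 1 / ((N : ℝ) + 2) := hε'.trans (min_le_right _ _)
    rw [le_div_iff₀ (by positivity)] at this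
    linarith
  have hε1 : 2 * ε ≤ 1 := by
    have : (0:ℝ) ≤ N := Nat.cast_nonneg N
    nlinarith
  obtain ⟨hx0, hx1, hx2⟩ := hnz a ha
  have hprod := SS_norm ht _ (mem_SS ht a) (vec_ne_zero ht ha)
  set x := vec t a with hx
  have hroot := hthue ε hε (hε'.trans (min_le_left _ _)) T hT₁ x (mem_SS ht a)
    (vec_ne_zero ht ha) h0 h1 h2
  have hx2' : Real.exp ((1 - ε) * T) ≤ |x 2| := by
    rw [abs_mul, abs_mul] at hprod
    have h3 : |x 0| * |x 1| ≤ Real.exp (-((1 - ε) * T)) := by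
      calc |x 0| * |x 1| ≤ Real.exp (-((2 - ε) * T)) * Real.exp T := by gcongr
        _ = Real.exp (-((1 - ε) * T)) := by rw [← Real.exp_add]; congr 1; ring
    have h4 : 1 ≤ Real.exp (-((1 - ε) * T)) * |x 2| :=
      hprod.trans (mul_le_mul_of_nonneg_right h3 (abs_nonneg _))
    calc Real.exp ((1 - ε) * T) = Real.exp ((1 - ε) * T) * 1 := by ring
      _ ≤ Real.exp ((1 - ε) * T) * (Real.exp (-((1 - ε) * T)) * |x 2|) := by gcongr
      _ = |x 2| := by
        rw [← mul_assoc, ← Real.exp_add]; simp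
  set z : ℂ := ((x 0 / x 2 : ℝ) : ℂ) with hz
  set U : ℂ := ((x 1 / x 2 : ℝ) : ℂ) with hU
  have hx2pos : 0 < |x 2| := abs_pos.mpr hx2
  have hzn : ‖z‖ ≤ Real.exp (-((3 - 2 * ε) * T)) := by
    rw [hz, Complex.norm_real, Real.norm_eq_abs, abs_div, div_le_iff₀ hx2pos]
    calc |x 0| ≤ Real.exp (-((2 - ε) * T)) := h0
      _ = Real.exp (-((3 - 2 * ε) * T)) * Real.exp ((1 - ε) * T) := by
        rw [← Real.exp_add]; congr 1; ring
      _ ≤ _ := by gcongr
  have hz1 : ‖z‖ ≤ 1 := by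
    refine hzn.trans ?_
    rw [Real.exp_le_one_iff]
    nlinarith
  have hUn : ‖U‖ ≤ Real.exp (ε * T) := by
    rw [hU, Complex.norm_real, Real.norm_eq_abs, abs_div, div_le_iff₀ hx2pos]
    calc |x 1| ≤ Real.exp T := h1
      _ = Real.exp (ε * T) * Real.exp ((1 - ε) * T) := by
        rw [← Real.exp_add]; congr 1; ring
      _ ≤ _ := by gcongr
  have hUn' : max 1 ‖U‖ ≤ Real.exp (ε * T) := by
    refine max_le ?_ hUn
    rw [← Real.exp_zero]
    exact Real.exp_le_exp.mpr (by positivity)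
  have hz0 : z ≠ 0 := by
    rw [hz]
    exact_mod_cast div_ne_zero hx0 hx2
  -- vanishing
  have hk := key a hx2
  rw [hzero, Rat.cast_zero, mul_zero] at hk
  have hQ₁d : mm Q = X ^ (rootMultiplicity 0 Q) * (mm Q₁.divX * X + C φ) := by
    conv_lhs => rw [hQ₁]
    rw [map_mul]
    congr 1
    · simp [mm]
    · conv_lhs => rw [← divX_mul_X_add Q₁]
      simp [mm, hφ, hφ₀]
  rw [hQ₁d, map_mul, map_pow, map_add, map_mul, ev_X, ev_C] at hk
  have hk2 : ev z U (mm Q₁.divX) * z + φ.eval U = 0 :=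
    (mul_eq_zero.mp hk).resolve_left (pow_ne_zero _ hz0)
  have hφU : ‖φ.eval U‖ ≤ Cc * Real.exp (-(2 * T)) := by
    have h3 : φ.eval U = -(ev z U (mm Q₁.divX) * z) := by linear_combination hk2
    rw [h3, norm_neg, norm_mul]
    calc ‖ev z U (mm Q₁.divX)‖ * ‖z‖ ≤ (Cc * (max 1 ‖U‖) ^ N) * Real.exp (-((3 - 2 * ε) * T)) := by
          gcongr
          exact hbound z U hz1
      _ ≤ (Cc * Real.exp (ε * T) ^ N) * Real.exp (-((3 - 2 * ε) * T)) := by gcongr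
      _ = Cc * Real.exp (N * (ε * T) + -((3 - 2 * ε) * T)) := by
          rw [← Real.exp_nat_mul, mul_assoc, ← Real.exp_add]
      _ ≤ Cc * Real.exp (-(2 * T)) := by
          gcongr
          nlinarith
  have hφL := eval_ge_of_roots φ U (b := Real.exp (-(1 / ((n₀ : ℝ) + 1) * T)))
    (Real.exp_nonneg _) (fun c hc => (hroot c (Multiset.mem_toFinset.mpr hc)).le)
  have h5 : Real.exp (-T) ≤ Real.exp (-(1 / ((n₀ : ℝ) + 1) * T)) ^ φ.natDegree := by
    rw [← Real.exp_nat_mul, ← hn₀]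
    apply Real.exp_le_exp.mpr
    have h6 : (n₀ : ℝ) * (1 / ((n₀ : ℝ) + 1)) ≤ 1 := by
      rw [mul_one_div, div_le_one (by positivity)]
      linarith
    nlinarith
  have h7 : ‖φ.leadingCoeff‖ * Real.exp (-T) ≤ Cc * Real.exp (-(2 * T)) := by
    calc ‖φ.leadingCoeff‖ * Real.exp (-T) ≤ _ := by gcongr
      _ ≤ _ := hφL
      _ ≤ _ := hφU
  have h8 : ‖φ.leadingCoeff‖ * Real.exp T ≤ Cc := by
    have h9 := mul_le_mul_of_nonneg_right h7 (Real.exp_nonneg (2 * T))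
    rw [mul_assoc, mul_assoc, ← Real.exp_add, ← Real.exp_add] at h9
    have e1 : -T + 2 * T = T := by ring
    have e2 : -(2 * T) + 2 * T = 0 := by ring
    rw [e1, e2, Real.exp_zero, mul_one] at h9
    exact h9
  have h10 : T < Real.exp T := lt_of_lt_of_le (lt_add_one T) (Real.add_one_le_exp T)
  rw [div_le_iff₀ hlc] at hTC
  nlinarith

end Pool.Agent.Hhelper82.Mc
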