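import Mathlib

open MvPolynomial

namespace Pool.Agent.Hhelper82.Mc

/-- the coordinates `u, v, w` inside `(t, y, u, v, w)` -/
def emb : Fin 3 → Fin 5 := ![2, 3, 4]

theorem emb_injective : Function.Injective emb := by decide

theorem exists_form_F {F : Type*} [Field F] (I : Ideal (MvPolynomial (Fin 5) F))
    (hI : ∀ g ∈ I, ∀ d, homogeneousComponent d g ∈ I)
    (htr : Algebra.trdeg F (MvPolynomial (Fin 5) F ⧸ I) ≤ 2) :
    ∃ (g : MvPolynomial (Fin 3) F) (d : ℕ), g ≠ 0 ∧ g.IsHomogeneous d ∧ rename emb g ∈ I := by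
  set v : Fin 3 → MvPolynomial (Fin 5) F ⧸ I := fun i => Ideal.Quotient.mkₐ F I (X (emb i)) with hv
  have hnot : ¬ AlgebraicIndependent F v := by
    intro h
    have h1 := h.lift_cardinalMk_le_trdeg
    rw [Cardinal.mk_fin] at h1
    have h2 : Cardinal.lift.{0} (Algebra.trdeg F (MvPolynomial (Fin 5) F ⧸ I)) ≤
        Cardinal.lift.{0} 2 := Cardinal.lift_le.mpr htr
    have h3 := h1.trans h2
    simp only [Cardinal.lift_natCast, Cardinal.lift_ofNat] at h3
    norm_cast at h3
  rw [algebraicIndependent_iff] at hnot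
  push Not at hnot
  obtain ⟨g, hg, hg0⟩ := hnot
  have h1 : aeval v g = Ideal.Quotient.mkₐ F I (rename emb g) := by
    have h2 : (Ideal.Quotient.mkₐ F I).comp (rename emb) = aeval v := by
      apply MvPolynomial.algHom_ext
      intro i
      simp [hv]
    rw [← h2]; rfl
  have h2 : rename emb g ∈ I := by
    rw [h1] at hg
    rwa [Ideal.Quotient.mkₐ_eq_mk, Ideal.Quotient.eq_zero_iff_mem] at hg
  have h3 : ∃ d, homogeneousComponent d g ≠ 0 := by
    by_contra hcon
    push Not at hcon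
    apply hg0
    rw [← sum_homogeneousComponent g]
    exact Finset.sum_eq_zero fun i _ => hcon i
  obtain ⟨d, hd⟩ := h3
  refine ⟨homogeneousComponent d g, d, hd, homogeneousComponent_isHomogeneous d g, ?_⟩
  rw [rename_homogeneousComponent]
  exact hI _ h2 d

theorem exists_form_rat {F : Type*} [Field F] [Algebra ℚ F] (g : MvPolynomial (Fin 3) F) {d : ℕ}
    (hg : g ≠ 0) (hd : g.IsHomogeneous d) :
    ∃ G : MvPolynomial (Fin 3) ℚ, G ≠ 0 ∧ G.IsHomogeneous d ∧
      ∀ a : Fin 3 → ℤ, aeval (fun i => ((a i : ℤ) : F)) g = 0 →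
        aeval (fun i => ((a i : ℤ) : ℚ)) G = 0 := by
  obtain ⟨s, hs⟩ := MvPolynomial.ne_zero_iff.mp hg
  have h1 : ∃ φ : Module.Dual ℚ F, φ (coeff s g) ≠ 0 := by
    by_contra hcon
    push Not at hcon
    exact hs ((Module.forall_dual_apply_eq_zero_iff ℚ _).mp hcon)
  obtain ⟨φ, hφ⟩ := h1
  set G : MvPolynomial (Fin 3) ℚ := ∑ e ∈ g.support, monomial e (φ (coeff e g)) with hG
  have hcoeff : ∀ e, coeff e G = φ (coeff e g) := by
    intro e
    rw [hG, coeff_sum]
    by_cases he : e ∈ g.support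
    · rw [Finset.sum_eq_single e]
      · simp
      · intro b _ hb
        rw [coeff_monomial, if_neg hb]
      · intro h; exact absurd he h
    · rw [Finset.sum_eq_zero]
      · rw [notMem_support_iff.mp he, map_zero]
      · intro b hb
        rw [coeff_monomial, if_neg]
        rintro rfl
        exact he hb
  refine ⟨G, ?_, ?_, ?_⟩
  · rw [MvPolynomial.ne_zero_iff]
    exact ⟨s, by rw [hcoeff]; exact hφ⟩
  · rw [hG]
    refine IsHomogeneous.sum _ _ _ fun e he => ?_
    apply isHomogeneous_monomial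
    exact (hd.degree_eq_sum_deg_support he).symm
  · intro a ha
    have h2 : aeval (fun i => ((a i : ℤ) : F)) g =
        ∑ e ∈ g.support, coeff e g * algebraMap ℚ F (∏ i, ((a i : ℤ) : ℚ) ^ e i) := by
      rw [aeval_def, eval₂_eq']
      refine Finset.sum_congr rfl fun e _ => ?_
      congr 1
      simp
    have h3 : aeval (fun i => ((a i : ℤ) : ℚ)) G =
        ∑ e ∈ g.support, φ (coeff e g) * (∏ i, ((a i : ℤ) : ℚ) ^ e i) := by
      rw [hG, map_sum]
      refine Finset.sum_congr rfl fun e _ => ?_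
      rw [aeval_monomial]
      simp [Finsupp.prod_fintype]
    rw [h3]
    have h4 : φ (aeval (fun i => ((a i : ℤ) : F)) g) =
        ∑ e ∈ g.support, φ (coeff e g) * (∏ i, ((a i : ℤ) : ℚ) ^ e i) := by
      rw [h2, map_sum]
      refine Finset.sum_congr rfl fun e _ => ?_
      rw [mul_comm (coeff e g), ← Algebra.smul_def, map_smul, smul_eq_mul, mul_comm]
    rw [← h4, ha, map_zero]

end Pool.Agent.Hhelper82.Mc
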