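import Pool.Agent.Hhelper82.Mc.Approx

namespace Pool.Agent.Hhelper82.Mc

section orth

variable {K : Type*} [Field K] [CharZero K]

theorem orth0 {s : K} (hs : s ^ 3 = 3 * s - 1) : lf s (dl s 0) (dl s 1) (dl s 2) = 1 := by
  simp only [dl, Matrix.cons_val_zero, Matrix.cons_val_one, Matrix.cons_val]
  unfold lf
  have h9 : (9 : K) ≠ 0 := by norm_num
  field_simp
  linear_combination (2 * s + 2) * hs

theorem orth1 {s : K} (hs : s ^ 3 = 3 * s - 1) :
    lf s (dl (sh s) 0) (dl (sh s) 1) (dl (sh s) 2) = 0 := by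
  have h1 : sh s ^ 2 = 4 - s - s ^ 2 := by
    unfold sh
    linear_combination s * hs
  simp only [dl, Matrix.cons_val_zero, Matrix.cons_val_one, Matrix.cons_val]
  rw [h1]
  unfold lf sh
  have h9 : (9 : K) ≠ 0 := by norm_num
  field_simp
  linear_combination (-s - 1) * hs

theorem orth2 {s : K} (hs : s ^ 3 = 3 * s - 1) :
    lf s (dl (sh (sh s)) 0) (dl (sh (sh s)) 1) (dl (sh (sh s)) 2) = 0 := by
  have h2 : sh (sh s) ^ 2 = 2 + s := by
    rw [sh_sh hs]
    linear_combination (s + 2) * hs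
  simp only [dl, Matrix.cons_val_zero, Matrix.cons_val_one, Matrix.cons_val]
  rw [h2, sh_sh hs]
  unfold lf
  have h9 : (9 : K) ≠ 0 := by norm_num
  field_simp
  linear_combination (-s - 1) * hs

/-- partial derivatives of the norm form and of the Klein form -/
def dN (i : Fin 3) (u v w : K) : K :=
  ![3*u^2 + 12*u*w - 3*v^2 + 3*v*w + 9*w^2, -6*u*v + 3*u*w - 3*v^2 + 3*w^2,
    6*u^2 + 3*u*v + 18*u*w + 6*v*w + 3*w^2] i

def dK (i : Fin 3) (u v w : K) : K :=
  ![12*u^3 + 72*u^2*w + 18*u*v^2 - 18*u*v*w + 162*u*w^2 + 15*v^3 + 27*v^2*w - 72*v*w^2 + 147*w^3,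
    18*u^2*v - 9*u^2*w + 45*u*v^2 + 54*u*v*w - 72*u*w^2 - 36*v^3 + 144*v^2*w - 18*v*w^2 - 90*w^3,
    24*u^3 - 9*u^2*v + 162*u^2*w + 27*u*v^2 - 144*u*v*w + 441*u*w^2 + 48*v^3 - 18*v^2*w
      - 270*v*w^2 + 420*w^3] i

theorem grad {t : K} (ht : t ^ 3 = 3 * t - 1) (y u v w : K) :
    dl t 0 * (y * dN 0 u v w - dK 0 u v w) + dl t 1 * (y * dN 1 u v w - dK 1 u v w) +
      dl t 2 * (y * dN 2 u v w - dK 2 u v w) =
    y * lf (sh t) u v w * lf (sh (sh t)) u v w - 3 * lf t u v w ^ 2 * lf (sh t) u v w -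
      lf (sh (sh t)) u v w ^ 3 := by
  rw [lf_sh2 ht, lf_sh ht]
  simp only [dl, dN, dK, Matrix.cons_val_zero, Matrix.cons_val_one, Matrix.cons_val]
  unfold lf
  have h9 : (9 : K) ≠ 0 := by norm_num
  field_simp
  linear_combination (-9*t^3*v^3 + 27*t^3*v*w^2 - 27*t^3*w^3 - 27*t^2*v^3 + 81*t^2*v^2*w
    - 54*t^2*v*w^2 - 27*t^2*w^3 + 9*t*y*v^2 - 9*t*y*v*w + 27*t*u*v^2 + 54*t*u*v*w - 27*t*u*w^2
    + 27*t*v^3 + 81*t*v^2*w - 54*t*v*w^2 + 27*t*w^3 + 9*y*v^2 - 27*y*v*w + 9*y*w^2 + 108*u*v^2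
    - 54*u*v*w - 54*u*w^2 + 27*v^3 + 135*v^2*w - 108*v*w^2 - 45*w^3) * ht

theorem smooth_alg {t y x0 x1 x2 : K}
    (h0 : y * x1 * x2 = 3 * x0 ^ 2 * x1 + x2 ^ 3) (h1 : y * x2 * x0 = 3 * x1 ^ 2 * x2 + x0 ^ 3)
    (h2 : y * x0 * x1 = 3 * x2 ^ 2 * x0 + x1 ^ 3) (ht : y ^ 3 + 4 * t ^ 3 = 0)
    (hN : x0 * x1 * x2 + 3 * t * y ^ 2 = 0) : t = 0 ∧ y = 0 ∧ x0 = 0 ∧ x1 = 0 ∧ x2 = 0 := by
  have e0 : y * (x0 * x1 * x2) = 4 * (x0 ^ 3 * x1) := by
    linear_combination (9/7 * x0) * h0 + (1/7 * x1) * h1 + (-3/7 * x2) * h2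
  have e1 : y * (x0 * x1 * x2) = 4 * (x1 ^ 3 * x2) := by
    linear_combination (9/7 * x1) * h1 + (1/7 * x2) * h2 + (-3/7 * x0) * h0
  have e2 : y * (x0 * x1 * x2) = 4 * (x2 ^ 3 * x0) := by
    linear_combination (9/7 * x2) * h2 + (1/7 * x0) * h0 + (-3/7 * x1) * h1
  have e3 : (x0 * x1 * x2) ^ 3 * (64 * (x0 * x1 * x2) - y ^ 3) = 0 := by
    have : y ^ 3 * (x0 * x1 * x2) ^ 3 = 64 * (x0 * x1 * x2) ^ 4 := by
      calc y ^ 3 * (x0 * x1 * x2) ^ 3 = (y * (x0 * x1 * x2)) * (y * (x0 * x1 * x2)) *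
            (y * (x0 * x1 * x2)) := by ring
        _ = (4 * (x0 ^ 3 * x1)) * (4 * (x1 ^ 3 * x2)) * (4 * (x2 ^ 3 * x0)) := by
            conv_lhs => rw [e0]
            conv_lhs => rw [← e0]
            rw [show y * (x0 * x1 * x2) * (y * (x0 * x1 * x2)) * (y * (x0 * x1 * x2)) =
              (y * (x0 * x1 * x2)) * ((y * (x0 * x1 * x2)) * (y * (x0 * x1 * x2))) by ring]
            nth_rewrite 1 [e0]
            nth_rewrite 1 [e1]
            rw [e2]
            ring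
        _ = _ := by ring
    linear_combination -this
  have hy0 : y = 0 → t = 0 := by
    intro hy
    rw [hy] at ht
    have : t ^ 3 = 0 := by
      have h4 : (4:K) * t ^ 3 = 0 := by linear_combination ht
      exact (mul_eq_zero.mp h4).resolve_left (by norm_num)
    exact pow_eq_zero_iff (by norm_num) |>.mp this
  have ht0 : t = 0 → y = 0 := by
    intro h
    rw [h] at ht
    have : y ^ 3 = 0 := by linear_combination ht
    exact pow_eq_zero_iff (by norm_num) |>.mp this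
  have hyt : y = 0 := by
    rcases mul_eq_zero.mp e3 with h | h
    · have hx : x0 * x1 * x2 = 0 := pow_eq_zero_iff (by norm_num) |>.mp h
      rw [hx, zero_add] at hN
      rcases mul_eq_zero.mp hN with h' | h'
      · have : t = 0 := (mul_eq_zero.mp h').resolve_left (by norm_num)
        exact ht0 this
      · exact pow_eq_zero_iff (by norm_num) |>.mp h'
    · have h5 : y ^ 2 * (y + 192 * t) = 0 := by linear_combination -h + 64 * hN
      rcases mul_eq_zero.mp h5 with h' | h'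
      · exact pow_eq_zero_iff (by norm_num) |>.mp h'
      · have h6 : y = -192 * t := by linear_combination h'
        rw [h6] at ht
        have h7 : (-7077884 : K) * t ^ 3 = 0 := by linear_combination ht
        have h8 : t ^ 3 = 0 := (mul_eq_zero.mp h7).resolve_left (by norm_num)
        exact ht0 (pow_eq_zero_iff (by norm_num) |>.mp h8)
  have htt := hy0 hyt
  rw [hyt, htt] at hN
  rw [hyt] at h0 h1 h2
  have hx : x0 * x1 * x2 = 0 := by linear_combination hN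
  refine ⟨htt, hyt, ?_⟩
  rcases mul_eq_zero.mp hx with h | h
  · rcases mul_eq_zero.mp h with h | h
    · have h3 : x2 = 0 := by
        rw [h] at h0
        have : x2 ^ 3 = 0 := by linear_combination -h0
        exact pow_eq_zero_iff (by norm_num) |>.mp this
      have h4 : x1 = 0 := by
        rw [h, h3] at h2
        have : x1 ^ 3 = 0 := by linear_combination -h2
        exact pow_eq_zero_iff (by norm_num) |>.mp this
      exact ⟨h, h4, h3⟩
    · have h3 : x0 = 0 := by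
        rw [h] at h1
        have : x0 ^ 3 = 0 := by linear_combination -h1
        exact pow_eq_zero_iff (by norm_num) |>.mp this
      have h4 : x2 = 0 := by
        rw [h, h3] at h0
        have : x2 ^ 3 = 0 := by linear_combination -h0
        exact pow_eq_zero_iff (by norm_num) |>.mp this
      exact ⟨h3, h, h4⟩
  · have h3 : x1 = 0 := by
      rw [h] at h2
      have : x1 ^ 3 = 0 := by linear_combination -h2
      exact pow_eq_zero_iff (by norm_num) |>.mp this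
    have h4 : x0 = 0 := by
      rw [h, h3] at h1
      have : x0 ^ 3 = 0 := by linear_combination -h1
      exact pow_eq_zero_iff (by norm_num) |>.mp this
    exact ⟨h4, h3, h⟩

theorem smooth_aux {s : K} (hs : s ^ 3 = 3 * s - 1) {t y : K} {a : Fin 3 → K}
    (hy : y ^ 3 + 4 * t ^ 3 = 0) (hN : Nf (a 0) (a 1) (a 2) + 3 * t * y ^ 2 = 0)
    (ha : ∀ i, y * dN i (a 0) (a 1) (a 2) - dK i (a 0) (a 1) (a 2) = 0) :
    t = 0 ∧ y = 0 ∧ a = 0 := by
  have g0 := grad hs y (a 0) (a 1) (a 2)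
  have g1 := grad (sh_root hs) y (a 0) (a 1) (a 2)
  have g2 := grad (sh_root (sh_root hs)) y (a 0) (a 1) (a 2)
  rw [ha 0, ha 1, ha 2] at g0 g1 g2
  rw [sh_sh_sh hs] at g1
  have h4 : sh (sh (sh (sh s))) = sh s := by rw [sh_sh_sh hs]
  rw [h4, sh_sh_sh hs] at g2
  have hNf := Nf_eq hs (a 0) (a 1) (a 2)
  rw [← hNf] at hN
  obtain ⟨h1, h2, h3, h4, h5⟩ := smooth_alg (t := t) (y := y) (x0 := lf s (a 0) (a 1) (a 2))
    (x1 := lf (sh s) (a 0) (a 1) (a 2)) (x2 := lf (sh (sh s)) (a 0) (a 1) (a 2))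
    (by linear_combination -g0) (by linear_combination -g1) (by linear_combination -g2) hy hN
  refine ⟨h1, h2, ?_⟩
  ext i
  have := inv_formula hs a i
  rw [h3, h4, h5] at this
  simpa using this.symm

end orth

end Pool.Agent.Hhelper82.Mc
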