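import Pool.Agent.Hhelper82.Mc.Approx

namespace Pool.Agent.Hhelper82.Mc

/-- On the whole threefold the exponent is at least `4/3`. -/
theorem lower_X {γ : ℝ} (hγ1 : 1 < γ) (hγ2 : γ < 4 / 3) (B₀ : ℝ) :
    ∃ d₀ : ℝ, 0 < d₀ ∧ ∀ (t y : ℤ) (a : Fin 3 → ℤ) (D : ℝ),
      y * Nf (a 0) (a 1) (a 2) - Kf (a 0) (a 1) (a 2) + t * y ^ 3 + t ^ 4 = 0 → y ≠ 0 →
      0 < D → D < d₀ → |(t : ℝ)| ≤ D * |(y : ℝ)| → (∀ i, |(a i : ℝ)| ≤ D * |(y : ℝ)|) →
      (D * |(y : ℝ)| ≤ |(t : ℝ)| ∨ ∃ i, D * |(y : ℝ)| ≤ |(a i : ℝ)|) →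
      B₀ < |(y : ℝ)| * D ^ γ := by
  set b := Real.log (max B₀ 1) with hb
  have hb0 : 0 ≤ b := Real.log_nonneg (le_max_right _ _)
  set l := Real.log 648 with hl
  have hl0 : 0 ≤ l := Real.log_nonneg (by norm_num)
  have h43 : 0 < 4 - 3 * γ := by linarith
  set L := (b + l) / (4 - 3 * γ) + 1 with hL
  refine ⟨min (1 / 2) (min (1 / (402 * (|B₀| + 1))) (Real.exp (-(3 * L)) / 648)),
    by positivity, ?_⟩
  intro t y a D hf hy hD hDd ht ha hmax
  by_contra hcon
  push Not at hcon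
  have hD1 : D < 1 / 2 := lt_of_lt_of_le hDd (min_le_left _ _)
  have hD2 : D < 1 / (402 * (|B₀| + 1)) :=
    lt_of_lt_of_le hDd ((min_le_right _ _).trans (min_le_left _ _))
  have hD3 : D < Real.exp (-(3 * L)) / 648 :=
    lt_of_lt_of_le hDd ((min_le_right _ _).trans (min_le_right _ _))
  have hy1 : (1:ℝ) ≤ |(y : ℝ)| := by exact_mod_cast Int.one_le_abs hy
  by_cases ht0 : t = 0
  · subst ht0
    have hmax' : ∃ i, D * |(y : ℝ)| ≤ |(a i : ℝ)| := by
      rcases hmax with h | h
      · simp only [Int.cast_zero, abs_zero] at h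
        have : 0 < D * |(y : ℝ)| := by positivity
        linarith
      · exact h
    have hf' : y * Nf (a 0) (a 1) (a 2) - Kf (a 0) (a 1) (a 2) = 0 := by linarith
    obtain ⟨ha0, hm1, hy4, hN, hyN⟩ := t_zero_data hf' hy hD ha hmax'
    set m := D * |(y : ℝ)| with hm
    have hm0 : 0 < m := by linarith
    have hLm : L ≤ Real.log m := by
      have h5 : Real.exp (3 * L) ≤ m ^ 3 := by
        have h6 : 1 ≤ D * (648 * m ^ 3) := by
          have h7 : m * 1 ≤ m * (D * (648 * m ^ 3)) := by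
            calc m * 1 = D * |(y : ℝ)| := by rw [hm]; ring
              _ ≤ D * (648 * m ^ 4) := by gcongr
              _ = _ := by ring
          exact le_of_mul_le_mul_left h7 hm0
        have h8 : D * (648 * m ^ 3) ≤ (Real.exp (-(3 * L)) / 648) * (648 * m ^ 3) := by gcongr
        have h9 : 1 ≤ Real.exp (-(3 * L)) * m ^ 3 := by
          calc 1 ≤ _ := h6
            _ ≤ _ := h8
            _ = _ := by ring
        calc Real.exp (3 * L) = Real.exp (3 * L) * 1 := by ring
          _ ≤ Real.exp (3 * L) * (Real.exp (-(3 * L)) * m ^ 3) := by gcongr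
          _ = m ^ 3 := by rw [← mul_assoc, ← Real.exp_add]; simp
      have h6 : 3 * L ≤ 3 * Real.log m := by
        have := Real.log_le_log (Real.exp_pos _) h5
        rw [Real.log_exp, Real.log_pow] at this
        exact_mod_cast this
      linarith
    have hlogy : Real.log |(y : ℝ)| ≤ l + 4 * Real.log m := by
      have h5 := Real.log_le_log (by positivity) hy4
      rw [Real.log_mul (by norm_num) (by positivity), Real.log_pow] at h5
      exact_mod_cast h5
    have h5 : 0 < |(y : ℝ)| * D ^ γ := by positivity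
    have h6 := Real.log_le_log h5 (hcon.trans (le_max_left B₀ 1))
    rw [Real.log_mul (by positivity) (by positivity), Real.log_rpow hD] at h6
    have h7 : Real.log D = Real.log m - Real.log |(y : ℝ)| := by
      have : Real.log m = Real.log D + Real.log |(y : ℝ)| :=
        Real.log_mul hD.ne' (by positivity)
      linarith
    rw [h7] at h6
    have h8 : (4 - 3 * γ) * Real.log m ≤ b + l := by
      have h9 : (γ - 1) * Real.log |(y : ℝ)| ≤ (γ - 1) * (l + 4 * Real.log m) :=
        mul_le_mul_of_nonneg_left hlogy (by linarith)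
      have h10 : (γ - 1) * l ≤ l := by nlinarith
      nlinarith
    have h9 : (4 - 3 * γ) * L ≤ b + l := by
      refine le_trans (mul_le_mul_of_nonneg_left hLm h43.le) h8
    rw [hL, mul_add, mul_div_cancel₀ _ h43.ne'] at h9
    linarith
  · have ht1 : (1:ℝ) ≤ |(t : ℝ)| := by exact_mod_cast Int.one_le_abs ht0
    have hfR : (y : ℝ) * Nf (a 0 : ℝ) (a 1) (a 2) - Kf (a 0 : ℝ) (a 1) (a 2) + t * (y:ℝ) ^ 3 +
        (t:ℝ) ^ 4 = 0 := by
      rw [← intCast_Nf, ← intCast_Kf]
      exact_mod_cast hf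
    have h1 := t_ne_zero_bound hfR hD.le hD1.le ht (ha 0) (ha 1) (ha 2) ht1
    have h2 : D ^ (2:ℝ) ≤ D ^ γ :=
      Real.rpow_le_rpow_of_exponent_ge hD (by linarith) (by linarith)
    rw [Real.rpow_two] at h2
    have h3 : |(y : ℝ)| * D ^ 2 ≤ B₀ := (mul_le_mul_of_nonneg_left h2 (abs_nonneg _)).trans hcon
    have h4 : D * (402 * (|B₀| + 1)) < 1 := by
      rw [lt_div_iff₀ (by positivity)] at hD2
      exact hD2
    have h5 : B₀ ≤ |B₀| := le_abs_self _
    have h6 : 402 * D * (|(y : ℝ)| * D ^ 2) ≤ 402 * D * (|B₀| + 1) := by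
      apply mul_le_mul_of_nonneg_left _ (by positivity)
      linarith
    nlinarith

end Pool.Agent.Hhelper82.Mc
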