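import Pool.Agent.Hhelper82.Mc.Quartic

open Projectivization

namespace Pool.Agent.Hhelper82.Mc

/-- clearing denominators -/
theorem exists_int_multiple (v : Fin 5 → ℚ) : ∃ (N : ℚ) (m : Fin 5 → ℤ), N ≠ 0 ∧
    ∀ i, N * v i = m i := by
  refine ⟨((∏ i, (v i).den : ℕ) : ℚ), fun i => (∏ j ∈ Finset.univ.erase i, ((v j).den : ℤ)) *
    (v i).num, ?_, ?_⟩
  · have : (∏ i, (v i).den : ℕ) ≠ 0 := by
      rw [Finset.prod_ne_zero_iff]
      intro i _
      exact (v i).den_nz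
    exact_mod_cast this
  · intro i
    have h1 : (∏ j, (v j).den : ℕ) = (∏ j ∈ Finset.univ.erase i, (v j).den) * (v i).den := by
      rw [mul_comm]
      exact (Finset.mul_prod_erase Finset.univ (fun j => (v j).den) (Finset.mem_univ i)).symm
    rw [h1]
    push_cast
    rw [mul_assoc]
    congr 1
    rw [mul_comm]
    exact Rat.mul_den_eq_num (v i)

theorem exists_primitive (v : Fin 5 → ℚ) (hv : v ≠ 0) : ∃ (n : Fin 5 → ℤ) (c : ℚ), c ≠ 0 ∧
    Finset.univ.gcd n = 1 ∧ v = c • (fun i => (n i : ℚ)) := by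
  obtain ⟨N, m, hN, hm⟩ := exists_int_multiple v
  obtain ⟨n, hn, hgcd⟩ := Finset.extract_gcd m (s := Finset.univ) Finset.univ_nonempty
  have hv' : v = ((Finset.univ.gcd m : ℤ) / N : ℚ) • (fun i => (n i : ℚ)) := by
    ext i
    have h1 := hm i
    rw [hn i (Finset.mem_univ i)] at h1
    push_cast at h1
    simp only [Pi.smul_apply, smul_eq_mul]
    field_simp
    linear_combination h1
  refine ⟨n, _, ?_, hgcd, hv'⟩
  intro h0
  apply hv
  rw [hv', h0, zero_smul]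

theorem exists_rep (x : Projectivization ℚ (Fin 5 → ℚ)) : ∃ (n : Fin 5 → ℤ)
    (hn : (fun i => (n i : ℚ)) ≠ 0), Finset.univ.gcd n = 1 ∧ x = mk ℚ (fun i => (n i : ℚ)) hn := by
  obtain ⟨n, c, hc, hgcd, hv⟩ := exists_primitive x.rep x.rep_nonzero
  have hn : (fun i => (n i : ℚ)) ≠ 0 := by
    intro h0
    rw [h0, smul_zero] at hv
    exact x.rep_nonzero hv
  refine ⟨n, hn, hgcd, ?_⟩
  rw [← x.mk_rep]
  rw [mk_eq_mk_iff']
  exact ⟨c, hv.symm⟩

theorem mulHeight_primitive (n : Fin 5 → ℤ) (hn : (fun i => (n i : ℚ)) ≠ 0)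
    (hgcd : Finset.univ.gcd n = 1) :
    mulHeight (mk ℚ (fun i => (n i : ℚ)) hn) = ((⨆ i, |n i| : ℤ) : ℝ) := by
  rw [mulHeight_mk]
  exact Rat.mulHeight_eq_max_abs_of_gcd_eq_one hgcd

theorem le_iSup_int (n : Fin 5 → ℤ) (i : Fin 5) : |n i| ≤ ⨆ i, |n i| :=
  le_ciSup (f := fun i => |n i|) (Set.finite_range _).bddAbove i

theorem mulHeight_le_int (m : Fin 5 → ℤ) (hm : (fun i => (m i : ℚ)) ≠ 0) {B : ℝ}
    (hB : ∀ i, |(m i : ℝ)| ≤ B) : mulHeight (mk ℚ (fun i => (m i : ℚ)) hm) ≤ B := by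
  obtain ⟨n, hn, hgcd⟩ := Finset.extract_gcd m (s := Finset.univ) Finset.univ_nonempty
  have hg : (Finset.univ.gcd m : ℤ) ≠ 0 := by
    intro h0
    apply hm
    ext i
    have := hn i (Finset.mem_univ i)
    rw [h0, zero_mul] at this
    rw [this]; simp
  have hn' : (fun i => (n i : ℚ)) ≠ 0 := by
    intro h0
    apply hm
    ext i
    have h1 := congrFun h0 i
    simp only [Pi.zero_apply] at h1
    rw [hn i (Finset.mem_univ i)]
    push_cast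
    rw [h1, mul_zero]; rfl
  have hmk : mk ℚ (fun i => (m i : ℚ)) hm = mk ℚ (fun i => (n i : ℚ)) hn' := by
    rw [mk_eq_mk_iff']
    refine ⟨((Finset.univ.gcd m : ℤ) : ℚ), ?_⟩
    ext i
    simp only [Pi.smul_apply, smul_eq_mul]
    rw [hn i (Finset.mem_univ i)]
    push_cast
    rfl
  rw [hmk, mulHeight_primitive n hn' hgcd]
  obtain ⟨i, hi⟩ := exists_eq_ciSup_of_finite (f := fun i => |n i|)
  rw [← hi]
  push_cast
  refine le_trans ?_ (hB i)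
  rw [hn i (Finset.mem_univ i)]
  push_cast
  rw [abs_mul]
  have h1 : (1:ℝ) ≤ |((Finset.univ.gcd m : ℤ) : ℝ)| := by
    exact_mod_cast Int.one_le_abs hg
  have h2 : 0 ≤ |(n i : ℝ)| := abs_nonneg _
  nlinarith

/-- distance formula on vectors -/
noncomputable def vdist (u v : Fin 5 → ℚ) : ℝ :=
  (⨆ p : Fin 5 × Fin 5, |((u p.1 * v p.2 - u p.2 * v p.1 : ℚ) : ℝ)|) /
    ((⨆ i, |((u i : ℚ) : ℝ)|) * (⨆ i, |((v i : ℚ) : ℝ)|))

theorem vdist_smul (u v : Fin 5 → ℚ) {c d : ℚ} (hc : c ≠ 0) (hd : d ≠ 0) :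
    vdist (c • u) (d • v) = vdist u v := by
  unfold vdist
  have h1 : (⨆ p : Fin 5 × Fin 5, |(((c • u) p.1 * (d • v) p.2 - (c • u) p.2 * (d • v) p.1 : ℚ) : ℝ)|)
      = (|(c : ℝ)| * |(d : ℝ)|) * ⨆ p : Fin 5 × Fin 5, |((u p.1 * v p.2 - u p.2 * v p.1 : ℚ) : ℝ)| := by
    rw [Real.mul_iSup_of_nonneg (by positivity)]
    congr 1
    ext p
    rw [← abs_mul, ← abs_mul]
    congr 1
    simp only [Pi.smul_apply, smul_eq_mul]
    push_cast
    ring
  have h2 : (⨆ i, |(((c • u) i : ℚ) : ℝ)|) = |(c : ℝ)| * ⨆ i, |((u i : ℚ) : ℝ)| := by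
    rw [Real.mul_iSup_of_nonneg (abs_nonneg _)]
    congr 1
    ext i
    rw [← abs_mul]
    simp
  have h3 : (⨆ i, |(((d • v) i : ℚ) : ℝ)|) = |(d : ℝ)| * ⨆ i, |((v i : ℚ) : ℝ)| := by
    rw [Real.mul_iSup_of_nonneg (abs_nonneg _)]
    congr 1
    ext i
    rw [← abs_mul]
    simp
  rw [h1, h2, h3]
  have hc' : |(c : ℝ)| ≠ 0 := abs_ne_zero.mpr (by exact_mod_cast hc)
  have hd' : |(d : ℝ)| ≠ 0 := abs_ne_zero.mpr (by exact_mod_cast hd)
  rw [show |(c : ℝ)| * (⨆ i, |((u i : ℚ) : ℝ)|) * (|(d : ℝ)| * ⨆ i, |((v i : ℚ) : ℝ)|) =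
    (|(c : ℝ)| * |(d : ℝ)|) * ((⨆ i, |((u i : ℚ) : ℝ)|) * ⨆ i, |((v i : ℚ) : ℝ)|) by ring]
  exact mul_div_mul_left _ _ (mul_ne_zero hc' hd')

/-- the base point vector -/
def e1 : Fin 5 → ℚ := ![0, 1, 0, 0, 0]

theorem e1_ne : e1 ≠ 0 := by
  intro h
  have := congrFun h 1
  simp [e1] at this

theorem e1_iSup : (⨆ i, |((e1 i : ℚ) : ℝ)|) = 1 := by
  apply le_antisymm
  · apply ciSup_le
    intro i
    fin_cases i <;> simp [e1]
  · have := le_ciSup (f := fun i => |((e1 i : ℚ) : ℝ)|) (Set.finite_range _).bddAbove 1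
    simpa [e1] using this

/-- basic facts on the distance to the base point, for an integral vector -/
theorem vdist_e1 (n : Fin 5 → ℤ) (hn : (fun i => (n i : ℚ)) ≠ 0) :
    let D := vdist e1 (fun i => (n i : ℚ))
    let M := ⨆ i, |(n i : ℝ)|
    0 < M ∧ (∀ i, |(n i : ℝ)| ≤ M) ∧ (∃ i, M = |(n i : ℝ)|) ∧ 0 ≤ D ∧
      (∀ i, i ≠ 1 → |(n i : ℝ)| ≤ D * M) ∧ (∃ i, D * M ≤ |(n i : ℝ)| ∧ (D ≠ 0 → i ≠ 1)) := by
  intro D M
  have hle : ∀ i, |(n i : ℝ)| ≤ M := fun i =>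
    le_ciSup (f := fun i => |(n i : ℝ)|) (Set.finite_range _).bddAbove i
  have hM : 0 < M := by
    obtain ⟨i, hi⟩ := Function.ne_iff.mp hn
    have : (n i : ℝ) ≠ 0 := by
      intro h
      apply hi
      have : n i = 0 := by exact_mod_cast h
      simp [this]
    exact lt_of_lt_of_le (abs_pos.mpr this) (hle i)
  have hex : ∃ i, M = |(n i : ℝ)| := by
    obtain ⟨i, hi⟩ := exists_eq_ciSup_of_finite (f := fun i => |(n i : ℝ)|)
    exact ⟨i, hi.symm⟩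
  set B := ⨆ p : Fin 5 × Fin 5, |((e1 p.1 * (n p.2 : ℚ) - e1 p.2 * (n p.1 : ℚ) : ℚ) : ℝ)| with hB
  have hD : D = B / M := by
    simp only [D, vdist]
    rw [e1_iSup, one_mul]
    congr 1
  have hDM : D * M = B := by rw [hD]; field_simp
  have hBle : ∀ p : Fin 5 × Fin 5,
      |((e1 p.1 * (n p.2 : ℚ) - e1 p.2 * (n p.1 : ℚ) : ℚ) : ℝ)| ≤ B := fun p =>
    le_ciSup (f := fun p : Fin 5 × Fin 5 =>
      |((e1 p.1 * (n p.2 : ℚ) - e1 p.2 * (n p.1 : ℚ) : ℚ) : ℝ)|) (Set.finite_range _).bddAbove p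
  have hB0 : 0 ≤ B := (abs_nonneg _).trans (hBle (0, 0))
  refine ⟨hM, hle, hex, ?_, ?_, ?_⟩
  · rw [hD]; positivity
  · intro i hi
    rw [hDM]
    have := hBle (1, i)
    have he : e1 i = 0 := by
      fin_cases i <;> simp [e1] at hi ⊢
    have he1 : e1 1 = 1 := by simp [e1]
    simp only [he, he1, one_mul, zero_mul, sub_zero, Rat.cast_intCast] at this
    exact this
  · rw [hDM]
    obtain ⟨p, hp⟩ := exists_eq_ciSup_of_finite (f := fun p : Fin 5 × Fin 5 =>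
      |((e1 p.1 * (n p.2 : ℚ) - e1 p.2 * (n p.1 : ℚ) : ℚ) : ℝ)|)
    have he : ∀ i, i ≠ 1 → e1 i = 0 := by
      intro i hi
      fin_cases i <;> simp [e1] at hi ⊢
    have he1 : e1 1 = 1 := by simp [e1]
    by_cases h1 : p.1 = 1
    · by_cases h2 : p.2 = 1
      · have hB' : B = 0 := by
          rw [hB, ← hp, h1, h2]
          simp
        refine ⟨0, ?_, ?_⟩
        · rw [hB']; exact abs_nonneg _
        · intro _; decide
      · refine ⟨p.2, ?_, fun _ => h2⟩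
        rw [hB, ← hp, h1, he1, he _ h2]
        simp
    · by_cases h2 : p.2 = 1
      · refine ⟨p.1, ?_, fun _ => h1⟩
        rw [hB, ← hp, h2, he1, he _ h1]
        simp
      · refine ⟨0, ?_, fun _ => by decide⟩
        rw [hB, ← hp, he _ h1, he _ h2]
        simp

end Pool.Agent.Hhelper82.Mc
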