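import Pool.Agent.Hhelper82.Mc.Geometry

open MvPolynomial

namespace Pool.Agent.Hhelper82.Mc

/-- The quartic form, coordinates `(t, y, u, v, w)`. -/
noncomputable def quartic : MvPolynomial (Fin 5) ℚ :=
  X 1 * Nf (X 2) (X 3) (X 4) - Kf (X 2) (X 3) (X 4) + X 0 * X 1 ^ 3 + X 0 ^ 4

theorem aeval_quartic {K : Type*} [CommRing K] [Algebra ℚ K] (z : Fin 5 → K) :
    aeval z quartic = z 1 * Nf (z 2) (z 3) (z 4) - Kf (z 2) (z 3) (z 4) + z 0 * z 1 ^ 3 +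
      z 0 ^ 4 := by
  simp [quartic, Nf, Kf, map_ofNat]

theorem homog_term (c : ℚ) (i j k : ℕ) {n : ℕ} (h : i + j + k = n) :
    (C c * X 2 ^ i * X 3 ^ j * X 4 ^ k : MvPolynomial (Fin 5) ℚ).IsHomogeneous n := by
  subst h
  have := (((isHomogeneous_C (Fin 5) c).mul ((isHomogeneous_X ℚ (2 : Fin 5)).pow i)).mul
    ((isHomogeneous_X ℚ (3 : Fin 5)).pow j)).mul ((isHomogeneous_X ℚ (4 : Fin 5)).pow k)
  simpa using this

theorem Nf_homog : (Nf (X 2) (X 3) (X 4) : MvPolynomial (Fin 5) ℚ).IsHomogeneous 3 := by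
  have h : (Nf (X 2) (X 3) (X 4) : MvPolynomial (Fin 5) ℚ) =
      C 1 * X 2 ^ 3 * X 3 ^ 0 * X 4 ^ 0 + C 6 * X 2 ^ 2 * X 3 ^ 0 * X 4 ^ 1 +
      C (-3) * X 2 ^ 1 * X 3 ^ 2 * X 4 ^ 0 + C 3 * X 2 ^ 1 * X 3 ^ 1 * X 4 ^ 1 +
      C 9 * X 2 ^ 1 * X 3 ^ 0 * X 4 ^ 2 + C (-1) * X 2 ^ 0 * X 3 ^ 3 * X 4 ^ 0 +
      C 3 * X 2 ^ 0 * X 3 ^ 1 * X 4 ^ 2 + C 1 * X 2 ^ 0 * X 3 ^ 0 * X 4 ^ 3 := by
    unfold Nf
    simp only [C_neg, C_1, map_ofNat]
    ring
  rw [h]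
  refine IsHomogeneous.add (IsHomogeneous.add (IsHomogeneous.add (IsHomogeneous.add
    (IsHomogeneous.add (IsHomogeneous.add (IsHomogeneous.add ?_ ?_) ?_) ?_) ?_) ?_) ?_) ?_ <;>
    exact homog_term _ _ _ _ rfl

theorem Kf_homog : (Kf (X 2) (X 3) (X 4) : MvPolynomial (Fin 5) ℚ).IsHomogeneous 4 := by
  have h : (Kf (X 2) (X 3) (X 4) : MvPolynomial (Fin 5) ℚ) =
      C 3 * X 2 ^ 4 * X 3 ^ 0 * X 4 ^ 0 + C 24 * X 2 ^ 3 * X 3 ^ 0 * X 4 ^ 1 +
      C 9 * X 2 ^ 2 * X 3 ^ 2 * X 4 ^ 0 + C (-9) * X 2 ^ 2 * X 3 ^ 1 * X 4 ^ 1 +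
      C 81 * X 2 ^ 2 * X 3 ^ 0 * X 4 ^ 2 + C 15 * X 2 ^ 1 * X 3 ^ 3 * X 4 ^ 0 +
      C 27 * X 2 ^ 1 * X 3 ^ 2 * X 4 ^ 1 + C (-72) * X 2 ^ 1 * X 3 ^ 1 * X 4 ^ 2 +
      C 147 * X 2 ^ 1 * X 3 ^ 0 * X 4 ^ 3 + C (-9) * X 2 ^ 0 * X 3 ^ 4 * X 4 ^ 0 +
      C 48 * X 2 ^ 0 * X 3 ^ 3 * X 4 ^ 1 + C (-9) * X 2 ^ 0 * X 3 ^ 2 * X 4 ^ 2 +
      C (-90) * X 2 ^ 0 * X 3 ^ 1 * X 4 ^ 3 + C 105 * X 2 ^ 0 * X 3 ^ 0 * X 4 ^ 4 := by
    unfold Kf
    simp only [C_neg, map_ofNat]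
    ring
  rw [h]
  refine IsHomogeneous.add (IsHomogeneous.add (IsHomogeneous.add (IsHomogeneous.add
    (IsHomogeneous.add (IsHomogeneous.add (IsHomogeneous.add (IsHomogeneous.add
    (IsHomogeneous.add (IsHomogeneous.add (IsHomogeneous.add (IsHomogeneous.add
    (IsHomogeneous.add ?_ ?_) ?_) ?_) ?_) ?_) ?_) ?_) ?_) ?_) ?_) ?_) ?_) ?_ <;>
    exact homog_term _ _ _ _ rfl

theorem quartic_homog : quartic.IsHomogeneous 4 := by
  unfold quartic
  refine IsHomogeneous.add (IsHomogeneous.add (IsHomogeneous.sub ?_ Kf_homog) ?_) ?_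
  · exact (isHomogeneous_X ℚ (1 : Fin 5)).mul Nf_homog
  · exact (isHomogeneous_X ℚ (0 : Fin 5)).mul ((isHomogeneous_X ℚ (1 : Fin 5)).pow 3)
  · exact (isHomogeneous_X ℚ (0 : Fin 5)).pow 4

theorem pderiv_ofNat {σ R : Type*} [CommSemiring R] (i : σ) (n : ℕ) [n.AtLeastTwo] :
    pderiv i (ofNat(n) : MvPolynomial σ R) = 0 := by
  have : (OfNat.ofNat n : MvPolynomial σ R) = ((n : ℕ) : MvPolynomial σ R) := rfl
  rw [this, Derivation.map_natCast]

theorem aeval_pderiv0 {K : Type*} [CommRing K] [Algebra ℚ K] (z : Fin 5 → K) :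
    aeval z (pderiv 0 quartic) = z 1 ^ 3 + 4 * z 0 ^ 3 := by
  simp [quartic, Nf, Kf, map_ofNat, pderiv_ofNat, Derivation.leibniz, Derivation.leibniz_pow,
    pderiv_X]

theorem aeval_pderiv1 {K : Type*} [CommRing K] [Algebra ℚ K] (z : Fin 5 → K) :
    aeval z (pderiv 1 quartic) = Nf (z 2) (z 3) (z 4) + 3 * z 0 * z 1 ^ 2 := by
  simp [quartic, Nf, Kf, map_ofNat, pderiv_ofNat, Derivation.leibniz, Derivation.leibniz_pow,
    pderiv_X]
  ring

theorem aeval_pderiv2 {K : Type*} [Field K] [CharZero K] [Algebra ℚ K] (z : Fin 5 → K) :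
    aeval z (pderiv 2 quartic) = z 1 * dN 0 (z 2) (z 3) (z 4) - dK 0 (z 2) (z 3) (z 4) := by
  simp [quartic, Nf, Kf, map_ofNat, pderiv_ofNat, Derivation.leibniz, Derivation.leibniz_pow,
    pderiv_X, dN, dK]
  ring

theorem aeval_pderiv3 {K : Type*} [Field K] [CharZero K] [Algebra ℚ K] (z : Fin 5 → K) :
    aeval z (pderiv 3 quartic) = z 1 * dN 1 (z 2) (z 3) (z 4) - dK 1 (z 2) (z 3) (z 4) := by
  simp [quartic, Nf, Kf, map_ofNat, pderiv_ofNat, Derivation.leibniz, Derivation.leibniz_pow,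
    pderiv_X, dN, dK]
  ring

theorem aeval_pderiv4 {K : Type*} [Field K] [CharZero K] [Algebra ℚ K] (z : Fin 5 → K) :
    aeval z (pderiv 4 quartic) = z 1 * dN 2 (z 2) (z 3) (z 4) - dK 2 (z 2) (z 3) (z 4) := by
  simp [quartic, Nf, Kf, map_ofNat, pderiv_ofNat, Derivation.leibniz, Derivation.leibniz_pow,
    pderiv_X, dN, dK]
  ring

theorem quartic_smooth (z : Fin 5 → ℂ) (hz : z ≠ 0) : ∃ i, aeval z (pderiv i quartic) ≠ 0 := by
  by_contra hcon
  push Not at hcon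
  obtain ⟨θ, _, _, hθ⟩ := exists_root
  have hθC : ((θ : ℝ) : ℂ) ^ 3 = 3 * ((θ : ℝ) : ℂ) - 1 := by
    exact_mod_cast congrArg (Complex.ofReal) hθ
  have h0 := hcon 0
  have h1 := hcon 1
  have h2 := hcon 2
  have h3 := hcon 3
  have h4 := hcon 4
  rw [aeval_pderiv0] at h0
  rw [aeval_pderiv1] at h1
  rw [aeval_pderiv2] at h2
  rw [aeval_pderiv3] at h3
  rw [aeval_pderiv4] at h4
  obtain ⟨e1, e2, e3⟩ := smooth_aux hθC (t := z 0) (y := z 1) (a := ![z 2, z 3, z 4]) h0 h1 (by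
    intro i
    fin_cases i
    · exact h2
    · exact h3
    · exact h4)
  apply hz
  ext i
  fin_cases i
  · exact e1
  · exact e2
  · exact congrFun e3 0
  · exact congrFun e3 1
  · exact congrFun e3 2

section irred

open Polynomial in
/-- Eisenstein's criterion at a point of the Klein curve. -/
theorem eisenstein_aux (c0 c1 : MvPolynomial (Fin 4) ℂ) (ψ : MvPolynomial (Fin 4) ℂ →+* ℂ[X])
    (h1 : ψ c1 = 0) (h0 : ψ c0 = -Polynomial.X) :
    Irreducible ((Polynomial.X : Polynomial (MvPolynomial (Fin 4) ℂ)) ^ 4 +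
      Polynomial.C c1 * Polynomial.X + Polynomial.C c0) := by
  set P : Ideal (MvPolynomial (Fin 4) ℂ) := Ideal.comap ψ (Ideal.span {Polynomial.X}) with hP
  have hXp : (Ideal.span {(Polynomial.X : ℂ[X])}).IsPrime :=
    (Ideal.span_singleton_prime Polynomial.X_ne_zero).mpr Polynomial.prime_X
  have hPp : P.IsPrime := Ideal.IsPrime.comap ψ
  have hdeg : ((Polynomial.X : Polynomial (MvPolynomial (Fin 4) ℂ)) ^ 4 +
      Polynomial.C c1 * Polynomial.X + Polynomial.C c0).natDegree = 4 := by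
    compute_degree!
  have hmon : ((Polynomial.X : Polynomial (MvPolynomial (Fin 4) ℂ)) ^ 4 +
      Polynomial.C c1 * Polynomial.X + Polynomial.C c0).Monic := by
    monicity!
  have hdeg' : ((Polynomial.X : Polynomial (MvPolynomial (Fin 4) ℂ)) ^ 4 +
      Polynomial.C c1 * Polynomial.X + Polynomial.C c0).degree = 4 := by
    rw [Polynomial.degree_eq_natDegree hmon.ne_zero, hdeg]; rfl
  have hc1 : c1 ∈ P := by
    rw [hP, Ideal.mem_comap, h1]; exact Ideal.zero_mem _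
  have hc0 : c0 ∈ P := by
    rw [hP, Ideal.mem_comap, h0]
    exact (Ideal.neg_mem_iff _).mpr (Ideal.mem_span_singleton_self _)
  have hc0' : c0 ∉ P ^ 2 := by
    intro h
    have h2 := Ideal.le_comap_pow ψ 2 h
    rw [Ideal.mem_comap, h0, Ideal.span_singleton_pow, Ideal.mem_span_singleton] at h2
    rw [dvd_neg, Polynomial.X_pow_dvd_iff] at h2
    have := h2 1 (by norm_num)
    simp at this
  apply Polynomial.irreducible_of_eisenstein_criterion hPp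
  · rw [hmon.leadingCoeff]
    intro h
    exact hPp.ne_top ((Ideal.eq_top_iff_one P).mpr h)
  · intro n hn
    rw [hdeg'] at hn
    have hn' : n < 4 := by exact_mod_cast hn
    simp only [Polynomial.coeff_add, Polynomial.coeff_X_pow, Polynomial.coeff_C_mul,
      Polynomial.coeff_X, Polynomial.coeff_C]
    interval_cases n
    · simpa using hc0
    · simpa using hc1
    · simp
    · simp
  · rw [hdeg']; norm_num
  · simpa [Polynomial.coeff_X_pow] using hc0'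
  · exact hmon.isPrimitive

theorem lf_lin {K : Type*} [CommRing K] (s u v w u' v' w' x : K) :
    lf s (u + x * u') (v + x * v') (w + x * w') = lf s u v w + x * lf s u' v' w' := by
  unfold lf; ring

theorem lf_C (s u v w : ℂ) : lf (Polynomial.C s) (Polynomial.C u) (Polynomial.C v)
    (Polynomial.C w) = Polynomial.C (lf s u v w) := by
  unfold lf; simp

theorem sh_C (s : ℂ) : sh (Polynomial.C s) = Polynomial.C (sh s) := by
  unfold sh
  rw [Polynomial.C_sub, Polynomial.C_pow]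
  rfl

theorem quartic_irreducible : Irreducible (map (algebraMap ℚ ℂ) quartic) := by
  obtain ⟨θ, _, _, hθ⟩ := exists_root
  have hs : ((θ : ℝ) : ℂ) ^ 3 = 3 * ((θ : ℝ) : ℂ) - 1 := by
    exact_mod_cast congrArg (Complex.ofReal) hθ
  set s : ℂ := ((θ : ℝ) : ℂ)
  rw [← MulEquiv.irreducible_iff (MvPolynomial.finSuccEquiv ℂ 4)]
  have h1 : (MvPolynomial.finSuccEquiv ℂ 4) (map (algebraMap ℚ ℂ) quartic) =
      (Polynomial.X : Polynomial (MvPolynomial (Fin 4) ℂ)) ^ 4 +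
      Polynomial.C (X 0 ^ 3) * Polynomial.X +
        Polynomial.C (X 0 * Nf (X 1) (X 2) (X 3) - Kf (X 1) (X 2) (X 3)) := by
    have e1 : (1 : Fin 5) = Fin.succ 0 := rfl
    have e2 : (2 : Fin 5) = Fin.succ 1 := rfl
    have e3 : (3 : Fin 5) = Fin.succ 2 := rfl
    have e4 : (4 : Fin 5) = Fin.succ 3 := rfl
    simp only [quartic, Nf, Kf, map_add, map_sub, map_mul, map_pow, map_X, map_ofNat, e1, e2, e3,
      e4, MvPolynomial.finSuccEquiv_X_zero, MvPolynomial.finSuccEquiv_X_succ]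
    ring
  rw [h1]
  let ψ : MvPolynomial (Fin 4) ℂ →+* Polynomial ℂ :=
    (MvPolynomial.aeval (![0, Polynomial.C (dl (sh s) 0) + Polynomial.X * Polynomial.C (dl (sh (sh s)) 0),
      Polynomial.C (dl (sh s) 1) + Polynomial.X * Polynomial.C (dl (sh (sh s)) 1),
      Polynomial.C (dl (sh s) 2) + Polynomial.X * Polynomial.C (dl (sh (sh s)) 2)] :
        Fin 4 → Polynomial ℂ) : MvPolynomial (Fin 4) ℂ →ₐ[ℂ] Polynomial ℂ).toRingHom
  have hsC : (Polynomial.C s) ^ 3 = 3 * Polynomial.C s - 1 := by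
    rw [← Polynomial.C_pow, hs, Polynomial.C_sub, Polynomial.C_mul, Polynomial.C_1]
    rfl
  apply eisenstein_aux _ _ ψ
  · show ψ (X 0 ^ 3) = 0
    simp [ψ]
  · have h2 : ψ (X 0 * Nf (X 1) (X 2) (X 3) - Kf (X 1) (X 2) (X 3)) =
        - Kf (Polynomial.C (dl (sh s) 0) + Polynomial.X * Polynomial.C (dl (sh (sh s)) 0))
        (Polynomial.C (dl (sh s) 1) + Polynomial.X * Polynomial.C (dl (sh (sh s)) 1))
        (Polynomial.C (dl (sh s) 2) + Polynomial.X * Polynomial.C (dl (sh (sh s)) 2)) := by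
      simp [ψ, Kf, map_ofNat]
    rw [h2, ← Kf_eq hsC, sh_C, sh_C, lf_lin, lf_lin, lf_lin, lf_C, lf_C, lf_C, lf_C, lf_C, lf_C]
    have e4 : sh (sh (sh (sh s))) = sh s := by rw [sh_sh_sh hs]
    have o1 := orth1 hs
    have o2 := orth2 hs
    have o3 := orth0 (sh_root hs)
    have o4 := orth1 (sh_root hs)
    have o5 := orth2 (sh_root (sh_root hs))
    have o6 := orth0 (sh_root (sh_root hs))
    rw [e4] at o5
    rw [o1, o2, o3, o4, o5, o6]
    simp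

end irred

end Pool.Agent.Hhelper82.Mc
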