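import Mathlib

open Polynomial

namespace Pool.Agent.Hhelper82.Mc

/-- Powers of an algebraic number in terms of a bounded number of powers. -/
theorem pow_reduce (c : ℂ) (hc : IsAlgebraic ℤ c) :
    ∃ D : ℕ, 1 ≤ D ∧ ∃ a : ℤ, a ≠ 0 ∧ ∃ M : ℕ, 1 ≤ M ∧ ∀ n : ℕ, ∃ z : ℕ → ℤ,
      (a : ℂ) ^ n * c ^ n = ∑ k ∈ Finset.range D, (z k : ℂ) * c ^ k ∧ ∀ k, |z k| ≤ (M : ℤ) ^ n := by
  obtain ⟨f, hf0, hf⟩ := hc
  have hdeg : f.natDegree ≠ 0 := by
    intro h
    rw [natDegree_eq_zero] at h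
    obtain ⟨x, rfl⟩ := h
    simp at hf hf0
    exact hf0 hf
  obtain ⟨D', hD'⟩ := Nat.exists_eq_succ_of_ne_zero hdeg
  set H : ℤ := ∑ k ∈ Finset.range (D' + 2), |f.coeff k| with hH
  have hcoef : ∀ k, |f.coeff k| ≤ H := by
    intro k
    by_cases hk : k < D' + 2
    · exact Finset.single_le_sum (f := fun k => |f.coeff k|) (fun i _ => abs_nonneg _)
        (Finset.mem_range.mpr hk)
    · rw [coeff_eq_zero_of_natDegree_lt (by omega), abs_zero]
      exact Finset.sum_nonneg fun i _ => abs_nonneg _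
  have ha : f.leadingCoeff ≠ 0 := leadingCoeff_ne_zero.mpr hf0
  have ha' : f.coeff (D' + 1) ≠ 0 := by
    have : f.leadingCoeff = f.coeff (D'+1) := by rw [leadingCoeff, hD']
    rwa [← this]
  have hH1 : 1 ≤ H := (Int.one_le_abs ha').trans (hcoef _)
  have hrel : (f.coeff (D' + 1) : ℂ) * c ^ (D' + 1) =
      - ∑ k ∈ Finset.range (D' + 1), (f.coeff k : ℂ) * c ^ k := by
    have h1 : aeval c f = ∑ k ∈ Finset.range (D' + 2), (f.coeff k : ℂ) * c ^ k := by
      rw [aeval_eq_sum_range, hD']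
      refine Finset.sum_congr rfl fun k _ => ?_
      simp
    rw [h1, Finset.sum_range_succ] at hf
    linear_combination hf
  refine ⟨D' + 1, by omega, f.coeff (D' + 1), ha', (2 * H).toNat, by omega, ?_⟩
  have hM : (((2 * H).toNat : ℕ) : ℤ) = 2 * H := by
    rw [Int.toNat_of_nonneg]; positivity
  intro n
  rw [hM]
  induction n with
  | zero =>
    refine ⟨fun k => if k = 0 then 1 else 0, ?_, ?_⟩
    · simp
    · intro k
      by_cases hk : k = 0 <;> simp [hk]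
  | succ n ih =>
    obtain ⟨z, hz, hzb⟩ := ih
    refine ⟨fun k => f.coeff (D' + 1) * (if k = 0 then 0 else z (k - 1)) - f.coeff k * z D', ?_, ?_⟩
    · have h1 : ((f.coeff (D' + 1) : ℤ) : ℂ) ^ (n + 1) * c ^ (n + 1) =
          (f.coeff (D' + 1) : ℂ) * c * (((f.coeff (D' + 1) : ℤ) : ℂ) ^ n * c ^ n) := by ring
      rw [h1, hz, Finset.sum_range_succ (fun k => ((z k : ℤ) : ℂ) * c ^ k)]
      have h2 : ∑ k ∈ Finset.range (D' + 1),
          (((f.coeff (D' + 1) * (if k = 0 then 0 else z (k - 1)) - f.coeff k * z D' : ℤ) : ℂ))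
            * c ^ k = (∑ k ∈ Finset.range (D' + 1),
            (f.coeff (D' + 1) : ℂ) * ((if k = 0 then (0:ℤ) else z (k - 1) : ℤ) : ℂ) * c ^ k)
          - (z D' : ℂ) * ∑ k ∈ Finset.range (D' + 1), (f.coeff k : ℂ) * c ^ k := by
        rw [Finset.mul_sum, ← Finset.sum_sub_distrib]
        refine Finset.sum_congr rfl fun k _ => ?_
        push_cast
        ring
      rw [h2, Finset.sum_range_succ']
      simp only [Nat.add_eq_zero_iff, one_ne_zero, and_false, if_false, Nat.add_sub_cancel,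
        if_true, Int.cast_zero, mul_zero, zero_mul, add_zero]
      have h3 : ∑ k ∈ Finset.range D', (f.coeff (D' + 1) : ℂ) * (z k : ℂ) * c ^ (k + 1)
          = (f.coeff (D' + 1) : ℂ) * c * ∑ k ∈ Finset.range D', (z k : ℂ) * c ^ k := by
        rw [Finset.mul_sum]
        refine Finset.sum_congr rfl fun k _ => ?_
        ring
      rw [h3]
      linear_combination (z D' : ℂ) * hrel
    · intro k
      have h1 := hcoef (D' + 1)
      have h2 := hcoef k
      have h3 : |if k = 0 then (0:ℤ) else z (k - 1)| ≤ (2 * H) ^ n := by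
        split_ifs
        · simp only [abs_zero]; positivity
        · exact hzb _
      have h4 := hzb D'
      have hpos : (0:ℤ) ≤ (2 * H) ^ n := by positivity
      calc |f.coeff (D' + 1) * (if k = 0 then 0 else z (k - 1)) - f.coeff k * z D'|
          ≤ |f.coeff (D' + 1) * (if k = 0 then 0 else z (k - 1))| + |f.coeff k * z D'| :=
            abs_sub _ _
        _ = |f.coeff (D' + 1)| * |(if k = 0 then 0 else z (k - 1))| + |f.coeff k| * |z D'| := by
            rw [abs_mul, abs_mul]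
        _ ≤ H * (2 * H) ^ n + H * (2 * H) ^ n := by gcongr
        _ = (2 * H) ^ (n + 1) := by ring

/-- `E` is the value at `(z,w)` of the `m`-th Hasse derivative with respect to the first variable of
`∑ p j i X^(q(R-j)+i) Y^j`. -/
noncomputable def E {K : Type*} [CommRing K] (R q κ : ℕ) (p : ℕ → ℕ → ℤ) (m : ℕ) (z w : K) : K :=
  ∑ j ∈ Finset.range (R + 1), ∑ i ∈ Finset.range (κ + 1),
    (p j i : K) * ((q * (R - j) + i).choose m : K) * z ^ (q * (R - j) + i - m) * w ^ j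

attribute [local instance] Matrix.seminormedAddCommGroup in
theorem siegel (c : ℂ) (hc : IsAlgebraic ℤ c) : ∃ D : ℕ, 1 ≤ D ∧ ∀ R : ℕ, ∃ C : ℝ, 1 ≤ C ∧
    ∀ q κ : ℕ, 1 ≤ q → κ < q → 2 * D * q ≤ (R + 1) * (κ + 1) →
      ∃ p : ℕ → ℕ → ℤ, (∃ j ≤ R, ∃ i ≤ κ, p j i ≠ 0) ∧ (∀ j i, |(p j i : ℝ)| ≤ C ^ q) ∧
        ∀ m < q, E R q κ p m c c = 0 := by
  obtain ⟨D, hD, a, ha, M, hM, hred⟩ := pow_reduce c hc
  refine ⟨D, hD, fun R => ?_⟩
  choose z hz hzb using hred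
  set H : ℝ := (max |a| 1 : ℤ) * (M : ℝ) with hH
  have ha1 : (1:ℝ) ≤ ((max |a| 1 : ℤ) : ℝ) := by exact_mod_cast le_max_right _ _
  have hM1 : (1:ℝ) ≤ (M:ℝ) := by exact_mod_cast hM
  have hH1 : 1 ≤ H := by
    rw [hH]; exact one_le_mul_of_one_le_of_one_le ha1 hM1
  refine ⟨(R + 1) * 2 * 2 ^ (R + 1) * H ^ (2 * R + 1), ?_, ?_⟩
  · have h1 : (1:ℝ) ≤ R + 1 := by linarith [Nat.cast_nonneg (α := ℝ) R]
    have h2 : (1:ℝ) ≤ 2 ^ (R+1) := one_le_pow₀ (by norm_num)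
    have h3 : (1:ℝ) ≤ H ^ (2 * R + 1) := one_le_pow₀ hH1
    have h4 : (1:ℝ) ≤ (R+1) * 2 := by linarith
    exact one_le_mul_of_one_le_of_one_le (one_le_mul_of_one_le_of_one_le h4 h2) h3
  intro q κ hq hκ hcard
  set L : ℕ := q * (2 * R + 1) with hL
  let A : Matrix (Fin q × Fin D) (Fin (R+1) × Fin (κ+1)) ℤ := Matrix.of fun r s =>
    ((q * (R - (s.1:ℕ)) + (s.2:ℕ)).choose (r.1:ℕ) : ℤ) *
      a ^ (L - (q * (R - (s.1:ℕ)) + (s.2:ℕ) - (r.1:ℕ) + (s.1:ℕ))) *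
      z (q * (R - (s.1:ℕ)) + (s.2:ℕ) - (r.1:ℕ) + (s.1:ℕ)) (r.2:ℕ)
  have hexp : ∀ (s : Fin (R+1) × Fin (κ+1)) (r : ℕ),
      q * (R - (s.1:ℕ)) + (s.2:ℕ) - r + (s.1:ℕ) ≤ L := by
    intro s r
    have h1 := s.1.2
    have h2 := s.2.2
    have h3 : q * (R - (s.1:ℕ)) ≤ q * R := Nat.mul_le_mul_left _ (Nat.sub_le _ _)
    have h4 : R ≤ q * R := Nat.le_mul_of_pos_left R hq
    rw [hL]
    have h5 : q * (2 * R + 1) = q * R + q * R + q := by ring
    omega
  have hchoose : ∀ (s : Fin (R+1) × Fin (κ+1)) (r : ℕ),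
      (q * (R - (s.1:ℕ)) + (s.2:ℕ)).choose r ≤ 2 ^ (q * (R+1)) := by
    intro s r
    refine (Nat.choose_le_two_pow _ _).trans (Nat.pow_le_pow_right (by norm_num) ?_)
    have h2 := s.2.2
    have h3 : q * (R - (s.1:ℕ)) ≤ q * R := Nat.mul_le_mul_left _ (Nat.sub_le _ _)
    have h5 : q * (R + 1) = q * R + q := by ring
    omega
  have hAb : ∀ r s, |A r s| ≤ 2 ^ (q * (R+1)) * ((max |a| 1) * (M:ℤ)) ^ L := by
    intro r s
    have h1 := hchoose s (r.1:ℕ)
    have h2 := hexp s (r.1:ℕ)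
    have h3 := hzb (q * (R - (s.1:ℕ)) + (s.2:ℕ) - (r.1:ℕ) + (s.1:ℕ)) (r.2:ℕ)
    simp only [A, Matrix.of_apply]
    rw [abs_mul, abs_mul, abs_pow, mul_assoc, mul_pow]
    have h4 : |((q * (R - (s.1:ℕ)) + (s.2:ℕ)).choose (r.1:ℕ) : ℤ)| ≤ 2 ^ (q * (R+1)) := by
      rw [abs_of_nonneg (by positivity)]
      exact_mod_cast h1
    have h5 : |a| ^ (L - (q * (R - (s.1:ℕ)) + (s.2:ℕ) - (r.1:ℕ) + (s.1:ℕ))) ≤ (max |a| 1) ^ L := by
      calc |a| ^ (L - (q * (R - (s.1:ℕ)) + (s.2:ℕ) - (r.1:ℕ) + (s.1:ℕ)))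
          ≤ (max |a| 1) ^ (L - (q * (R - (s.1:ℕ)) + (s.2:ℕ) - (r.1:ℕ) + (s.1:ℕ))) := by
            gcongr; exact le_max_left _ _
        _ ≤ (max |a| 1) ^ L := pow_le_pow_right₀ (le_max_right _ _) (Nat.sub_le _ _)
    have hM1' : (1:ℤ) ≤ M := by exact_mod_cast hM
    have h6 : |z (q * (R - (s.1:ℕ)) + (s.2:ℕ) - (r.1:ℕ) + (s.1:ℕ)) (r.2:ℕ)| ≤ (M:ℤ) ^ L :=
      h3.trans (pow_le_pow_right₀ hM1' h2)
    have h7 : (0:ℤ) ≤ (max |a| 1) ^ L := by positivity
    gcongr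
  have hc1 : Fintype.card (Fin q × Fin D) = q * D := by simp
  have hc2 : Fintype.card (Fin (R+1) × Fin (κ+1)) = (R+1) * (κ+1) := by simp
  have hlt : Fintype.card (Fin q × Fin D) < Fintype.card (Fin (R+1) × Fin (κ+1)) := by
    rw [hc1, hc2]
    have : 0 < q * D := by positivity
    nlinarith
  obtain ⟨t, ht0, hAt, htn⟩ := Int.Matrix.exists_ne_zero_int_vec_norm_le A hlt (by
    rw [hc1]; positivity)
  have hbase : (1:ℝ) ≤ (Fintype.card (Fin (R+1) × Fin (κ+1)) : ℝ) * max 1 ‖A‖ := by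
    apply one_le_mul_of_one_le_of_one_le
    · rw [hc2]; exact_mod_cast Nat.one_le_iff_ne_zero.mpr (by positivity)
    · exact le_max_left _ _
  have hexp1 : ((Fintype.card (Fin q × Fin D) : ℝ) /
      ((Fintype.card (Fin (R+1) × Fin (κ+1)) : ℝ) - (Fintype.card (Fin q × Fin D) : ℝ))) ≤ 1 := by
    have h1 : (0:ℝ) < (Fintype.card (Fin (R+1) × Fin (κ+1)) : ℝ)
        - (Fintype.card (Fin q × Fin D) : ℝ) := by
      rw [sub_pos]; exact_mod_cast hlt
    rw [div_le_one h1, hc1, hc2]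
    have : (2 * D * q : ℝ) ≤ (R + 1) * (κ + 1) := by exact_mod_cast hcard
    push_cast
    linarith
  have htn2 : ‖t‖ ≤ (Fintype.card (Fin (R+1) × Fin (κ+1)) : ℝ) * max 1 ‖A‖ := by
    refine htn.trans ?_
    calc _ ≤ ((Fintype.card (Fin (R+1) × Fin (κ+1)) : ℝ) * max 1 ‖A‖) ^ (1:ℝ) :=
          Real.rpow_le_rpow_of_exponent_le hbase hexp1
      _ = _ := Real.rpow_one _
  have hAn : ‖A‖ ≤ 2 ^ (q * (R+1)) * H ^ L := by
    rw [Matrix.norm_le_iff (by positivity)]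
    intro r s
    rw [Int.norm_eq_abs]
    have := hAb r s
    rw [hH]
    exact_mod_cast this
  have hAn' : max 1 ‖A‖ ≤ 2 ^ (q * (R+1)) * H ^ L := by
    refine max_le ?_ hAn
    exact one_le_mul_of_one_le_of_one_le (one_le_pow₀ (by norm_num)) (one_le_pow₀ hH1)
  have htb : ‖t‖ ≤ ((R + 1) * 2 * 2 ^ (R + 1) * H ^ (2 * R + 1)) ^ q := by
    refine htn2.trans ?_
    rw [hc2, mul_pow, mul_pow, mul_pow, ← pow_mul, ← pow_mul]
    have h1 : ((R:ℝ) + 1) ≤ ((R:ℝ) + 1) ^ q := by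
      apply le_self_pow₀ _ (by omega)
      linarith [Nat.cast_nonneg (α := ℝ) R]
    have h2 : ((κ:ℝ) + 1) ≤ 2 ^ q := by
      have h21 : q < 2 ^ q := Nat.lt_two_pow_self
      have h22 : κ + 1 ≤ 2 ^ q := by omega
      exact_mod_cast h22
    calc (((R + 1) * (κ + 1) : ℕ) : ℝ) * max 1 ‖A‖
        = ((R:ℝ) + 1) * ((κ:ℝ) + 1) * max 1 ‖A‖ := by push_cast; ring
      _ ≤ ((R:ℝ) + 1) ^ q * 2 ^ q * (2 ^ (q * (R+1)) * H ^ L) := by gcongr
      _ = _ := by rw [hL]; ring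
  refine ⟨fun j i => if h : j < R + 1 ∧ i < κ + 1 then t (⟨j, h.1⟩, ⟨i, h.2⟩) else 0, ?_, ?_, ?_⟩
  · obtain ⟨s, hs⟩ := Function.ne_iff.mp ht0
    refine ⟨s.1, by have := s.1.2; omega, s.2, by have := s.2.2; omega, ?_⟩
    beta_reduce
    rw [dif_pos (⟨s.1.2, s.2.2⟩ : (s.1:ℕ) < R + 1 ∧ (s.2:ℕ) < κ + 1)]
    exact hs
  · intro j i
    beta_reduce
    split_ifs with h
    · have h1 := norm_le_pi_norm t (⟨j, h.1⟩, ⟨i, h.2⟩)
      rw [Int.norm_eq_abs] at h1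
      exact h1.trans htb
    · simp only [Int.cast_zero, abs_zero]
      positivity
  · intro m hm
    have key : (a : ℂ) ^ L * E R q κ (fun j i => if h : j < R + 1 ∧ i < κ + 1 then
        t (⟨j, h.1⟩, ⟨i, h.2⟩) else 0) m c c = 0 := by
      have h1 : (a : ℂ) ^ L * E R q κ (fun j i => if h : j < R + 1 ∧ i < κ + 1 then
          t (⟨j, h.1⟩, ⟨i, h.2⟩) else 0) m c c
          = ∑ k ∈ Finset.range D, (∑ j ∈ Finset.range (R + 1), ∑ i ∈ Finset.range (κ + 1),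
            (((if h : j < R + 1 ∧ i < κ + 1 then t (⟨j, h.1⟩, ⟨i, h.2⟩) else 0 : ℤ) : ℂ) *
            ((q * (R - j) + i).choose m : ℂ) * (a : ℂ) ^ (L - (q * (R - j) + i - m + j)) *
            (z (q * (R - j) + i - m + j) k : ℂ))) * c ^ k := by
        unfold E
        rw [Finset.mul_sum]
        simp_rw [Finset.sum_mul]
        rw [Finset.sum_comm (s := Finset.range D)]
        refine Finset.sum_congr rfl fun j hj => ?_
        rw [Finset.mul_sum, Finset.sum_comm (s := Finset.range D)]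
        refine Finset.sum_congr rfl fun i hi => ?_
        rw [Finset.mem_range] at hj hi
        have h2 := hexp (⟨j, hj⟩, ⟨i, hi⟩) m
        simp only at h2
        have h3 : (a : ℂ) ^ L = (a : ℂ) ^ (L - (q * (R - j) + i - m + j)) *
            (a : ℂ) ^ (q * (R - j) + i - m + j) := by
          rw [← pow_add, Nat.sub_add_cancel h2]
        have h4 := hz (q * (R - j) + i - m + j)
        calc _ = (((if h : j < R + 1 ∧ i < κ + 1 then t (⟨j, h.1⟩, ⟨i, h.2⟩) else 0 : ℤ) : ℂ)) *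
              ((q * (R - j) + i).choose m : ℂ) * (a : ℂ) ^ (L - (q * (R - j) + i - m + j)) *
              ((a : ℂ) ^ (q * (R - j) + i - m + j) * c ^ (q * (R - j) + i - m + j)) := by
                rw [h3]; ring
          _ = _ := by
            rw [h4, Finset.mul_sum]
            refine Finset.sum_congr rfl fun k _ => ?_
            ring
      rw [h1]
      refine Finset.sum_eq_zero fun k hk => ?_
      rw [Finset.mem_range] at hk
      have h5 := congrFun hAt (⟨m, hm⟩, ⟨k, hk⟩)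
      have h6 : ∑ j ∈ Finset.range (R + 1), ∑ i ∈ Finset.range (κ + 1),
            (((if h : j < R + 1 ∧ i < κ + 1 then t (⟨j, h.1⟩, ⟨i, h.2⟩) else 0 : ℤ) : ℂ) *
            ((q * (R - j) + i).choose m : ℂ) * (a : ℂ) ^ (L - (q * (R - j) + i - m + j)) *
            (z (q * (R - j) + i - m + j) k : ℂ)) =
          (((A.mulVec t) (⟨m, hm⟩, ⟨k, hk⟩) : ℤ) : ℂ) := by
        rw [Matrix.mulVec, dotProduct, Fintype.sum_prod_type, Finset.sum_range]
        push_cast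
        refine Finset.sum_congr rfl fun j _ => ?_
        rw [Finset.sum_range]
        refine Finset.sum_congr rfl fun i _ => ?_
        rw [dif_pos ⟨j.2, i.2⟩]
        simp only [A, Matrix.of_apply]
        push_cast
        ring
      rw [h6, h5]
      simp
    have ha' : (a : ℂ) ^ L ≠ 0 := pow_ne_zero _ (by exact_mod_cast ha)
    exact (mul_eq_zero.mp key).resolve_left ha'

end Pool.Agent.Hhelper82.Mc
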