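import Pool.Agent.Hhelper82.Mc.Bounds

open Polynomial

namespace Pool.Agent.Hhelper82.Mc

theorem abs_pow_le_exp {x t : ℝ} (h : |x| ≤ Real.exp t) (n : ℕ) : |x| ^ n ≤ Real.exp (n * t) := by
  rw [Real.exp_nat_mul]
  gcongr

theorem Hm_bound_of {R q κ : ℕ} (hκ : κ < q) (p : ℕ → ℕ → ℤ) {C₁ : ℝ}
    (hp : ∀ j i, |(p j i : ℝ)| ≤ C₁ ^ q) (hC : 1 ≤ C₁) (m : ℕ) {X₁ X₂ Y₁ Y₂ t₁ t₂ s₁ s₂ L : ℝ}
    (hX₁ : |X₁| ≤ Real.exp t₁) (hX₂ : |X₂| ≤ Real.exp t₂) (hY₁ : |Y₁| ≤ Real.exp s₁)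
    (hY₂ : |Y₂| ≤ Real.exp s₂)
    (hL : ∀ j ≤ R, ∀ i ≤ κ, m ≤ q * (R - j) + i →
      ((q * (R - j) + i - m : ℕ) : ℝ) * t₁ + ((q * j + (κ - i) : ℕ) : ℝ) * t₂ + (j : ℝ) * s₁ +
        ((R - j : ℕ) : ℝ) * s₂ ≤ L) :
    |Hm R q κ p m X₁ X₂ Y₁ Y₂| ≤ (C₁ * 2 ^ (2 * R + 2)) ^ q * Real.exp L := by
  have key : ‖Hm R q κ p m X₁ X₂ Y₁ Y₂‖ ≤ 2 ^ (R * q) * 2 ^ q *
      (C₁ ^ q * 2 ^ (q * (R + 1)) * Real.exp L) := by
    unfold Hm
    apply double_sum_bound hκ _ (by positivity)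
    intro j hj i hi
    by_cases hm : m ≤ q * (R - j) + i
    · rw [Real.norm_eq_abs, abs_mul, abs_mul]
      have h1 := hp j i
      have h2 : |(((q * (R - j) + i).choose m : ℕ) : ℝ)| ≤ 2 ^ (q * (R + 1)) := by
        rw [abs_of_nonneg (by positivity)]
        exact choose_bound hκ hi j m
      have h3 : |X₁ ^ (q * (R - j) + i - m) * X₂ ^ (q * j + (κ - i)) * Y₁ ^ j * Y₂ ^ (R - j)| ≤
          Real.exp L := by
        rw [abs_mul, abs_mul, abs_mul, abs_pow, abs_pow, abs_pow, abs_pow]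
        have h4 := abs_pow_le_exp hX₁ (q * (R - j) + i - m)
        have h5 := abs_pow_le_exp hX₂ (q * j + (κ - i))
        have h6 := abs_pow_le_exp hY₁ j
        have h7 := abs_pow_le_exp hY₂ (R - j)
        calc _ ≤ Real.exp (((q * (R - j) + i - m : ℕ) : ℝ) * t₁) *
              Real.exp (((q * j + (κ - i) : ℕ) : ℝ) * t₂) * Real.exp ((j : ℝ) * s₁) *
              Real.exp (((R - j : ℕ) : ℝ) * s₂) := by gcongr
          _ = Real.exp (((q * (R - j) + i - m : ℕ) : ℝ) * t₁ +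
              ((q * j + (κ - i) : ℕ) : ℝ) * t₂ + (j : ℝ) * s₁ + ((R - j : ℕ) : ℝ) * s₂) := by
            rw [← Real.exp_add, ← Real.exp_add, ← Real.exp_add]
          _ ≤ _ := Real.exp_le_exp.mpr (hL j (by omega) i (by omega) hm)
      gcongr
    · rw [Nat.choose_eq_zero_of_lt (by omega)]
      simp only [Nat.cast_zero, mul_zero, zero_mul, norm_zero]
      positivity
  rw [Real.norm_eq_abs] at key
  refine key.trans (le_of_eq ?_)
  rw [mul_pow, ← pow_mul]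
  ring

theorem Hm_bound1 {R q κ : ℕ} (hκ : κ < q) (p : ℕ → ℕ → ℤ) {C₁ : ℝ}
    (hp : ∀ j i, |(p j i : ℝ)| ≤ C₁ ^ q) (hC : 1 ≤ C₁) (m : ℕ) {X₁ X₂ Y₁ Y₂ T₁ T₂ ε : ℝ}
    (hε0 : 0 ≤ ε) (hε1 : ε ≤ 1) (hT₁ : 0 ≤ T₁) (hq1 : q * T₁ ≤ T₂) (hq2 : T₂ ≤ (q + 1) * T₁)
    (hX₁ : |X₁| ≤ Real.exp T₁) (hX₂ : |X₂| ≤ Real.exp (-((2 - ε) * T₁)))
    (hY₁ : |Y₁| ≤ Real.exp T₂) (hY₂ : |Y₂| ≤ Real.exp (-((2 - ε) * T₂))) :
    |Hm R q κ p m X₁ X₂ Y₁ Y₂| ≤ (C₁ * 2 ^ (2 * R + 2)) ^ q *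
      Real.exp (-((1 - ε) * R * T₂) + κ * T₁ + 2 * R * T₁) := by
  apply Hm_bound_of hκ p hp hC m hX₁ hX₂ hY₁ hY₂
  intro j hj i hi hm
  have hjR : ((R - j : ℕ) : ℝ) = (R : ℝ) - j := by rw [Nat.cast_sub hj]
  have hj0 : (0 : ℝ) ≤ j := Nat.cast_nonneg j
  have hjR' : (j : ℝ) ≤ R := by exact_mod_cast hj
  have hR0 : (0:ℝ) ≤ (R : ℝ) - j := by linarith
  have ha : ((q * (R - j) + i - m : ℕ) : ℝ) ≤ q * ((R : ℝ) - j) + κ := by
    rw [← hjR]
    exact_mod_cast (by omega : q * (R - j) + i - m ≤ q * (R - j) + κ)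
  have hb : (q : ℝ) * j ≤ ((q * j + (κ - i) : ℕ) : ℝ) := by
    exact_mod_cast (by omega : q * j ≤ q * j + (κ - i))
  have e1 : ((q * (R - j) + i - m : ℕ) : ℝ) * T₁ ≤ ((R : ℝ) - j) * T₂ + κ * T₁ := by
    have h1 := mul_le_mul_of_nonneg_right ha hT₁
    have h2 := mul_le_mul_of_nonneg_left hq1 hR0
    nlinarith
  have h2ε : (0:ℝ) ≤ 2 - ε := by linarith
  have e2 : (j:ℝ) * ((2 - ε) * T₂) - 2 * R * T₁ ≤ ((q * j + (κ - i) : ℕ) : ℝ) * ((2 - ε) * T₁) := by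
    have h1 := mul_le_mul_of_nonneg_right hb (mul_nonneg h2ε hT₁)
    have h3 : (j:ℝ) * (2 - ε) * T₂ ≤ (j:ℝ) * (2 - ε) * ((q + 1) * T₁) :=
      mul_le_mul_of_nonneg_left hq2 (mul_nonneg hj0 h2ε)
    have h4 : (j:ℝ) * (2 - ε) * T₁ ≤ 2 * R * T₁ := by
      apply mul_le_mul_of_nonneg_right _ hT₁
      nlinarith
    nlinarith
  rw [hjR]
  nlinarith

theorem Hm_bound2 {R q κ : ℕ} (hκ : κ < q) (p : ℕ → ℕ → ℤ) {C₁ : ℝ}
    (hp : ∀ j i, |(p j i : ℝ)| ≤ C₁ ^ q) (hC : 1 ≤ C₁) (m : ℕ) {X₁ X₂ Y₁ Y₂ T₁ T₂ ε : ℝ}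
    (hε0 : 0 ≤ ε) (hε1 : ε ≤ 1) (hT₁ : 0 ≤ T₁) (hq1 : q * T₁ ≤ T₂) (hq2 : T₂ ≤ (q + 1) * T₁)
    (hX₁ : |X₁| ≤ Real.exp (-((2 - ε) * T₁))) (hX₂ : |X₂| ≤ Real.exp T₁)
    (hY₁ : |Y₁| ≤ Real.exp (-((2 - ε) * T₂))) (hY₂ : |Y₂| ≤ Real.exp T₂) :
    |Hm R q κ p m X₁ X₂ Y₁ Y₂| ≤ (C₁ * 2 ^ (2 * R + 2)) ^ q *
      Real.exp (-((1 - ε) * R * T₂) + κ * T₁ + 2 * R * T₁ + 2 * m * T₁) := by
  apply Hm_bound_of hκ p hp hC m hX₁ hX₂ hY₁ hY₂
  intro j hj i hi hm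
  have hjR : ((R - j : ℕ) : ℝ) = (R : ℝ) - j := by rw [Nat.cast_sub hj]
  have hj0 : (0 : ℝ) ≤ j := Nat.cast_nonneg j
  have hm0 : (0 : ℝ) ≤ m := Nat.cast_nonneg m
  have hjR' : (j : ℝ) ≤ R := by exact_mod_cast hj
  have hR0 : (0:ℝ) ≤ (R : ℝ) - j := by linarith
  have h2ε : (0:ℝ) ≤ 2 - ε := by linarith
  have ha : q * ((R : ℝ) - j) - m ≤ ((q * (R - j) + i - m : ℕ) : ℝ) := by
    rw [Nat.cast_sub hm, ← hjR]
    push_cast
    have : (0:ℝ) ≤ i := Nat.cast_nonneg i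
    linarith
  have hb : ((q * j + (κ - i) : ℕ) : ℝ) ≤ (q : ℝ) * j + κ := by
    exact_mod_cast (by omega : q * j + (κ - i) ≤ q * j + κ)
  have e1 : ((R : ℝ) - j) * ((2 - ε) * T₂) - 2 * R * T₁ - 2 * m * T₁ ≤
      ((q * (R - j) + i - m : ℕ) : ℝ) * ((2 - ε) * T₁) := by
    have h1 := mul_le_mul_of_nonneg_right ha (mul_nonneg h2ε hT₁)
    have h3 : ((R : ℝ) - j) * (2 - ε) * T₂ ≤ ((R : ℝ) - j) * (2 - ε) * ((q + 1) * T₁) :=
      mul_le_mul_of_nonneg_left hq2 (mul_nonneg hR0 h2ε)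
    have h4 : ((R : ℝ) - j) * (2 - ε) * T₁ ≤ 2 * R * T₁ := by
      apply mul_le_mul_of_nonneg_right _ hT₁
      nlinarith
    have h5 : (m : ℝ) * ((2 - ε) * T₁) ≤ 2 * m * T₁ := by
      nlinarith [mul_nonneg (mul_nonneg hm0 hε0) hT₁]
    nlinarith
  have e2 : ((q * j + (κ - i) : ℕ) : ℝ) * T₁ ≤ j * T₂ + κ * T₁ := by
    have h1 := mul_le_mul_of_nonneg_right hb hT₁
    have h2 := mul_le_mul_of_nonneg_left hq1 hj0
    nlinarith
  rw [hjR]
  nlinarith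

section transfer

variable (S : Subring (Fin 3 → ℝ)) (hshift : ∀ x ∈ S, (fun k => x (k + 1)) ∈ S)
  (hnorm : ∀ x ∈ S, x ≠ 0 → 1 ≤ |x 0 * x 1 * x 2|)

include hnorm in
theorem ne_zero_of_mem {x : Fin 3 → ℝ} (hx : x ∈ S) (hx0 : x ≠ 0) :
    x 0 ≠ 0 ∧ x 1 ≠ 0 ∧ x 2 ≠ 0 := by
  have h := hnorm x hx hx0
  refine ⟨?_, ?_, ?_⟩ <;>
  · intro h0
    rw [h0] at h
    norm_num at h

include hshift hnorm in
theorem transfer {x : Fin 3 → ℝ} (hx : x ∈ S) (hx0 : x ≠ 0) (Q : ℤ[X])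
    (hQ : aeval (x 1 / x 2) Q = 0) : aeval (x 2 / x 0) Q = 0 := by
  obtain ⟨h0, h1, h2⟩ := ne_zero_of_mem S hnorm hx hx0
  have hx1 := hshift x hx
  have hx2 := hshift _ hx1
  set n := Q.natDegree with hn
  set b : Fin 3 → ℝ := ∑ i ∈ Finset.range (n + 1),
    ((Q.coeff i : ℤ) : Fin 3 → ℝ) * ((fun k => x (k + 1)) ^ i * (fun k => x (k + 1 + 1)) ^ (n - i))
    with hb
  have hbS : b ∈ S := by
    refine S.sum_mem fun i _ => ?_
    exact S.mul_mem (intCast_mem S _) (S.mul_mem (S.pow_mem hx1 _) (S.pow_mem hx2 _))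
  have hbk : ∀ k, x (k + 1 + 1) ≠ 0 →
      b k = x (k + 1 + 1) ^ n * aeval (x (k + 1) / x (k + 1 + 1)) Q := by
    intro k hk
    rw [hb, Finset.sum_apply, aeval_eq_sum_range, Finset.mul_sum]
    refine Finset.sum_congr rfl fun i hi => ?_
    rw [Finset.mem_range] at hi
    have hni : n = (n - i) + i := by omega
    simp only [Pi.mul_apply, Pi.intCast_apply, Pi.pow_apply, zsmul_eq_mul, div_pow]
    have h3 : x (k + 1 + 1) ^ n = x (k + 1 + 1) ^ (n - i) * x (k + 1 + 1) ^ i := by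
      rw [← pow_add, ← hni]
    rw [h3]
    field_simp
  have hb0 : b 0 = 0 := by
    rw [hbk 0 (by simpa using h2)]
    have : aeval (x (0 + 1) / x (0 + 1 + 1)) Q = 0 := by simpa using hQ
    rw [this, mul_zero]
  have hbz : b = 0 := by
    by_contra hne
    exact (ne_zero_of_mem S hnorm hbS hne).1 hb0
  have hb1 : b 1 = x 0 ^ n * aeval (x 2 / x 0) Q := hbk 1 (by simpa using h0)
  rw [hbz, Pi.zero_apply] at hb1
  exact (mul_eq_zero.mp hb1.symm).resolve_left (pow_ne_zero _ h0)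

end transfer

theorem transfer_dvd {u ρ : ℝ} (h : ∀ Q : ℤ[X], aeval u Q = 0 → aeval ρ Q = 0) (W : ℤ[X]) (e : ℕ)
    (hW : (X - C u) ^ e ∣ W.map (Int.castRingHom ℝ)) :
    (X - C ρ) ^ e ∣ W.map (Int.castRingHom ℝ) := by
  rw [X_sub_C_pow_dvd_iff_hasse] at hW ⊢
  intro i hi
  have h1 := hW i hi
  rw [hasseDeriv_map'] at h1 ⊢
  rw [eval_map] at h1 ⊢
  exact h _ h1

/-- The integer polynomial attached to the exponent `j` of the second variable. -/
noncomputable def Pj (R q κ : ℕ) (p : ℕ → ℕ → ℤ) (j : ℕ) : ℤ[X] :=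
  ∑ i ∈ Finset.range (κ + 1), monomial (q * (R - j) + i) (p j i)

theorem Pj_natDegree {R q κ : ℕ} (p : ℕ → ℕ → ℤ) (j : ℕ) (h : Pj R q κ p j ≠ 0) :
    q * (R - j) ≤ (Pj R q κ p j).natDegree ∧ (Pj R q κ p j).natDegree ≤ q * (R - j) + κ := by
  constructor
  · by_contra hlt
    push Not at hlt
    have h1 : (Pj R q κ p j).coeff (Pj R q κ p j).natDegree = 0 := by
      generalize (Pj R q κ p j).natDegree = N at hlt
      rw [Pj, finsetSum_coeff]
      refine Finset.sum_eq_zero fun i _ => ?_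
      rw [coeff_monomial, if_neg (by omega)]
    exact h (leadingCoeff_eq_zero.mp h1)
  · unfold Pj
    refine natDegree_sum_le_of_forall_le _ _ fun i hi => ?_
    refine (natDegree_monomial_le _).trans ?_
    rw [Finset.mem_range] at hi
    omega

theorem eul_iter_Pj (R q κ : ℕ) (p : ℕ → ℕ → ℤ) (j k : ℕ) :
    eul^[k] (Pj R q κ p j) = ∑ i ∈ Finset.range (κ + 1),
      monomial (q * (R - j) + i) (((q * (R - j) + i : ℕ) : ℤ) ^ k * p j i) := by
  ext N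
  rw [coeff_eul_iter, Pj, finsetSum_coeff, finsetSum_coeff, Finset.mul_sum]
  refine Finset.sum_congr rfl fun i _ => ?_
  rw [coeff_monomial, coeff_monomial]
  split_ifs with h
  · rw [h]
  · simp

theorem zero_bound {R q κ : ℕ} (hκ : κ < q) (p : ℕ → ℕ → ℤ) {C₁ : ℝ}
    (hp : ∀ j i, |(p j i : ℝ)| ≤ C₁ ^ q) (hC : 1 ≤ C₁) (hne : ∃ j ≤ R, ∃ i ≤ κ, p j i ≠ 0)
    {u w ρ : ℝ} (hw : w ≠ 0) (htr : ∀ Q : ℤ[X], aeval u Q = 0 → aeval ρ Q = 0) {m : ℕ}
    (hE : ∀ i < m, E R q κ p i u w = 0) :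
    |ρ| ^ (m - R) ≤ ((Nat.factorial (R + 1) : ℝ) * (C₁ * 2 ^ (R * (R + 1) + 1)) ^ (R + 1)) ^ q := by
  classical
  have hq : 1 ≤ q := by omega
  set s : Finset ℕ := (Finset.range (R + 1)).filter (fun j => Pj R q κ p j ≠ 0) with hs
  have hsne : 0 < s.card := by
    rw [Finset.card_pos]
    obtain ⟨j, hj, i, hi, hpij⟩ := hne
    refine ⟨j, ?_⟩
    rw [hs, Finset.mem_filter, Finset.mem_range]
    refine ⟨by omega, ?_⟩
    intro h0
    have h1 : (Pj R q κ p j).coeff (q * (R - j) + i) = p j i := by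
      rw [Pj, finsetSum_coeff, Finset.sum_eq_single i]
      · rw [coeff_monomial, if_pos rfl]
      · intro b _ hb
        rw [coeff_monomial, if_neg (by omega)]
      · intro hi'
        rw [Finset.mem_range] at hi'
        omega
    rw [h0, coeff_zero] at h1
    exact hpij h1.symm
  have hscard : s.card ≤ R + 1 := by
    refine (Finset.card_filter_le _ _).trans ?_
    rw [Finset.card_range]
  let e : Fin s.card ↪o ℕ := s.orderEmbOfFin rfl
  have he : ∀ l, e l ∈ s := fun l => s.orderEmbOfFin_mem rfl l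
  have he' : ∀ l, e l < R + 1 ∧ Pj R q κ p (e l) ≠ 0 := by
    intro l
    have h1 : ∀ x ∈ s, x < R + 1 ∧ Pj R q κ p x ≠ 0 := by
      intro x hx
      rw [hs, Finset.mem_filter, Finset.mem_range] at hx
      exact hx
    exact h1 _ (he l)
  have hinj : Function.Injective fun l => (Pj R q κ p (e l)).natDegree := by
    intro a b hab
    have hab' : (Pj R q κ p (e a)).natDegree = (Pj R q κ p (e b)).natDegree := hab
    obtain ⟨ha1, ha2⟩ := he' a
    obtain ⟨hb1, hb2⟩ := he' b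
    obtain ⟨ha3, ha4⟩ := Pj_natDegree p (e a) ha2
    obtain ⟨hb3, hb4⟩ := Pj_natDegree p (e b) hb2
    apply e.injective
    by_contra hne'
    rcases Nat.lt_or_gt_of_ne hne' with hlt | hlt
    · have h1 : q * (R - e b) + q ≤ q * (R - e a) := by
        rw [← Nat.mul_succ]
        apply Nat.mul_le_mul_left
        omega
      omega
    · have h1 : q * (R - e a) + q ≤ q * (R - e b) := by
        rw [← Nat.mul_succ]
        apply Nat.mul_le_mul_left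
        omega
      omega
  have hdiv : (X - C u) ^ m ∣ ∑ l, (Pj R q κ p (e l)).map (Int.castRingHom ℝ) * C (w ^ (e l)) := by
    have h1 : ∑ l, (Pj R q κ p (e l)).map (Int.castRingHom ℝ) * C (w ^ (e l)) = G R q κ p w := by
      have h2 : ∑ l, (Pj R q κ p (e l)).map (Int.castRingHom ℝ) * C (w ^ (e l)) =
          ∑ j ∈ s, (Pj R q κ p j).map (Int.castRingHom ℝ) * C (w ^ j) := by
        have h3 : s = Finset.univ.map e.toEmbedding := by
          ext x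
          simp only [Finset.mem_map, Finset.mem_univ, true_and, RelEmbedding.coe_toEmbedding]
          constructor
          · intro hx
            have : x ∈ Set.range (s.orderEmbOfFin rfl) := by
              rw [Finset.range_orderEmbOfFin]; exact hx
            exact this
          · rintro ⟨l, rfl⟩
            exact he l
        conv_rhs => rw [h3]
        rw [Finset.sum_map]
        rfl
      rw [h2, hs, Finset.sum_filter, G]
      refine Finset.sum_congr rfl fun j _ => ?_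
      have h4 : (Pj R q κ p j).map (Int.castRingHom ℝ) * C (w ^ j) =
          ∑ i ∈ Finset.range (κ + 1), monomial (q * (R - j) + i) ((p j i : ℝ) * w ^ j) := by
        rw [Pj, Polynomial.map_sum, Finset.sum_mul]
        refine Finset.sum_congr rfl fun i _ => ?_
        rw [map_monomial, monomial_mul_C]
        simp
      split_ifs with h5
      · exact h4
      · push Not at h5
        rw [← h4, h5]
        simp
    rw [h1, X_sub_C_pow_dvd_iff_hasse]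
    intro i hi
    rw [← E_eq]
    exact hE i hi
  have hB1 : (1:ℝ) ≤ (C₁ * 2 ^ (R * (R + 1) + 1)) ^ q := by
    apply one_le_pow₀
    exact one_le_mul_of_one_le_of_one_le hC (one_le_pow₀ (by norm_num))
  obtain ⟨W, hW0, hWd, hWb⟩ := zero_estimate hsne hscard (fun l => Pj R q κ p (e l))
    (fun l => (he' l).2) hinj (fun l => w ^ (e l)) (fun l => pow_ne_zero _ hw) u m hdiv hB1 (by
      intro l i hi z hz
      rw [eul_iter_Pj, Polynomial.map_sum, eval_finsetSum]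
      have h1 : ∀ k ∈ Finset.range (κ + 1),
          ‖(Polynomial.map (Int.castRingHom ℂ) (monomial (q * (R - e l) + k)
            (((q * (R - e l) + k : ℕ) : ℤ) ^ i * p (e l) k))).eval z‖ ≤
          (2 ^ (q * (R + 1))) ^ R * C₁ ^ q := by
        intro k hk
        rw [Finset.mem_range] at hk
        rw [map_monomial, eval_monomial, norm_mul, norm_pow, hz, one_pow, mul_one]
        have h2 : (Int.castRingHom ℂ) (((q * (R - e l) + k : ℕ) : ℤ) ^ i * p (e l) k) =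
            ((q * (R - e l) + k : ℕ) : ℂ) ^ i * ((p (e l) k : ℤ) : ℂ) := by
          simp
        rw [h2, norm_mul, norm_pow, Complex.norm_intCast, Complex.norm_natCast]
        have h3 : ((q * (R - e l) + k : ℕ) : ℝ) ≤ 2 ^ (q * (R + 1)) := by
          have h31 := two_pow_ge (q * (R + 1))
          have h32 : ((q * (R - e l) + k : ℕ) : ℝ) ≤ ((q * (R + 1) : ℕ) : ℝ) + 1 := by
            have h33 : q * (R - e l) ≤ q * R := Nat.mul_le_mul_left _ (Nat.sub_le _ _)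
            have h34 : q * (R + 1) = q * R + q := by ring
            exact_mod_cast (by omega : q * (R - e l) + k ≤ q * (R + 1) + 1)
          linarith
        have h4 : ((q * (R - e l) + k : ℕ) : ℝ) ^ i ≤ (2 ^ (q * (R + 1))) ^ R := by
          calc ((q * (R - e l) + k : ℕ) : ℝ) ^ i ≤ (2 ^ (q * (R + 1))) ^ i := by gcongr
            _ ≤ (2 ^ (q * (R + 1))) ^ R :=
              pow_le_pow_right₀ (one_le_pow₀ (by norm_num)) hi
        have h5 := hp (e l) k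
        gcongr
      refine (norm_sum_le_of_le _ h1).trans ?_
      rw [Finset.sum_const, Finset.card_range, nsmul_eq_mul]
      have h6 : ((κ + 1 : ℕ) : ℝ) ≤ 2 ^ q := by
        have h61 := two_pow_ge q
        have h62 : ((κ + 1 : ℕ) : ℝ) ≤ (q : ℝ) + 1 := by
          exact_mod_cast (by omega : κ + 1 ≤ q + 1)
        linarith
      calc ((κ + 1 : ℕ) : ℝ) * ((2 ^ (q * (R + 1))) ^ R * C₁ ^ q)
          ≤ 2 ^ q * ((2 ^ (q * (R + 1))) ^ R * C₁ ^ q) := by gcongr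
        _ = (C₁ * 2 ^ (R * (R + 1) + 1)) ^ q := by
          rw [mul_pow, ← pow_mul, ← pow_mul]; ring)
  have h1 := transfer_dvd htr W (m - R) hWd
  have h2 : (X - C ((ρ : ℝ) : ℂ)) ^ (m - R) ∣ W.map (Int.castRingHom ℂ) := by
    have h3 := Polynomial.map_dvd Complex.ofRealHom h1
    rw [Polynomial.map_pow, Polynomial.map_sub, map_X, map_C, map_map] at h3
    have h4 : (Complex.ofRealHom.comp (Int.castRingHom ℝ)) = Int.castRingHom ℂ :=
      RingHom.ext_int _ _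
    rw [h4] at h3
    exact h3
  have h3 := pow_le_of_dvd W hW0 _ _ h2 (B := (Nat.factorial (R + 1) : ℝ) *
    ((C₁ * 2 ^ (R * (R + 1) + 1)) ^ q) ^ (R + 1)) (by positivity) hWb
  rw [Complex.norm_real, Real.norm_eq_abs] at h3
  refine h3.trans ?_
  rw [mul_pow (Nat.factorial (R + 1) : ℝ), ← pow_mul, ← pow_mul, mul_comm (R + 1) q]
  have h4 : (Nat.factorial (R + 1) : ℝ) ≤ (Nat.factorial (R + 1) : ℝ) ^ q := by
    apply le_self_pow₀ _ (by omega)
    exact_mod_cast Nat.one_le_iff_ne_zero.mpr (Nat.factorial_ne_zero _)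
  gcongr

end Pool.Agent.Hhelper82.Mc
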