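import Pool.Agent.Hhelper82.Mc.Thue

open Polynomial

namespace Pool.Agent.Hhelper82.Mc

theorem Hm_map {K L : Type*} [CommRing K] [CommRing L] (f : K →+* L) (R q κ : ℕ)
    (p : ℕ → ℕ → ℤ) (m : ℕ) (X₁ X₂ Y₁ Y₂ : K) :
    f (Hm R q κ p m X₁ X₂ Y₁ Y₂) = Hm R q κ p m (f X₁) (f X₂) (f Y₁) (f Y₂) := by
  unfold Hm
  simp [map_sum]

theorem E_map {K L : Type*} [CommRing K] [CommRing L] (f : K →+* L) (R q κ : ℕ)
    (p : ℕ → ℕ → ℤ) (m : ℕ) (z w : K) :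
    f (E R q κ p m z w) = E R q κ p m (f z) (f w) := by
  unfold E
  simp [map_sum]

theorem Hm_mem {K : Type*} [CommRing K] (S : Subring K) (R q κ : ℕ)
    (p : ℕ → ℕ → ℤ) (m : ℕ) {X₁ X₂ Y₁ Y₂ : K} (h1 : X₁ ∈ S) (h2 : X₂ ∈ S) (h3 : Y₁ ∈ S)
    (h4 : Y₂ ∈ S) : Hm R q κ p m X₁ X₂ Y₁ Y₂ ∈ S := by
  unfold Hm
  refine S.sum_mem fun j _ => S.sum_mem fun i _ => ?_
  refine S.mul_mem (S.mul_mem (intCast_mem S _) (natCast_mem S _)) ?_
  exact S.mul_mem (S.mul_mem (S.mul_mem (S.pow_mem h1 _) (S.pow_mem h2 _)) (S.pow_mem h3 _))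
    (S.pow_mem h4 _)

/-- the numerical heart -/
theorem final_ineq {δ R q κ m T₁ T₂ ε l : ℝ} (hδ : 0 < δ) (hδ1 : δ ≤ 1) (hR : 0 ≤ R) (hq : 1 ≤ q)
    (hm0 : 0 ≤ m) (hT₁ : 1 ≤ T₁) (hq1 : q * T₁ ≤ T₂) (hq2 : T₂ ≤ (q + 1) * T₁)
    (hκ : κ ≤ δ * q / 16) (hm : m ≤ R + δ * q / 32) (hε : 2 * ε * R ≤ δ / 16)
    (hl : 48 * l ≤ δ * T₁) (hbig : 64 * (R + 1) ≤ δ * q) :
    1 + 3 * (q * l) + ((q * R + κ) * T₁ + R * T₂ - δ * T₁ * (q - m)) +
      (-((1 - ε) * R * T₂) + κ * T₁ + 2 * R * T₁) +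
      (-((1 - ε) * R * T₂) + κ * T₁ + 2 * R * T₁ + 2 * m * T₁) < 0 := by
  have hT0 : 0 ≤ T₁ := by linarith
  have hT2 : 0 ≤ T₂ := le_trans (by positivity) hq1
  have e1 : q * R * T₁ ≤ R * T₂ := by nlinarith [mul_le_mul_of_nonneg_left hq1 hR]
  have e2 : 3 * κ * T₁ ≤ 3 * (δ * q / 16) * T₁ := by nlinarith [mul_le_mul_of_nonneg_right hκ hT0]
  have e3 : 2 * ε * R * T₂ ≤ δ / 16 * T₂ := mul_le_mul_of_nonneg_right hε hT2
  have e4 : δ / 16 * T₂ ≤ δ / 16 * (2 * q * T₁) := by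
    apply mul_le_mul_of_nonneg_left _ (by positivity)
    nlinarith
  have e5 : (2 + δ) * m * T₁ ≤ 3 * (R + δ * q / 32) * T₁ := by
    apply mul_le_mul_of_nonneg_right _ hT0
    nlinarith
  have e6 : 3 * (q * l) ≤ δ * q / 16 * T₁ := by
    have : 48 * l * q ≤ δ * T₁ * q := mul_le_mul_of_nonneg_right hl (by linarith)
    linarith
  have e7 : (-(17 / 32) * (δ * q) + 7 * R + 1) * T₁ < 0 := by
    apply mul_neg_of_neg_of_pos _ (by linarith)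
    linarith
  nlinarith

theorem thue_aux (S : Subring (Fin 3 → ℝ)) (hshift : ∀ x ∈ S, (fun k => x (k + 1)) ∈ S)
    (hnorm : ∀ x ∈ S, x ≠ 0 → 1 ≤ |x 0 * x 1 * x 2|) (c : ℂ) (hc : IsAlgebraic ℤ c) (δ : ℝ)
    (hδ : 0 < δ) (hδ1 : δ ≤ 1) :
    ∃ ε : ℝ, 0 < ε ∧ ∃ T₀ : ℝ, ∀ T, T₀ ≤ T → ∀ x ∈ S, x ≠ 0 →
      |x 0| ≤ Real.exp (-((2 - ε) * T)) → |x 1| ≤ Real.exp T → |x 2| ≤ Real.exp T →
      Real.exp (-(δ * T)) < ‖((x 1 / x 2 : ℝ) : ℂ) - c‖ := by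
  obtain ⟨D, hD, hsieg⟩ := siegel c hc
  set R : ℕ := ⌈32 * D / δ⌉₊ with hRdef
  obtain ⟨C, hC1, hS⟩ := hsieg R
  have hR1 : (0:ℝ) < (R:ℝ) + 1 := by positivity
  set ε : ℝ := δ / (32 * (R + 1)) with hεdef
  have hε0 : 0 < ε := by positivity
  have hε1 : ε ≤ 1 := by
    rw [hεdef, div_le_one (by positivity)]
    have : (0:ℝ) ≤ R := Nat.cast_nonneg R
    linarith
  refine ⟨ε, hε0, ?_⟩
  by_contra hcon
  push Not at hcon
  set M : ℝ := ‖c‖ + 2 with hM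
  have hM1 : 1 ≤ M := by have := norm_nonneg c; linarith
  set C₂ : ℝ := C * 2 ^ (4 * R + 5) * M ^ (2 * R + 1) with hC₂
  set C₄ : ℝ := (Nat.factorial (R + 1) : ℝ) * (C * 2 ^ (R * (R + 1) + 1)) ^ (R + 1) with hC₄
  have hC₂1 : 1 ≤ C₂ := one_le_mul_of_one_le_of_one_le
    (one_le_mul_of_one_le_of_one_le hC1 (one_le_pow₀ (by norm_num))) (one_le_pow₀ hM1)
  have hC₄1 : 1 ≤ C₄ := by
    apply one_le_mul_of_one_le_of_one_le
    · exact_mod_cast Nat.one_le_iff_ne_zero.mpr (Nat.factorial_ne_zero _)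
    · apply one_le_pow₀
      exact one_le_mul_of_one_le_of_one_le hC1 (one_le_pow₀ (by norm_num))
  have hlog2 : 0 ≤ Real.log C₂ := Real.log_nonneg hC₂1
  have hlog4 : 0 ≤ Real.log C₄ := Real.log_nonneg hC₄1
  obtain ⟨T₁, hT₁, x, hx, hxne, hx0, hx1, hx2, hxc⟩ :=
    hcon (1 + 48 * Real.log C₂ / δ + 33 * Real.log C₄ / δ)
  have hT₁a : 1 ≤ T₁ := by
    have h1 : 0 ≤ 48 * Real.log C₂ / δ := by positivity
    have h2 : 0 ≤ 33 * Real.log C₄ / δ := by positivity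
    linarith
  have hT₁b : 48 * Real.log C₂ ≤ δ * T₁ := by
    have h2 : 0 ≤ 33 * Real.log C₄ / δ := by positivity
    have h3 : 48 * Real.log C₂ / δ ≤ T₁ := by linarith
    rw [div_le_iff₀ hδ] at h3
    linarith
  have hT₁c : 32 * Real.log C₄ < δ * T₁ := by
    have h1 : 0 ≤ 48 * Real.log C₂ / δ := by positivity
    have h3 : 33 * Real.log C₄ / δ ≤ T₁ - 1 := by linarith
    rw [div_le_iff₀ hδ] at h3
    nlinarith
  obtain ⟨T₂, hT₂, y, hy, hyne, hy0, hy1, hy2, hyc⟩ := hcon (T₁ * (64 * (R + 1) / δ + 2))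
  have hT₁pos : 0 < T₁ := by linarith
  set q : ℕ := ⌊T₂ / T₁⌋₊ with hqdef
  have hT₂pos : 0 ≤ T₂ := le_trans (by positivity) hT₂
  have hq1 : (q:ℝ) * T₁ ≤ T₂ := by
    rw [← le_div_iff₀ hT₁pos]
    exact Nat.floor_le (by positivity)
  have hq2 : T₂ ≤ ((q:ℝ) + 1) * T₁ := by
    rw [← div_le_iff₀ hT₁pos]
    exact (Nat.lt_floor_add_one _).le
  have hqbig : 64 * ((R:ℝ) + 1) / δ + 1 ≤ q := by
    have h1 : T₁ * (64 * ((R:ℝ) + 1) / δ + 2) ≤ ((q:ℝ) + 1) * T₁ := hT₂.trans hq2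
    have h2 : T₁ * (64 * ((R:ℝ) + 1) / δ + 2) ≤ T₁ * ((q:ℝ) + 1) := by linarith
    have h3 := le_of_mul_le_mul_left h2 hT₁pos
    linarith
  have hqbig' : 64 * ((R:ℝ) + 1) ≤ δ * q := by
    have h1 : 64 * ((R:ℝ) + 1) / δ ≤ q := by linarith
    rw [div_le_iff₀ hδ] at h1
    linarith
  have hq1' : (1:ℝ) ≤ q := by
    have : 0 ≤ 64 * ((R:ℝ) + 1) / δ := by positivity
    linarith
  have hqnat : 1 ≤ q := by exact_mod_cast hq1'
  set κ : ℕ := 2 * D * q / (R + 1) with hκdef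
  have hκ1 : 2 * D * q ≤ (R + 1) * (κ + 1) := by
    exact (Nat.lt_mul_div_succ (2 * D * q) (Nat.succ_pos R)).le
  have hR32 : 32 * (D:ℝ) ≤ δ * (R + 1) := by
    have h1 : 32 * (D:ℝ) / δ ≤ R := Nat.le_ceil _
    rw [div_le_iff₀ hδ] at h1
    nlinarith
  have hκ2 : (κ:ℝ) ≤ δ * q / 16 := by
    have h1 : (κ:ℝ) ≤ ((2 * D * q : ℕ) : ℝ) / ((R + 1 : ℕ) : ℝ) := Nat.cast_div_le
    refine h1.trans ?_
    push_cast
    rw [div_le_iff₀ hR1]
    nlinarith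
  have hκq : κ < q := by
    have : (κ:ℝ) < q := by
      have : δ * q ≤ q := by nlinarith
      linarith
    exact_mod_cast this
  obtain ⟨p, hpne, hpb, hpE⟩ := hS q κ hqnat hκq hκ1
  obtain ⟨hx0n, hx1n, hx2n⟩ := ne_zero_of_mem S hnorm hx hxne
  obtain ⟨hy0n, hy1n, hy2n⟩ := ne_zero_of_mem S hnorm hy hyne
  -- the conjugate is large
  have hρ : Real.exp T₁ ≤ |x 2 / x 0| := by
    have h1 := hnorm x hx hxne
    have h2 : |x 0 * x 1 * x 2| = |x 0| ^ 2 * |x 1| * |x 2 / x 0| := by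
      rw [abs_mul, abs_mul, abs_div]
      have : |x 0| ≠ 0 := abs_ne_zero.mpr hx0n
      field_simp
    rw [h2] at h1
    have h3 : |x 0| ^ 2 * |x 1| ≤ Real.exp (-T₁) := by
      calc |x 0| ^ 2 * |x 1| ≤ Real.exp (-((2 - ε) * T₁)) ^ 2 * Real.exp T₁ := by gcongr
        _ = Real.exp (2 * (-((2 - ε) * T₁)) + T₁) := by
          rw [Real.exp_add, two_mul (-((2 - ε) * T₁)), Real.exp_add]; ring
        _ ≤ Real.exp (-T₁) := by
          apply Real.exp_le_exp.mpr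
          nlinarith
    have h4 : 1 ≤ Real.exp (-T₁) * |x 2 / x 0| :=
      h1.trans (mul_le_mul_of_nonneg_right h3 (abs_nonneg _))
    calc Real.exp T₁ = Real.exp T₁ * 1 := by ring
      _ ≤ Real.exp T₁ * (Real.exp (-T₁) * |x 2 / x 0|) := by gcongr
      _ = |x 2 / x 0| := by
        rw [← mul_assoc, ← Real.exp_add]; simp
  -- zero estimate
  have hm : ∃ m : ℕ, (m:ℝ) ≤ R + δ * q / 32 ∧ E R q κ p m (x 1 / x 2) (y 1 / y 2) ≠ 0 := by
    by_contra hall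
    push Not at hall
    have h1 : ∀ i < R + ⌊δ * q / 32⌋₊ + 1, E R q κ p i (x 1 / x 2) (y 1 / y 2) = 0 := by
      intro i hi
      apply hall
      have h2 : (i:ℝ) ≤ ((R + ⌊δ * q / 32⌋₊ : ℕ) : ℝ) := by exact_mod_cast (by omega)
      refine h2.trans ?_
      push_cast
      have : (⌊δ * q / 32⌋₊ : ℝ) ≤ δ * q / 32 := Nat.floor_le (by positivity)
      linarith
    have h2 := zero_bound hκq p hpb hC1 hpne (div_ne_zero hy1n hy2n)
      (transfer S hshift hnorm hx hxne) h1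
    have h3 : R + ⌊δ * q / 32⌋₊ + 1 - R = ⌊δ * q / 32⌋₊ + 1 := by omega
    rw [h3] at h2
    have h4 : Real.exp T₁ ^ (⌊δ * q / 32⌋₊ + 1) ≤ C₄ ^ q :=
      (pow_le_pow_left₀ (Real.exp_nonneg _) hρ _).trans h2
    have h5 := Real.log_le_log (by positivity) h4
    rw [Real.log_pow, Real.log_pow, Real.log_exp] at h5
    have h6 : δ * q / 32 ≤ ((⌊δ * q / 32⌋₊ + 1 : ℕ) : ℝ) := by
      push_cast
      exact (Nat.lt_floor_add_one _).le
    have h7 : δ * q / 32 * T₁ ≤ q * Real.log C₄ :=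
      (mul_le_mul_of_nonneg_right h6 hT₁pos.le).trans h5
    have h8 : (32 * Real.log C₄) * q < (δ * T₁) * q :=
      mul_lt_mul_of_pos_right hT₁c (by linarith)
    linarith
  obtain ⟨m, hmR, hmE⟩ := hm
  have hmq : m ≤ q := by
    have : (m:ℝ) ≤ q := by
      have h1 : δ * q ≤ q := by nlinarith
      linarith
    exact_mod_cast this
  -- the element of S
  set β : Fin 3 → ℝ := Hm R q κ p m (fun k => x (k + 1)) (fun k => x (k + 1 + 1))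
    (fun k => y (k + 1)) (fun k => y (k + 1 + 1)) with hβ
  have hβS : β ∈ S := Hm_mem S R q κ p m (hshift x hx) (hshift _ (hshift x hx)) (hshift y hy)
    (hshift _ (hshift y hy))
  have hβk : ∀ k, β k = Hm R q κ p m (x (k + 1)) (x (k + 1 + 1)) (y (k + 1)) (y (k + 1 + 1)) := by
    intro k
    exact Hm_map (Pi.evalRingHom (fun _ : Fin 3 => ℝ) k) R q κ p m _ _ _ _
  have hβ0 : β 0 = x 2 ^ (q * R + κ - m) * y 2 ^ R * E R q κ p m (x 1 / x 2) (y 1 / y 2) := by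
    have := hβk 0
    rw [this]
    exact Hm_eq R q κ p m (x 1) (x 2) (y 1) (y 2) hx2n hy2n
  have hβ1 : β 1 = Hm R q κ p m (x 2) (x 0) (y 2) (y 0) := hβk 1
  have hβ2 : β 2 = Hm R q κ p m (x 0) (x 1) (y 0) (y 1) := hβk 2
  have hβne : β ≠ 0 := by
    intro h0
    rw [h0, Pi.zero_apply] at hβ0
    exact (mul_ne_zero (mul_ne_zero (pow_ne_zero _ hx2n) (pow_ne_zero _ hy2n)) hmE) hβ0.symm
  have hprod := hnorm β hβS hβne
  -- bounds
  have hb1 := Hm_bound1 (R := R) (m := m) hκq p hpb hC1 hε0.le hε1 hT₁pos.le hq1 hq2 hx2 hx0 hy2 hy0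
  have hb2 := Hm_bound2 (R := R) (m := m) hκq p hpb hC1 hε0.le hε1 hT₁pos.le hq1 hq2 hx0 hx1 hy0 hy1
  have hC52 : (C * 2 ^ (2 * R + 2)) ^ q ≤ Real.exp (q * Real.log C₂) := by
    rw [Real.exp_nat_mul, Real.exp_log (by positivity)]
    apply pow_le_pow_left₀ (by positivity)
    rw [hC₂]
    have h1 : (1:ℝ) ≤ M ^ (2 * R + 1) := one_le_pow₀ hM1
    calc C * 2 ^ (2 * R + 2) ≤ C * 2 ^ (4 * R + 5) := by
          gcongr
          · norm_num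
          · omega
          · omega
      _ = C * 2 ^ (4 * R + 5) * 1 := by ring
      _ ≤ _ := by gcongr
  have hb0 : |β 0| ≤ 2 * Real.exp (q * Real.log C₂) *
      Real.exp ((q * R + κ) * T₁ + R * T₂ - δ * T₁ * (q - m)) := by
    have hu1 : ‖((x 1 / x 2 : ℝ) : ℂ) - c‖ ≤ 1 := by
      refine hxc.trans ?_
      rw [Real.exp_le_one_iff]
      have : 0 ≤ δ * T₁ := by positivity
      linarith
    have hu2 : ‖((y 1 / y 2 : ℝ) : ℂ) - c‖ ≤ 1 := by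
      refine hyc.trans ?_
      rw [Real.exp_le_one_iff]
      have : 0 ≤ δ * T₂ := by positivity
      linarith
    have hz : ‖((x 1 / x 2 : ℝ) : ℂ)‖ ≤ M := by
      calc ‖((x 1 / x 2 : ℝ) : ℂ)‖ = ‖(((x 1 / x 2 : ℝ) : ℂ) - c) + c‖ := by rw [sub_add_cancel]
        _ ≤ ‖((x 1 / x 2 : ℝ) : ℂ) - c‖ + ‖c‖ := norm_add_le _ _
        _ ≤ M := by rw [hM]; linarith
    have hw : ‖((y 1 / y 2 : ℝ) : ℂ)‖ ≤ M := by
      calc ‖((y 1 / y 2 : ℝ) : ℂ)‖ = ‖(((y 1 / y 2 : ℝ) : ℂ) - c) + c‖ := by rw [sub_add_cancel]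
        _ ≤ ‖((y 1 / y 2 : ℝ) : ℂ) - c‖ + ‖c‖ := norm_add_le _ _
        _ ≤ M := by rw [hM]; linarith
    have hcM : ‖c‖ ≤ M := by rw [hM]; linarith
    have h1 := E_small hκq p hpb hC1 hM1 hmq hpE hz hw hcM hu1
    have h2 : |E R q κ p m (x 1 / x 2) (y 1 / y 2)| =
        ‖E R q κ p m ((x 1 / x 2 : ℝ) : ℂ) ((y 1 / y 2 : ℝ) : ℂ)‖ := by
      have h3 := E_map Complex.ofRealHom R q κ p m (x 1 / x 2) (y 1 / y 2)
      have h4 : ((E R q κ p m (x 1 / x 2) (y 1 / y 2) : ℝ) : ℂ) =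
        E R q κ p m ((x 1 / x 2 : ℝ) : ℂ) ((y 1 / y 2 : ℝ) : ℂ) := h3
      rw [← h4, Complex.norm_real, Real.norm_eq_abs]
    have hqm : ((q - m : ℕ) : ℝ) = (q:ℝ) - m := by rw [Nat.cast_sub hmq]
    have h5 : ‖((x 1 / x 2 : ℝ) : ℂ) - c‖ ^ (q - m) ≤ Real.exp (-(δ * T₁ * (q - m))) := by
      calc ‖((x 1 / x 2 : ℝ) : ℂ) - c‖ ^ (q - m) ≤ Real.exp (-(δ * T₁)) ^ (q - m) := by gcongr
        _ = Real.exp (-(δ * T₁ * (q - m))) := by
          rw [← Real.exp_nat_mul, hqm]; congr 1; ring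
    have h6 : ‖((y 1 / y 2 : ℝ) : ℂ) - c‖ ≤ Real.exp (-(δ * T₁ * (q - m))) := by
      refine hyc.trans (Real.exp_le_exp.mpr ?_)
      have h7 : T₁ * ((q:ℝ) - m) ≤ T₂ := by
        have : (0:ℝ) ≤ m := Nat.cast_nonneg m
        nlinarith
      nlinarith
    have h8 : |E R q κ p m (x 1 / x 2) (y 1 / y 2)| ≤
        2 * Real.exp (q * Real.log C₂) * Real.exp (-(δ * T₁ * (q - m))) := by
      rw [h2]
      refine h1.trans ?_
      have h9 : (C * 2 ^ (4 * R + 5) * M ^ (2 * R + 1)) ^ q = Real.exp (q * Real.log C₂) := by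
        rw [Real.exp_nat_mul, Real.exp_log (by positivity)]
      rw [h9]
      have h10 := add_le_add h5 h6
      calc _ ≤ Real.exp (q * Real.log C₂) * (Real.exp (-(δ * T₁ * (q - m))) +
            Real.exp (-(δ * T₁ * (q - m)))) := by gcongr
        _ = _ := by ring
    rw [hβ0, abs_mul, abs_mul, abs_pow, abs_pow]
    have h11 : |x 2| ^ (q * R + κ - m) ≤ Real.exp ((q * R + κ) * T₁) := by
      refine (abs_pow_le_exp hx2 _).trans (Real.exp_le_exp.mpr ?_)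
      apply mul_le_mul_of_nonneg_right _ hT₁pos.le
      exact_mod_cast (by omega : q * R + κ - m ≤ q * R + κ)
    have h12 : |y 2| ^ R ≤ Real.exp (R * T₂) := abs_pow_le_exp hy2 _
    calc |x 2| ^ (q * R + κ - m) * |y 2| ^ R * |E R q κ p m (x 1 / x 2) (y 1 / y 2)|
        ≤ Real.exp ((q * R + κ) * T₁) * Real.exp (R * T₂) *
          (2 * Real.exp (q * Real.log C₂) * Real.exp (-(δ * T₁ * (q - m)))) := by gcongr
      _ = 2 * Real.exp (q * Real.log C₂) * (Real.exp ((q * R + κ) * T₁) * Real.exp (R * T₂) *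
          Real.exp (-(δ * T₁ * (q - m)))) := by ring
      _ = _ := by
        rw [← Real.exp_add, ← Real.exp_add]
        congr 2
  have hfin := final_ineq (δ := δ) (R := R) (q := q) (κ := κ) (m := m) (T₁ := T₁) (T₂ := T₂)
    (ε := ε) (l := Real.log C₂) hδ hδ1 (Nat.cast_nonneg R) hq1' (Nat.cast_nonneg m) hT₁a hq1 hq2
    hκ2 hmR (by
      rw [hεdef]
      rw [show 2 * (δ / (32 * ((R:ℝ) + 1))) * R = δ / 16 * (R / (R + 1)) by field_simp; ring]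
      have h1 : (R:ℝ) / (R + 1) ≤ 1 := by rw [div_le_one hR1]; linarith
      have h2 : 0 < δ / 16 := by positivity
      nlinarith) hT₁b hqbig'
  have hlast : |β 0 * β 1 * β 2| < 1 := by
    rw [abs_mul, abs_mul, hβ1, hβ2]
    have h2e : (2:ℝ) ≤ Real.exp 1 := by
      have := Real.add_one_le_exp (1:ℝ)
      linarith
    calc |β 0| * |Hm R q κ p m (x 2) (x 0) (y 2) (y 0)| * |Hm R q κ p m (x 0) (x 1) (y 0) (y 1)|
        ≤ (Real.exp 1 * Real.exp (q * Real.log C₂) *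
          Real.exp ((q * R + κ) * T₁ + R * T₂ - δ * T₁ * (q - m))) *
          (Real.exp (q * Real.log C₂) *
            Real.exp (-((1 - ε) * R * T₂) + κ * T₁ + 2 * R * T₁)) *
          (Real.exp (q * Real.log C₂) *
            Real.exp (-((1 - ε) * R * T₂) + κ * T₁ + 2 * R * T₁ + 2 * m * T₁)) := by
          gcongr
          · refine hb0.trans ?_
            gcongr
          · refine hb1.trans ?_
            gcongr
          · refine hb2.trans ?_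
            gcongr
      _ = Real.exp (1 + 3 * (q * Real.log C₂) +
          ((q * R + κ) * T₁ + R * T₂ - δ * T₁ * (q - m)) +
          (-((1 - ε) * R * T₂) + κ * T₁ + 2 * R * T₁) +
          (-((1 - ε) * R * T₂) + κ * T₁ + 2 * R * T₁ + 2 * m * T₁)) := by
          rw [← Real.exp_add, ← Real.exp_add, ← Real.exp_add, ← Real.exp_add, ← Real.exp_add,
            ← Real.exp_add]
          congr 1
          ring
      _ < 1 := by
          rw [Real.exp_lt_one_iff]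
          exact hfin
  linarith

theorem thue (S : Subring (Fin 3 → ℝ)) (hshift : ∀ x ∈ S, (fun k => x (k + 1)) ∈ S)
    (hnorm : ∀ x ∈ S, x ≠ 0 → 1 ≤ |x 0 * x 1 * x 2|) (c : ℂ) (hc : IsAlgebraic ℤ c) (δ : ℝ)
    (hδ : 0 < δ) :
    ∃ ε : ℝ, 0 < ε ∧ ∃ T₀ : ℝ, ∀ T, T₀ ≤ T → ∀ x ∈ S, x ≠ 0 →
      |x 0| ≤ Real.exp (-((2 - ε) * T)) → |x 1| ≤ Real.exp T → |x 2| ≤ Real.exp T →
      Real.exp (-(δ * T)) < ‖((x 1 / x 2 : ℝ) : ℂ) - c‖ := by
  obtain ⟨ε, hε, T₀, h⟩ := thue_aux S hshift hnorm c hc (min δ 1) (lt_min hδ one_pos)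
    (min_le_right _ _)
  refine ⟨ε, hε, max T₀ 0, fun T hT x hx hx0 h0 h1 h2 => ?_⟩
  have h3 := h T ((le_max_left _ _).trans hT) x hx hx0 h0 h1 h2
  refine lt_of_le_of_lt (Real.exp_le_exp.mpr ?_) h3
  have hT0 : 0 ≤ T := (le_max_right _ _).trans hT
  have h4 := min_le_left δ 1
  nlinarith

end Pool.Agent.Hhelper82.Mc
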