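import Pool.Agent.Hhelper82.Mc.Proj

namespace Pool.Agent.Hhelper82.Mc

/-- Dirichlet's box principle. -/
theorem pigeon {θ : ℝ} (h0 : 0 < θ) (h1 : θ < 1) (Q : ℕ) (hQ : 1 ≤ Q) :
    ∃ a : Fin 3 → ℤ, a ≠ 0 ∧ (∀ i, |(a i : ℝ)| ≤ Q) ∧
      |lf θ (a 0 : ℝ) (a 1) (a 2)| < 3 / (Q : ℝ) ^ 2 := by
  have hQ0 : (0:ℝ) < Q := by exact_mod_cast hQ
  let val : (Fin 3 → Fin (Q + 1)) → ℝ := fun b => lf θ ((b 0 : ℕ) : ℝ) ((b 1 : ℕ) : ℝ) ((b 2 : ℕ) : ℝ)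
  have hval0 : ∀ b, 0 ≤ val b := by
    intro b
    simp only [val, lf]
    positivity
  have hval1 : ∀ b, val b ≤ 3 * Q := by
    intro b
    have hb : ∀ i, ((b i : ℕ) : ℝ) ≤ Q := fun i => by
      have := (b i).2
      exact_mod_cast (by omega : (b i : ℕ) ≤ Q)
    simp only [val, lf]
    have e1 : ((b 1 : ℕ) : ℝ) * θ ≤ Q * 1 := by
      have := hb 1
      gcongr
    have e2 : ((b 2 : ℕ) : ℝ) * θ ^ 2 ≤ Q * 1 := by
      have := hb 2
      gcongr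
      exact pow_le_one₀ h0.le h1.le
    have e3 := hb 0
    linarith
  let f : (Fin 3 → Fin (Q + 1)) → ℕ := fun b => ⌊val b * (Q : ℝ) ^ 2 / 3⌋₊
  have hf : ∀ b ∈ (Finset.univ : Finset (Fin 3 → Fin (Q + 1))), f b ∈ Finset.range (Q ^ 3 + 1) := by
    intro b _
    rw [Finset.mem_range, Nat.lt_succ_iff]
    apply Nat.floor_le_of_le
    push_cast
    have := hval1 b
    rw [div_le_iff₀ (by norm_num)]
    calc val b * (Q:ℝ) ^ 2 ≤ (3 * Q) * (Q:ℝ) ^ 2 := by gcongr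
      _ = _ := by ring
  have hcard : (Finset.range (Q ^ 3 + 1)).card < (Finset.univ : Finset (Fin 3 → Fin (Q + 1))).card := by
    rw [Finset.card_range, Finset.card_univ, Fintype.card_fun, Fintype.card_fin, Fintype.card_fin]
    have : (Q + 1) ^ 3 = Q ^ 3 + 3 * Q ^ 2 + 3 * Q + 1 := by ring
    rw [this]
    have : 0 < Q := hQ
    omega
  obtain ⟨b, _, b', _, hne, hfb⟩ := Finset.exists_ne_map_eq_of_card_lt_of_maps_to hcard hf
  refine ⟨fun i => ((b i : ℕ) : ℤ) - ((b' i : ℕ) : ℤ), ?_, ?_, ?_⟩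
  · intro h
    apply hne
    ext i
    have := congrFun h i
    simp only [Pi.zero_apply] at this
    omega
  · intro i
    have h2 := (b i).2
    have h3 := (b' i).2
    have : |((b i : ℕ) : ℤ) - ((b' i : ℕ) : ℤ)| ≤ (Q : ℤ) := by
      rw [abs_le]; omega
    exact_mod_cast this
  · have h2 : lf θ ((((b 0 : ℕ) : ℤ) - ((b' 0 : ℕ) : ℤ) : ℤ) : ℝ)
        ((((b 1 : ℕ) : ℤ) - ((b' 1 : ℕ) : ℤ) : ℤ) : ℝ)
        ((((b 2 : ℕ) : ℤ) - ((b' 2 : ℕ) : ℤ) : ℤ) : ℝ) = val b - val b' := by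
      simp only [val, lf]
      push_cast
      ring
    rw [h2]
    have h3 : ⌊val b * (Q : ℝ) ^ 2 / 3⌋₊ = ⌊val b' * (Q : ℝ) ^ 2 / 3⌋₊ := hfb
    have h4 : |val b * (Q : ℝ) ^ 2 / 3 - val b' * (Q : ℝ) ^ 2 / 3| < 1 := by
      have e1 := Nat.floor_le (a := val b * (Q : ℝ) ^ 2 / 3) (by have := hval0 b; positivity)
      have e2 := Nat.lt_floor_add_one (val b * (Q : ℝ) ^ 2 / 3)
      have e3 := Nat.floor_le (a := val b' * (Q : ℝ) ^ 2 / 3) (by have := hval0 b'; positivity)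
      have e4 := Nat.lt_floor_add_one (val b' * (Q : ℝ) ^ 2 / 3)
      rw [h3] at e1 e2
      rw [abs_lt]
      constructor <;> linarith
    have h5 : val b * (Q : ℝ) ^ 2 / 3 - val b' * (Q : ℝ) ^ 2 / 3 = (val b - val b') * ((Q : ℝ) ^ 2 / 3) := by
      ring
    rw [h5, abs_mul, abs_of_pos (show (0:ℝ) < (Q : ℝ) ^ 2 / 3 by positivity)] at h4
    rw [lt_div_iff₀ (by positivity)]
    linarith

theorem upper_points (Q : ℕ) (hQ : 1000 ≤ Q) : ∃ m : Fin 5 → ℤ, (fun i => (m i : ℚ)) ≠ 0 ∧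
    m 1 * Nf (m 2) (m 3) (m 4) - Kf (m 2) (m 3) (m 4) + m 0 * m 1 ^ 3 + m 0 ^ 4 = 0 ∧
    (∀ i, |(m i : ℝ)| ≤ 648 * (Q : ℝ) ^ 4) ∧ 0 < vdist e1 (fun i => (m i : ℚ)) ∧
    vdist e1 (fun i => (m i : ℚ)) ≤ 57177414 / (Q : ℝ) ^ 3 := by
  obtain ⟨θ, h0, h1, hθ⟩ := exists_root
  obtain ⟨a, ha0, haQ, hx0⟩ := pigeon h0 h1 Q (by omega)
  have hQr : (1000:ℝ) ≤ Q := by exact_mod_cast hQ
  have hQ0 : (0:ℝ) < Q := by linarith
  have hx0' : |vec θ a 0| < 3 / (Q:ℝ) ^ 2 := hx0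
  have hx1 : |vec θ a 1| ≤ 7 * Q := vec_abs_le hθ haQ 1
  have hx2 : |vec θ a 2| ≤ 7 * Q := vec_abs_le hθ haQ 2
  have hprod := SS_norm hθ _ (mem_SS hθ a) (vec_ne_zero hθ ha0)
  have hN := vec_prod hθ a
  have hKf := Kf_eq hθ (a 0 : ℝ) (a 1) (a 2)
  have hK : vec θ a 0 ^ 3 * vec θ a 1 + vec θ a 1 ^ 3 * vec θ a 2 + vec θ a 2 ^ 3 * vec θ a 0 =
    ((Kf (a 0) (a 1) (a 2) : ℤ) : ℝ) := by rw [intCast_Kf]; exact hKf
  set x0 := vec θ a 0
  set x1 := vec θ a 1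
  set x2 := vec θ a 2
  set N : ℤ := Nf (a 0) (a 1) (a 2) with hNdef
  set κ : ℤ := Kf (a 0) (a 1) (a 2) with hκdef
  have hN147 : |(N : ℝ)| ≤ 147 := by
    rw [← hN, abs_mul, abs_mul]
    calc |x0| * |x1| * |x2| ≤ (3 / (Q:ℝ) ^ 2) * (7 * Q) * (7 * Q) := by gcongr
      _ = 147 := by field_simp; norm_num
  have hN1 : 1 ≤ |(N : ℝ)| := by rw [← hN]; exact hprod
  have hN0 : N ≠ 0 := by
    intro h
    rw [h] at hN1
    norm_num at hN1
  rw [abs_mul, abs_mul] at hprod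
  have hx1' : (Q:ℝ) / 21 ≤ |x1| := by
    have h3 : 1 ≤ (3 / (Q:ℝ) ^ 2) * |x1| * (7 * Q) := by
      calc 1 ≤ |x0| * |x1| * |x2| := hprod
        _ ≤ _ := by gcongr
    have h4 : (3 / (Q:ℝ) ^ 2) * |x1| * (7 * Q) = 21 * |x1| / Q := by field_simp; ring
    rw [h4, le_div_iff₀ hQ0] at h3
    linarith
  have hx2' : (Q:ℝ) / 21 ≤ |x2| := by
    have h3 : 1 ≤ (3 / (Q:ℝ) ^ 2) * (7 * Q) * |x2| := by
      calc 1 ≤ |x0| * |x1| * |x2| := hprod
        _ ≤ _ := by gcongr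
    have h4 : (3 / (Q:ℝ) ^ 2) * (7 * Q) * |x2| = 21 * |x2| / Q := by field_simp; ring
    rw [h4, le_div_iff₀ hQ0] at h3
    linarith
  have hκ : (Q:ℝ) ^ 4 / 388962 ≤ |(κ : ℝ)| := by
    rw [← hK]
    have e1 : |x0 ^ 3 * x1| ≤ Q := by
      rw [abs_mul, abs_pow]
      have h5 : |x0| ≤ 1 := by
        refine hx0'.le.trans ?_
        rw [div_le_one (by positivity)]
        nlinarith
      have h6 : |x0| ^ 3 ≤ 1 / 7 := by
        have h7 : |x0| ≤ 1 / 7 := by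
          refine hx0'.le.trans ?_
          rw [div_le_iff₀ (by positivity)]
          nlinarith
        calc |x0| ^ 3 ≤ |x0| ^ 1 := pow_le_pow_of_le_one (abs_nonneg _) h5 (by norm_num)
          _ = |x0| := pow_one _
          _ ≤ _ := h7
      calc |x0| ^ 3 * |x1| ≤ 1 / 7 * (7 * Q) := by gcongr
        _ = Q := by ring
    have e2 : |x2 ^ 3 * x0| ≤ 1029 * Q := by
      rw [abs_mul, abs_pow]
      calc |x2| ^ 3 * |x0| ≤ (7 * Q) ^ 3 * (3 / (Q:ℝ) ^ 2) := by gcongr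
        _ = 1029 * (Q:ℝ) := by field_simp; norm_num
    have e3 : ((Q:ℝ) / 21) ^ 4 ≤ |x1 ^ 3 * x2| := by
      rw [abs_mul, abs_pow]
      calc ((Q:ℝ) / 21) ^ 4 = ((Q:ℝ) / 21) ^ 3 * ((Q:ℝ) / 21) := by ring
        _ ≤ |x1| ^ 3 * |x2| := by gcongr
    have e4 : |x1 ^ 3 * x2| - |x0 ^ 3 * x1| - |x2 ^ 3 * x0| ≤
        |x0 ^ 3 * x1 + x1 ^ 3 * x2 + x2 ^ 3 * x0| := by
      have h7 : x1 ^ 3 * x2 = (x0 ^ 3 * x1 + x1 ^ 3 * x2 + x2 ^ 3 * x0) +
        (-(x0 ^ 3 * x1)) + (-(x2 ^ 3 * x0)) := by ring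
      have h8 : |x1 ^ 3 * x2| ≤ |x0 ^ 3 * x1 + x1 ^ 3 * x2 + x2 ^ 3 * x0| +
          |x0 ^ 3 * x1| + |x2 ^ 3 * x0| := by
        conv_lhs => rw [h7]
        refine (abs_add_le _ _).trans ?_
        refine add_le_add ((abs_add_le _ _).trans ?_) ?_
        · rw [abs_neg]
        · rw [abs_neg]
      linarith
    have e5 : 1030 * (Q:ℝ) ≤ (Q:ℝ) ^ 4 / 388962 := by
      rw [le_div_iff₀ (by norm_num)]
      have h9 : (1000:ℝ) ^ 3 ≤ (Q:ℝ) ^ 3 := by gcongr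
      nlinarith
    have e6 : ((Q:ℝ) / 21) ^ 4 = 2 * ((Q:ℝ) ^ 4 / 388962) := by ring
    linarith
  have hκ0 : 0 < |(κ : ℝ)| := lt_of_lt_of_le (by positivity) hκ
  have hκu : |(κ : ℝ)| ≤ 648 * (Q:ℝ) ^ 4 := by
    rw [hκdef, intCast_Kf]
    exact Kf_abs_le (haQ 0) (haQ 1) (haQ 2)
  set m : Fin 5 → ℤ := ![0, κ, N * a 0, N * a 1, N * a 2] with hm
  have hNa : ∀ i, |((N * a i : ℤ) : ℝ)| ≤ 147 * Q := by
    intro i
    push_cast
    rw [abs_mul]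
    have := haQ i
    gcongr
  have hm0 : (fun i => (m i : ℚ)) ≠ 0 := by
    intro h
    have h2 := congrFun h 1
    simp only [hm, Matrix.cons_val_one, Matrix.cons_val_zero, Pi.zero_apply] at h2
    have h3 : κ = 0 := by exact_mod_cast h2
    rw [h3] at hκ0
    norm_num at hκ0
  have hQ4 : (Q:ℝ) ≤ (Q:ℝ) ^ 4 := le_self_pow₀ (by linarith) (by norm_num)
  have hbd : ∀ i, |(m i : ℝ)| ≤ 648 * (Q : ℝ) ^ 4 := by
    intro i
    fin_cases i
    · simp [hm]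
    · exact hκu
    · exact (hNa 0).trans (by nlinarith)
    · exact (hNa 1).trans (by nlinarith)
    · exact (hNa 2).trans (by nlinarith)
  obtain ⟨hM, hle, _, hD0, hDle, i, hi1, hi2⟩ := vdist_e1 m hm0
  set D := vdist e1 (fun i => (m i : ℚ)) with hD
  set M := ⨆ i, |(m i : ℝ)| with hMdef
  have hDne : D ≠ 0 := by
    intro h
    have h2 : ∀ j, a j = 0 := by
      intro j
      have h3 : |((N * a j : ℤ) : ℝ)| ≤ 0 := by
        fin_cases j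
        · have := hDle 2 (by decide); rw [h, zero_mul] at this; exact this
        · have := hDle 3 (by decide); rw [h, zero_mul] at this; exact this
        · have := hDle 4 (by decide); rw [h, zero_mul] at this; exact this
      have h4 : ((N * a j : ℤ) : ℝ) = 0 := abs_eq_zero.mp (le_antisymm h3 (abs_nonneg _))
      have h5 : N * a j = 0 := by exact_mod_cast h4
      exact (mul_eq_zero.mp h5).resolve_left hN0
    exact ha0 (funext h2)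
  refine ⟨m, hm0, ?_, hbd, lt_of_le_of_ne hD0 (Ne.symm hDne), ?_⟩
  · simp only [hm, Matrix.cons_val_zero, Matrix.cons_val_one, Matrix.cons_val]
    have e1 : Nf (N * a 0) (N * a 1) (N * a 2) = N ^ 3 * N := by
      conv_rhs => rw [hNdef]
      conv_rhs => rw [← hNdef]
      rw [show N ^ 3 * N = N ^ 3 * Nf (a 0) (a 1) (a 2) from rfl]
      unfold Nf; ring
    have e2 : Kf (N * a 0) (N * a 1) (N * a 2) = N ^ 4 * κ := by
      rw [show N ^ 4 * κ = N ^ 4 * Kf (a 0) (a 1) (a 2) from rfl]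
      unfold Kf; ring
    rw [e1, e2]
    ring
  · have h1 : D * M ≤ 147 * Q := by
      refine hi1.trans ?_
      have hne := hi2 hDne
      fin_cases i
      · simp [hm]
      · exact absurd rfl hne
      · exact hNa 0
      · exact hNa 1
      · exact hNa 2
    have h2 : (Q:ℝ) ^ 4 / 388962 ≤ M := hκ.trans (hle 1)
    have h3 : D * ((Q:ℝ) ^ 4 / 388962) ≤ 147 * Q :=
      (mul_le_mul_of_nonneg_left h2 hD0).trans h1
    rw [le_div_iff₀ (by positivity)]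
    have h4 : (D * (Q:ℝ) ^ 3) * Q ≤ 57177414 * Q := by
      have : D * ((Q:ℝ) ^ 4 / 388962) = (D * (Q:ℝ) ^ 3) * Q / 388962 := by ring
      rw [this, div_le_iff₀ (by norm_num)] at h3
      linarith
    exact le_of_mul_le_mul_right h4 hQ0

end Pool.Agent.Hhelper82.Mc
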